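import Pool.Agent.H33.SMP.Defs

/-!
# Correctness of the sieve
-/

set_option autoImplicit false

namespace Pool.Agent.H33.SMP

open Pool.Agent.H33.SMS (G)

theorem chk_split (lam g K k : ℕ) (hg : 0 < g) (h : K ≡ k [MOD lam]) :
    ∃ j < g, K ≡ k + lam * j [MOD lam * g] := by
  have h1 : (lam : ℤ) ∣ (k : ℤ) - K := (Nat.modEq_iff_dvd).1 h
  obtain ⟨z, hz⟩ := h1
  have hg' : (0 : ℤ) < g := by exact_mod_cast hg
  refine ⟨((-z) % (g : ℤ)).toNat, ?_, ?_⟩
  · have := Int.emod_lt_of_pos (-z) hg'
    have h0 := Int.emod_nonneg (-z) hg'.ne'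
    omega
  · rw [Nat.modEq_iff_dvd]
    have h0 := Int.emod_nonneg (-z) hg'.ne'
    push_cast
    rw [Int.toNat_of_nonneg h0]
    refine ⟨-((-z) / (g : ℤ)), ?_⟩
    have h2 := Int.emod_add_mul_ediv (-z) (g : ℤ)
    have h3 : (-z) % (g : ℤ) = -z - g * ((-z) / (g : ℤ)) := by linarith
    rw [h3]
    have h4 : (k : ℤ) - K = lam * z := hz
    linear_combination h4

theorem chk_pow (a r ρ K : ℕ) (h : a ^ ρ % r = 1) : a ^ K ≡ a ^ (K % ρ) [MOD r] := by
  have h1 : a ^ ρ ≡ 1 [MOD r] := by
    have : 1 % r = 1 := by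
      rcases r with _ | _ | r
      · simp
      · simp [Nat.mod_one] at h
      · exact Nat.mod_eq_of_lt (by omega)
    unfold Nat.ModEq
    rw [h, this]
  have h2 : K = ρ * (K / ρ) + K % ρ := (Nat.div_add_mod K ρ).symm
  have h3 : a ^ K = (a ^ ρ) ^ (K / ρ) * a ^ (K % ρ) := by
    rw [← pow_mul, ← pow_add, ← h2]
  rw [h3]
  have h4 := (h1.pow (K / ρ)).mul_right (a ^ (K % ρ))
  simpa using h4

/-- The coefficient of the table. -/
def chkC (s r k j : ℕ) : ZMod r :=
  (-1) ^ (s - 1 - j) * ((s - j : ℕ) : ZMod r) ^ k *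
    (((s - 1).factorial / j.factorial : ℕ) : ZMod r)

theorem chk_hor (s r x k : ℕ) (hr : s < r) : ∀ m j : ℕ, j + m ≤ s →
    ((hor r x k ((List.range' j m).map fun j =>
      (s - j, (s - 1).factorial / j.factorial, (s - 1 - j) % 2 == 0)) j : ℕ) : ZMod r) =
    ∑ i ∈ Finset.range m, chkC s r k (j + i) *
      ∏ t ∈ Finset.range i, ((x : ZMod r) - ((j + t : ℕ) : ZMod r)) := by
  intro m
  induction m with
  | zero => intro j _; simp [hor]
  | succ m ih =>
    intro j hj
    rw [List.range'_succ, List.map_cons, hor, Finset.sum_range_succ']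
    rw [Nat.cast_add, ZMod.natCast_mod, Nat.cast_mul, ih (j + 1) (by omega)]
    have h1 : ((x + (r - j) : ℕ) : ZMod r) = (x : ZMod r) - (j : ZMod r) := by
      rw [Nat.cast_add, Nat.cast_sub (by omega)]
      simp
      ring
    have h2 : (((bif ((s - 1 - j) % 2 == 0) then
        (s - j) ^ k * ((s - 1).factorial / j.factorial) % r
        else r - (s - j) ^ k * ((s - 1).factorial / j.factorial) % r : ℕ)) : ZMod r) =
        chkC s r k j := by
      unfold chkC
      rcases Nat.mod_two_eq_zero_or_one (s - 1 - j) with h | h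
      · rw [h]
        simp only [beq_self_eq_true, cond_true]
        rw [ZMod.natCast_mod, Nat.cast_mul, Nat.cast_pow]
        have he : Even (s - 1 - j) := Nat.even_iff.2 h
        rw [he.neg_one_pow, one_mul]
      · rw [h]
        have hb : ((1 : ℕ) == 0) = false := rfl
        rw [hb]
        simp only [cond_false]
        have hlt : (s - j) ^ k * ((s - 1).factorial / j.factorial) % r ≤ r :=
          (Nat.mod_lt _ (by omega)).le
        rw [Nat.cast_sub hlt, ZMod.natCast_mod, Nat.cast_mul, Nat.cast_pow]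
        have he : Odd (s - 1 - j) := Nat.odd_iff.2 h
        rw [he.neg_one_pow]
        simp
    rw [h1, h2, Finset.mul_sum]
    simp only [Finset.prod_range_succ', Finset.range_zero, Finset.prod_empty, add_zero, mul_one]
    rw [add_comm]
    congr 1
    apply Finset.sum_congr rfl
    intro i _
    have e1 : j + 1 + i = j + (i + 1) := by ring
    rw [e1]
    have e2 : ∏ t ∈ Finset.range i, ((x : ZMod r) - ((j + 1 + t : ℕ) : ZMod r)) =
        ∏ t ∈ Finset.range i, ((x : ZMod r) - ((j + (t + 1) : ℕ) : ZMod r)) := by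
      apply Finset.prod_congr rfl
      intro t _
      have : j + 1 + t = j + (t + 1) := by ring
      rw [this]
    rw [e2]
    ring

theorem chk_desc (r n j : ℕ) : ∏ t ∈ Finset.range j, ((n : ZMod r) - ((t : ℕ) : ZMod r)) =
    ((n.descFactorial j : ℕ) : ZMod r) := by
  induction j with
  | zero => simp
  | succ j ih =>
    rw [Finset.prod_range_succ, ih, Nat.descFactorial_succ]
    rcases Nat.lt_or_ge n j with h | h
    · rw [(Nat.descFactorial_eq_zero_iff_lt).2 h]
      simp
    · rw [Nat.cast_mul, Nat.cast_sub h]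
      ring

theorem chk_G (s r n K : ℕ) :
    ((((s - 1).factorial : ℤ) * G n s K : ℤ) : ZMod r) =
    ∑ j ∈ Finset.range s, chkC s r K j * ∏ t ∈ Finset.range j,
      ((n : ZMod r) - ((t : ℕ) : ZMod r)) := by
  unfold G
  rw [← Finset.sum_range_reflect (fun i : ℕ => (-1 : ℤ) ^ i * ((i : ℤ) + 1) ^ K *
    (n.choose (s - 1 - i) : ℤ)) s]
  rw [Finset.mul_sum]
  push_cast
  apply Finset.sum_congr rfl
  intro j hj
  have hj' : j < s := Finset.mem_range.1 hj
  have e1 : s - 1 - (s - 1 - j) = j := by omega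
  have e2 : ((s - j : ℕ) : ZMod r) = ((s - 1 - j : ℕ) : ZMod r) + 1 := by
    have : s - j = s - 1 - j + 1 := by omega
    rw [this]
    push_cast
    ring
  rw [chk_desc, Nat.descFactorial_eq_factorial_mul_choose, e1]
  unfold chkC
  rw [e2]
  have e3 : (((s - 1).factorial / j.factorial : ℕ) : ZMod r) * ((j.factorial : ℕ) : ZMod r) =
      (((s - 1).factorial : ℕ) : ZMod r) := by
    rw [← Nat.cast_mul, Nat.div_mul_cancel (Nat.factorial_dvd_factorial (by omega))]
  rw [← e3]
  push_cast
  ring

/-- Horner's scheme computes `G` modulo `r`. -/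
theorem chk_hor_G (s r x k n K : ℕ) (hr : s < r) (hx : x ≡ n [MOD r])
    (hk : ∀ i, 1 ≤ i → i ≤ s → i ^ k ≡ i ^ K [MOD r]) :
    ((hor r x k (tbl s) 0 : ℕ) : ZMod r) = ((((s - 1).factorial : ℤ) * G n s K : ℤ) : ZMod r) := by
  have h1 := chk_hor s r x k hr s 0 (by omega)
  unfold tbl
  rw [List.range_eq_range', h1, chk_G]
  apply Finset.sum_congr rfl
  intro j hj
  have hj' : j < s := Finset.mem_range.1 hj
  have hx' : (x : ZMod r) = (n : ZMod r) := (ZMod.natCast_eq_natCast_iff x n r).2 hx
  have hc : chkC s r k (0 + j) = chkC s r K j := by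
    unfold chkC
    rw [zero_add]
    have h2 := (ZMod.natCast_eq_natCast_iff ((s - j) ^ k) ((s - j) ^ K) r).2
      (hk (s - j) (by omega) (by omega))
    push_cast at h2
    rw [h2]
  rw [hc, hx']
  simp only [zero_add]

theorem pf_CHK : T_CHK := by
  intro s p d L
  induction L with
  | nil =>
    intro lam k mu c _ _ _ _ h
    simp [chk] at h
  | cons a L ih =>
    intro lam k mu c hs hl hm hok h K c' hK hc
    rw [List.all_cons, Bool.and_eq_true] at hok
    cases a with
    | K g =>
      simp only [okT, decide_eq_true_eq] at hok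
      simp only [chk, List.all_eq_true, List.mem_range] at h
      obtain ⟨j, hj, hKj⟩ := chk_split lam g K k hok.1 hK
      exact ih (lam * g) (k + lam * j) mu c hs (Nat.mul_pos hl hok.1) hm hok.2 (h j hj) K c' hKj hc
    | C g =>
      simp only [okT, decide_eq_true_eq] at hok
      simp only [chk, List.all_eq_true, List.mem_range] at h
      obtain ⟨j, hj, hcj⟩ := chk_split mu g c' c hok.1 hc
      exact ih lam k (mu * g) (c + mu * j) hs hl (Nat.mul_pos hm hok.1) hok.2 (h j hj) K c' hK hcj
    | T r ρ ν =>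
      simp only [chk, Bool.or_eq_true, Bool.and_eq_true, beq_iff_eq, bne_iff_ne, ne_eq] at h
      rcases h with ⟨⟨h1, h2⟩, h3⟩ | h
      · simp only [okT, Bool.and_eq_true, decide_eq_true_eq, List.all_eq_true, List.mem_range,
          beq_iff_eq] at hok
        obtain ⟨⟨⟨hr, hi⟩, hp⟩, hok2⟩ := hok
        intro hG
        apply h3
        have hkρ : K % ρ = k % ρ := (hK.of_dvd (Nat.dvd_of_mod_eq_zero h1))
        have hcν : c' % ν = c % ν := (hc.of_dvd (Nat.dvd_of_mod_eq_zero h2))
        have e := chk_hor_G s r (d * p ^ (c % ν) % r) (k % ρ) (d * p ^ c') K hr ?_ ?_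
        · rw [hG, mul_zero, Int.cast_zero] at e
          exact Nat.mod_eq_zero_of_dvd ((ZMod.natCast_eq_zero_iff _ _).1 e)
        · have h4 : p ^ (c % ν) ≡ p ^ c' [MOD r] := by
            rw [← hcν]
            exact (chk_pow p r ν c' hp).symm
          exact (Nat.mod_modEq _ _).trans (h4.mul_left d)
        · intro i hi1 hi2
          rw [← hkρ]
          have h5 := hi (i - 1) (by omega)
          have h6 : i - 1 + 1 = i := by omega
          rw [h6] at h5
          exact (chk_pow i r ρ K h5).symm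
      · exact ih lam k mu c hs hl hm hok.2 h K c' hK hc

end Pool.Agent.H33.SMP
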