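import Pool.Agent.H33.SMP.FQ

/-!
# A faster form of the sieve: restrictions by bit masks
-/

set_option autoImplicit false

namespace Pool.Agent.H33.SMP

open Pool.Agent.H33.SMS (G Det Crit)

/-- Steps of the sieve: split the class of `K`, of the first and of the second exponent, restrict
the class of `K`, test modulo `r`, apply the criterion with a table. -/
inductive Sm where
  | K (g : ℕ) : Sm
  | C (g : ℕ) : Sm
  | B (g : ℕ) : Sm
  | R (l : ℕ) (m : List ℕ) : Sm
  | T (r ρ ν ν' : ℕ) : Sm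
  | P (p v ν ν' : ℕ) (tb : List (ℕ × ℕ × ℕ × ℕ)) : Sm

/-- The bit `k` of a mask given by words of 256 bits. -/
def bitm (m : List ℕ) (k : ℕ) : ℕ := m.getD (k / 256) 0 / 2 ^ (k % 256) % 2

/-- The sieve for `n = d * p ^ c * q ^ b`. -/
def cq (T : List (ℕ × ℕ × Bool)) (p q d : ℕ) : List Sm → ℕ → ℕ → ℕ → ℕ → ℕ → ℕ → Bool
  | [], _, _, _, _, _, _ => false
  | Sm.K g :: L, lam, k, mu, c, nu, b =>
    (List.range g).all fun j => cq T p q d L (lam * g) (k + lam * j) mu c nu b
  | Sm.C g :: L, lam, k, mu, c, nu, b =>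
    (List.range g).all fun j => cq T p q d L lam k (mu * g) (c + mu * j) nu b
  | Sm.B g :: L, lam, k, mu, c, nu, b =>
    (List.range g).all fun j => cq T p q d L lam k mu c (nu * g) (b + nu * j)
  | Sm.R l m :: L, lam, k, mu, c, nu, b =>
    (lam % l == 0 && bitm m (k % l) == 0) || cq T p q d L lam k mu c nu b
  | Sm.T r ρ ν ν' :: L, lam, k, mu, c, nu, b =>
    (lam % ρ == 0 && mu % ν == 0 && nu % ν' == 0 &&
        hor r (d * p ^ (c % ν) * q ^ (b % ν') % r) (k % ρ) T 0 % r != 0) ||
      cq T p q d L lam k mu c nu b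
  | Sm.P p' v ν ν' tb :: L, lam, k, mu, c, nu, b =>
    (d % p' ^ v == 0 && mu % ν == 0 && nu % ν' == 0 &&
        kr p' v (d * p ^ (c % ν) * q ^ (b % ν')) tb) ||
      cq T p q d L lam k mu c nu b

/-- A step is admissible. -/
def okM (s p q lamB : ℕ) (BB : List ℕ) : Sm → Bool
  | Sm.K g => decide (0 < g)
  | Sm.C g => decide (0 < g)
  | Sm.B g => decide (0 < g)
  | Sm.R l m => lamB % l == 0 && BB.all fun k => bitm m (k % l) == 1
  | Sm.T r ρ ν ν' => decide (s < r) && (List.range s).all (fun i => (i + 1) ^ ρ % r == 1) &&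
      (p ^ ν % r == 1) && (q ^ ν' % r == 1)
  | Sm.P p' v ν ν' tb => krok s p' v tb && (p' ^ v * p ^ ν % p' ^ (v + 1) == p' ^ v) &&
      (p' ^ v * q ^ ν' % p' ^ (v + 1) == p' ^ v) &&
      tb.all fun x => (p' ^ v * p ^ ν % x.1 == p' ^ v % x.1) &&
        (p' ^ v * q ^ ν' % x.1 == p' ^ v % x.1)

theorem pf_CQ (s p q d lamB : ℕ) (BB : List ℕ) (hs : 2 ≤ s) (L : List Sm) :
    ∀ (lam k mu c nu b : ℕ), 0 < lam → 0 < mu → 0 < nu →
    L.all (okM s p q lamB BB) = true → cq (tbl s) p q d L lam k mu c nu b = true →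
    ∀ K c' b' : ℕ, K % lamB ∈ BB → s < d * p ^ c' * q ^ b' → K ≡ k [MOD lam] →
    c' ≡ c [MOD mu] → b' ≡ b [MOD nu] → G (d * p ^ c' * q ^ b') s K ≠ 0 := by
  induction L with
  | nil =>
    intro lam k mu c nu b _ _ _ _ h
    simp [cq] at h
  | cons a L ih =>
    intro lam k mu c nu b hl hm hn hok h K c' b' hB hsn hK hc hb
    rw [List.all_cons, Bool.and_eq_true] at hok
    cases a with
    | K g =>
      simp only [okM, decide_eq_true_eq] at hok
      simp only [cq, List.all_eq_true, List.mem_range] at h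
      obtain ⟨j, hj, hKj⟩ := chk_split lam g K k hok.1 hK
      exact ih (lam * g) (k + lam * j) mu c nu b (Nat.mul_pos hl hok.1) hm hn hok.2 (h j hj)
        K c' b' hB hsn hKj hc hb
    | C g =>
      simp only [okM, decide_eq_true_eq] at hok
      simp only [cq, List.all_eq_true, List.mem_range] at h
      obtain ⟨j, hj, hcj⟩ := chk_split mu g c' c hok.1 hc
      exact ih lam k (mu * g) (c + mu * j) nu b hl (Nat.mul_pos hm hok.1) hn hok.2 (h j hj)
        K c' b' hB hsn hK hcj hb
    | B g =>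
      simp only [okM, decide_eq_true_eq] at hok
      simp only [cq, List.all_eq_true, List.mem_range] at h
      obtain ⟨j, hj, hbj⟩ := chk_split nu g b' b hok.1 hb
      exact ih lam k mu c (nu * g) (b + nu * j) hl hm (Nat.mul_pos hn hok.1) hok.2 (h j hj)
        K c' b' hB hsn hK hc hbj
    | R l m =>
      simp only [cq, Bool.or_eq_true, Bool.and_eq_true, beq_iff_eq] at h
      rcases h with ⟨h1, h2⟩ | h
      · simp only [okM, Bool.and_eq_true, beq_iff_eq, List.all_eq_true] at hok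
        have h3 := hok.1.2 _ hB
        have h4 : K % lamB % l = K % l := Nat.mod_mod_of_dvd K (Nat.dvd_of_mod_eq_zero hok.1.1)
        have h5 : K % l = k % l := hK.of_dvd (Nat.dvd_of_mod_eq_zero h1)
        rw [h4, h5] at h3
        omega
      · exact ih lam k mu c nu b hl hm hn hok.2 h K c' b' hB hsn hK hc hb
    | T r ρ ν ν' =>
      simp only [cq, Bool.or_eq_true, Bool.and_eq_true, beq_iff_eq, bne_iff_ne, ne_eq] at h
      rcases h with ⟨⟨⟨h1, h2⟩, h2'⟩, h3⟩ | h
      · simp only [okM, Bool.and_eq_true, decide_eq_true_eq, List.all_eq_true, List.mem_range,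
          beq_iff_eq] at hok
        obtain ⟨⟨⟨⟨hr, hi⟩, hp⟩, hq⟩, hok2⟩ := hok
        intro hG
        apply h3
        have hkρ : K % ρ = k % ρ := (hK.of_dvd (Nat.dvd_of_mod_eq_zero h1))
        have hcν : c' % ν = c % ν := (hc.of_dvd (Nat.dvd_of_mod_eq_zero h2))
        have hbν : b' % ν' = b % ν' := (hb.of_dvd (Nat.dvd_of_mod_eq_zero h2'))
        have e := chk_hor_G s r (d * p ^ (c % ν) * q ^ (b % ν') % r) (k % ρ)
          (d * p ^ c' * q ^ b') K hr ?_ ?_
        · rw [hG, mul_zero, Int.cast_zero] at e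
          exact Nat.mod_eq_zero_of_dvd ((ZMod.natCast_eq_zero_iff _ _).1 e)
        · have h4 := ck_per2 d 1 p q ν ν' r c' b' (one_dvd _)
            (by rw [one_mul]; exact hp.trans (Nat.mod_eq_of_lt (by omega)).symm)
            (by rw [one_mul]; exact hq.trans (Nat.mod_eq_of_lt (by omega)).symm)
          rw [hcν, hbν] at h4
          exact (Nat.mod_modEq _ _).trans h4.symm
        · intro i hi1 hi2
          rw [← hkρ]
          have h5 := hi (i - 1) (by omega)
          have h6 : i - 1 + 1 = i := by omega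
          rw [h6] at h5
          exact (chk_pow i r ρ K h5).symm
      · exact ih lam k mu c nu b hl hm hn hok.2 h K c' b' hB hsn hK hc hb
    | P p' v ν ν' tb =>
      simp only [cq, Bool.or_eq_true, Bool.and_eq_true, beq_iff_eq] at h
      rcases h with ⟨⟨⟨h1, h2⟩, h2'⟩, h3⟩ | h
      · simp only [okM, Bool.and_eq_true, beq_iff_eq, List.all_eq_true] at hok
        obtain ⟨⟨⟨⟨hkr, h4⟩, h5⟩, h6⟩, hok2⟩ := hok
        have hcν : c' % ν = c % ν := (hc.of_dvd (Nat.dvd_of_mod_eq_zero h2))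
        have hbν : b' % ν' = b % ν' := (hb.of_dvd (Nat.dvd_of_mod_eq_zero h2'))
        have hd : p' ^ v ∣ d := Nat.dvd_of_mod_eq_zero h1
        have hp2 : 2 ≤ p' := by
          have hh := hkr
          simp only [krok, Bool.and_eq_true] at hh
          exact (isP_prime p' hh.1.1.2).two_le
        have h7 : p' ^ v < p' ^ (v + 1) := Nat.pow_lt_pow_right (by omega) (by omega)
        refine kr_ne s p' v _ tb hkr hsn (kr_congr p' v _ _ tb ?_ ?_ h3) K
        · have h8 := ck_per2 d (p' ^ v) p q ν ν' (p' ^ (v + 1)) c' b' hd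
            (h4.trans (Nat.mod_eq_of_lt h7).symm) (h5.trans (Nat.mod_eq_of_lt h7).symm)
          rwa [hcν, hbν] at h8
        · intro y hy
          have h8 := ck_per2 d (p' ^ v) p q ν ν' y.1 c' b' hd (h6 y hy).1 (h6 y hy).2
          rwa [hcν, hbν] at h8
      · exact ih lam k mu c nu b hl hm hn hok.2 h K c' b' hB hsn hK hc hb

end Pool.Agent.H33.SMP
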