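import Pool.Agent.H33.SMP.MN
import Pool.Agent.H69.SMS.DIV

/-!
# The form of the exceptional `n`
-/

set_option autoImplicit false

namespace Pool.Agent.H33.SMP

open Pool.Agent.H33.SMS (G)

theorem dc_div (n s K : ℕ) (hs : 1 ≤ s) (hG : G n s K = 0) : n ∣ (s - 1).factorial * s ^ K :=
  Pool.Agent.H69.SMS.pf_DIV n s K hs hG

theorem dc_dec (q n A E : ℕ) (D : List ℕ) (hq : q.Prime) (hn : n ≠ 0) (hA : n ∣ A * q ^ E)
    (hA0 : 0 < A)
    (hD : ((List.range (A + 1)).all fun d => A % d != 0 || D.contains d) = true) :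
    ∃ c d, d ∈ D ∧ n = d * q ^ c := by
  obtain ⟨c, d, hd, rfl⟩ := Nat.exists_eq_pow_mul_and_not_dvd hn q hq.ne_one
  have h1 : d ∣ A := by
    have h2 : d ∣ A * q ^ E := (dvd_mul_left d _).trans hA
    exact (Nat.Coprime.pow_right E ((Nat.Prime.coprime_iff_not_dvd hq).2 hd).symm).dvd_of_dvd_mul_right
      h2
  simp only [List.all_eq_true, List.mem_range, Bool.or_eq_true, bne_iff_ne, ne_eq,
    List.contains_iff_mem] at hD
  refine ⟨c, d, ?_, by ring⟩
  rcases hD d (by have := Nat.le_of_dvd hA0 h1; omega) with h3 | h3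
  · exact absurd (Nat.mod_eq_zero_of_dvd h1) h3
  · exact h3

end Pool.Agent.H33.SMP
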