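import Pool.Agent.H33.SMS.Asm1

/-!
# Exceptional `n` for a fixed small `s` (MP_ec36a5_nt): definitions and targets

`G n s K` is the factor of the power sum of order `K + 1`; `G n s K ≠ 0` for all `K` gives `Det n s`.
-/

set_option autoImplicit false

namespace Pool.Agent.H33.SMP

open Pool.Agent.H33.SMS (G Det)

/-- The limit sum. -/
def LL (s K : ℕ) : ℕ := ∑ j ∈ Finset.Icc 1 (s - 1), (s - 1).factorial / j * (s - j) ^ K

/-- No zeros for large `n`. -/
def T_UP : Prop := ∀ s n K : ℕ, 2 ≤ s → (s - 1) * 2 ^ K + s ≤ n → G n s K ≠ 0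

/-- No zeros for small `n`. -/
def T_LO : Prop := ∀ s n K : ℕ, 2 ≤ s → 2 * n * (s - 1) ^ K < s ^ K → G n s K ≠ 0

/-- The congruence for a zero. -/
def T_YC : Prop := ∀ q φ l t s n K : ℕ, q.Prime → q ∣ s → q ^ φ ∣ (s - 1).factorial →
  s ≤ q ^ (l + 1) → l ≤ K → 1 ≤ n → 2 ≤ s → q ^ (l + t) ∣ n → G n s K = 0 →
  ∃ Y : ℤ, (n : ℤ) * Y = ((s - 1).factorial : ℤ) * (s : ℤ) ^ K ∧
    (q : ℤ) ^ (φ + t) ∣ Y - (LL s K : ℤ)

/-- Table of the coefficients `(s - j, (s - 1)! / j!, sign)` for `j = 0, ..., s - 1`. -/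
def tbl (s : ℕ) : List (ℕ × ℕ × Bool) :=
  (List.range s).map fun j => (s - j, (s - 1).factorial / j.factorial, (s - 1 - j) % 2 == 0)

/-- Horner's scheme modulo `r` for the polynomial `(s - 1)! G x s k`. -/
def hor (r x k : ℕ) : List (ℕ × ℕ × Bool) → ℕ → ℕ
  | [], _ => 0
  | (b, A, e) :: T, j =>
    (bif e then b ^ k * A % r else r - b ^ k * A % r) + (x + (r - j)) * hor r x k T (j + 1) % r

/-- Steps of a sieve: split the class of `K`, split the class of the exponent, test modulo `r`. -/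
inductive Stp where
  | K (g : ℕ) : Stp
  | C (g : ℕ) : Stp
  | T (r ρ ν : ℕ) : Stp

/-- The sieve. -/
def chk (T : List (ℕ × ℕ × Bool)) (p d : ℕ) : List Stp → ℕ → ℕ → ℕ → ℕ → Bool
  | [], _, _, _, _ => false
  | Stp.K g :: L, lam, k, mu, c =>
    (List.range g).all fun j => chk T p d L (lam * g) (k + lam * j) mu c
  | Stp.C g :: L, lam, k, mu, c =>
    (List.range g).all fun j => chk T p d L lam k (mu * g) (c + mu * j)
  | Stp.T r ρ ν :: L, lam, k, mu, c =>
    (lam % ρ == 0 && mu % ν == 0 && hor r (d * p ^ (c % ν) % r) (k % ρ) T 0 % r != 0) ||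
      chk T p d L lam k mu c

/-- A test is admissible. -/
def okT (s p : ℕ) : Stp → Bool
  | Stp.K g => decide (0 < g)
  | Stp.C g => decide (0 < g)
  | Stp.T r ρ ν => decide (s < r) && (List.range s).all (fun i => (i + 1) ^ ρ % r == 1) &&
      (p ^ ν % r == 1)

/-- The sieve is correct. -/
def T_CHK : Prop := ∀ (s p d : ℕ) (L : List Stp) (lam k mu c : ℕ), 2 ≤ s → 0 < lam → 0 < mu →
  L.all (okT s p) = true → chk (tbl s) p d L lam k mu c = true →
  ∀ K c' : ℕ, K ≡ k [MOD lam] → c' ≡ c [MOD mu] → G (d * p ^ c') s K ≠ 0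

end Pool.Agent.H33.SMP
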