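import Pool.Agent.H33.SMP.TG

/-!
# Finitely many `n`
-/

set_option autoImplicit false

namespace Pool.Agent.H33.SMP

open Pool.Agent.H33.SMS (G Det Crit)

/-- Primality by trial division. -/
def isP (p : ℕ) : Bool := decide (2 ≤ p) && (List.range p).all fun m => decide (m < 2) || p % m != 0

theorem isP_prime (p : ℕ) (h : isP p = true) : p.Prime := by
  simp only [isP, Bool.and_eq_true, decide_eq_true_eq, List.all_eq_true, List.mem_range,
    Bool.or_eq_true, bne_iff_ne, ne_eq] at h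
  rw [Nat.prime_def_lt']
  refine ⟨h.1, fun m h2 hm hd => ?_⟩
  rcases h.2 m hm with h3 | h3
  · omega
  · exact h3 (Nat.mod_eq_zero_of_dvd hd)

/-- The criterion with a table of entries `(M, m, lo, hi)`, `M = p ^ m`. -/
def kr (p v n : ℕ) (tb : List (ℕ × ℕ × ℕ × ℕ)) : Bool :=
  n % p ^ v == 0 && (n % p ^ (v + 1) != 0 &&
    tb.all fun x => decide (n % x.1 < x.2.2.1) || decide (x.2.2.2 < n % x.1))

/-- The table is correct. -/
def krok (s p v : ℕ) (tb : List (ℕ × ℕ × ℕ × ℕ)) : Bool :=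
  decide (1 ≤ v) && isP p && (s % p != 0) && (List.range (s - 1)).all fun i => tb.any fun x =>
    (x.1 == p ^ x.2.1) && decide (x.2.2.1 ≤ i + 1) && decide (i + 1 ≤ x.2.2.2) &&
      decide (i + 1 < x.1) && (p ^ v * (s - 1).descFactorial (i + 1) % x.1 == 0)

theorem kr_crit (s p v n : ℕ) (tb : List (ℕ × ℕ × ℕ × ℕ)) (hok : krok s p v tb = true)
    (hn : s < n) (h : kr p v n tb = true) : Crit p n s := by
  simp only [krok, Bool.and_eq_true, decide_eq_true_eq, bne_iff_ne, ne_eq, List.all_eq_true,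
    List.mem_range, List.any_eq_true, beq_iff_eq] at hok
  simp only [kr, Bool.and_eq_true, decide_eq_true_eq, bne_iff_ne, ne_eq, List.all_eq_true,
    Bool.or_eq_true, beq_iff_eq] at h
  obtain ⟨⟨⟨hv, hp⟩, hps⟩, htb⟩ := hok
  obtain ⟨h1, h2, h3⟩ := h
  have hpp := isP_prime p hp
  have := Fact.mk hpp
  have hd1 : p ^ v ∣ n := Nat.dvd_of_mod_eq_zero h1
  have hd2 : ¬ p ^ (v + 1) ∣ n := fun hd => h2 (Nat.mod_eq_zero_of_dvd hd)
  have hval : padicValNat p n = v := by
    have a1 : v ≤ padicValNat p n := (padicValNat_dvd_iff_le (by omega)).1 hd1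
    have a2 : ¬ v + 1 ≤ padicValNat p n := fun hh => hd2 ((padicValNat_dvd_iff_le (by omega)).2 hh)
    omega
  refine ⟨hpp, (dvd_pow_self p (by omega)).trans hd1, fun hd => hps (Nat.mod_eq_zero_of_dvd hd),
    fun i hi1 his => ?_⟩
  obtain ⟨x, hx, ⟨⟨⟨hx1, hx2⟩, hx3⟩, hx4⟩, hx5⟩ := htb (i - 1) (by omega)
  rw [show i - 1 + 1 = i by omega] at hx2 hx3 hx4 hx5
  have h4 := h3 x hx
  have h5 : ¬ x.1 ∣ n - i := by
    intro hd
    have h6 : i ≡ n [MOD x.1] := (Nat.modEq_iff_dvd' (by omega)).2 hd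
    have h7 : i % x.1 = n % x.1 := h6
    rw [Nat.mod_eq_of_lt hx4] at h7
    omega
  rw [hx1] at h5
  have h6 : padicValNat p (n - i) < x.2.1 := by
    by_contra hh
    exact h5 ((padicValNat_dvd_iff_le (by omega)).2 (by omega))
  have h7 : p ^ x.2.1 ∣ p ^ v * (s - 1).descFactorial i := by
    rw [← hx1]
    exact Nat.dvd_of_mod_eq_zero hx5
  have h8 : (s - 1).descFactorial i ≠ 0 := by
    rw [Ne, Nat.descFactorial_eq_zero_iff_lt]
    omega
  have h9 : x.2.1 ≤ padicValNat p (p ^ v * (s - 1).descFactorial i) :=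
    (padicValNat_dvd_iff_le (Nat.mul_ne_zero (pow_ne_zero _ hpp.ne_zero) h8)).1 h7
  rw [padicValNat.mul (pow_ne_zero _ hpp.ne_zero) h8, padicValNat.prime_pow] at h9
  omega

theorem kr_ne (s p v n : ℕ) (tb : List (ℕ × ℕ × ℕ × ℕ)) (hok : krok s p v tb = true)
    (hn : s < n) (h : kr p v n tb = true) (K : ℕ) : G n s K ≠ 0 :=
  cri p n s (kr_crit s p v n tb hok hn h) hn K

/-- Enumeration of the divisors. -/
def enu : List (ℕ × ℕ) → ℕ → (ℕ → Bool) → Bool
  | [], n, f => f n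
  | x :: L, n, f => (List.range (x.2 + 1)).all fun v => enu L (n * x.1 ^ v) f

theorem enu_ok (f : ℕ → Bool) : ∀ (L : List (ℕ × ℕ)) (a n : ℕ), (∀ x ∈ L, x.1.Prime) →
    enu L a f = true → n ∣ (L.map fun x => x.1 ^ x.2).prod → f (a * n) = true := by
  intro L
  induction L with
  | nil =>
    intro a n _ h hn
    simp only [List.map_nil, List.prod_nil, Nat.dvd_one] at hn
    subst hn
    simpa [enu] using h
  | cons x L ih =>
    intro a n hL h hn
    simp only [List.map_cons, List.prod_cons] at hn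
    obtain ⟨y, z, hy, hz, rfl⟩ := (Nat.dvd_mul).1 hn
    obtain ⟨v, hv, rfl⟩ := (Nat.dvd_prime_pow (hL x (by simp))).1 hy
    simp only [enu, List.all_eq_true, List.mem_range] at h
    have h1 := ih (a * x.1 ^ v) z (fun x hx => hL x (by simp [hx])) (h v (by omega)) hz
    rw [← mul_assoc]
    exact h1

/-- One `n`. -/
def leaf (s : ℕ) (T : List (ℕ × ℕ × List (ℕ × ℕ × ℕ × ℕ))) (E : List ℕ) (n : ℕ) : Bool :=
  decide (n ≤ 2 * s) || (T.any fun x => kr x.1 x.2.1 n x.2.2) || E.contains n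

theorem leaf_ne (s n f : ℕ) (T : List (ℕ × ℕ × List (ℕ × ℕ × ℕ × ℕ))) (E : List ℕ)
    (hs : 2 ≤ s) (hr : s < 1000003) (hT : (T.all fun x => krok s x.1 x.2.1 x.2.2) = true)
    (hE : (E.all fun n => fin1 1000003 s n (fun _ _ => false) f 0) = true) (hn : 2 * s < n)
    (h : leaf s T E n = true) (K : ℕ) : G n s K ≠ 0 := by
  simp only [leaf, Bool.or_eq_true, decide_eq_true_eq, List.any_eq_true,
    List.contains_iff_mem] at h
  rw [List.all_eq_true] at hT hE
  rcases h with (h | ⟨x, hx, h⟩) | h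
  · omega
  · exact kr_ne s x.1 x.2.1 n x.2.2 (hT x hx) (by omega) h K
  · exact fin_one 1000003 s n _ hs hr f 0 (hE n h) K (Nat.zero_le _) rfl

/-- The lcm of the odd numbers below `s`. -/
def oddLcm (s : ℕ) : ℕ := ((Finset.range s).filter Odd).lcm id

theorem tg_lcm (e n K : ℕ) (he : 3 ≤ e) (hn : 2 ^ e < n) (hG : G n (2 ^ e) K = 0) :
    n ∣ 2 ^ (3 * e - 3) * oddLcm (2 ^ e) := by
  rw [Nat.dvd_iff_prime_pow_dvd_dvd]
  intro p k hp hk
  rcases Nat.eq_zero_or_pos k with h0 | h0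
  · subst h0
    simp
  rcases eq_or_ne p 2 with rfl | h2
  · refine (pow_dvd_pow 2 ?_).trans (dvd_mul_right _ _)
    by_contra h
    exact tg_pow e n K he (lt_of_le_of_lt (Nat.zero_le _) hn) hG
      ((pow_dvd_pow 2 (by omega)).trans hk)
  · have hps : ¬ p ∣ 2 ^ e := fun h => h2 ((Nat.prime_dvd_prime_iff_eq hp Nat.prime_two).1
      (hp.dvd_of_dvd_pow h))
    have h3 : p ^ k < 2 ^ e := by
      by_contra h
      exact tg_prime p k n (2 ^ e) hp hps hn hk Nat.one_le_two_pow (by omega) K hG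
    refine Dvd.dvd.mul_left ?_ _
    have : p ^ k ∈ (Finset.range (2 ^ e)).filter Odd := by
      simp only [Finset.mem_filter, Finset.mem_range]
      exact ⟨h3, (hp.odd_of_ne_two h2).pow⟩
    exact Finset.dvd_lcm this

end Pool.Agent.H33.SMP
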