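import Pool.Agent.H33.SMP.Defs

/-!
# The size of the zeros
-/

set_option autoImplicit false

namespace Pool.Agent.H33.SMP

open Pool.Agent.H33.SMS (G)

theorem sz_alt (m : ℕ) : ∀ b : ℕ → ℤ, (∀ i, 0 ≤ b i) → (∀ i, i + 1 ≤ m → b (i + 1) ≤ b i) →
    0 ≤ ∑ i ∈ Finset.range (m + 1), (-1) ^ i * b i ∧
      ∑ i ∈ Finset.range (m + 1), (-1) ^ i * b i ≤ b 0 := by
  induction m with
  | zero => intro b hb _; simp [hb 0]
  | succ m ih =>
    intro b hb hm
    rw [Finset.sum_range_succ']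
    have h := ih (fun i => b (i + 1)) (fun i => hb _) (fun i hi => hm (i + 1) (by omega))
    have e : ∑ i ∈ Finset.range (m + 1), (-1) ^ (i + 1) * b (i + 1) =
        -∑ i ∈ Finset.range (m + 1), (-1) ^ i * b (i + 1) := by
      rw [← Finset.sum_neg_distrib]
      apply Finset.sum_congr rfl
      intro i _
      rw [pow_succ]
      ring
    rw [e]
    have h1 := hm 0 (by omega)
    simp only [zero_add] at h h1
    rw [pow_zero, one_mul]
    constructor
    · linarith [h.1, h.2]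
    · linarith [h.1, h.2]

theorem sz_step (s n K i : ℕ) (h : (s - 1) * 2 ^ K + s ≤ n) (hi : i + 1 < s) :
    (i + 2) ^ K * n.choose (s - 1 - (i + 1)) < (i + 1) ^ K * n.choose (s - 1 - i) := by
  obtain ⟨j, hj⟩ : ∃ j, s - 1 - i = j + 1 := ⟨s - 1 - i - 1, by omega⟩
  have hj' : s - 1 - (i + 1) = j := by omega
  rw [hj, hj']
  have h0 : 0 < n.choose j := Nat.choose_pos (by
    have : 0 ≤ (s - 1) * 2 ^ K := Nat.zero_le _
    omega)
  have h1 : n.choose (j + 1) * (j + 1) = n.choose j * (n - j) := Nat.choose_succ_right_eq n j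
  have h2 : (i + 2) ^ K ≤ 2 ^ K * (i + 1) ^ K := by
    rw [← mul_pow]
    exact Nat.pow_le_pow_left (by omega) K
  have h3 : 2 ^ K * (j + 1) < n - j := by
    have : 2 ^ K * (j + 1) ≤ (s - 1) * 2 ^ K := by
      rw [mul_comm]
      exact Nat.mul_le_mul_right _ (by omega)
    omega
  have h4 : 0 < (i + 1) ^ K := by positivity
  have h5 : (i + 2) ^ K * n.choose j * (j + 1) < (i + 1) ^ K * n.choose (j + 1) * (j + 1) := by
    calc (i + 2) ^ K * n.choose j * (j + 1) ≤ 2 ^ K * (i + 1) ^ K * n.choose j * (j + 1) := by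
          gcongr
      _ = (i + 1) ^ K * n.choose j * (2 ^ K * (j + 1)) := by ring
      _ < (i + 1) ^ K * n.choose j * (n - j) := by
          apply Nat.mul_lt_mul_of_pos_left h3
          positivity
      _ = (i + 1) ^ K * n.choose (j + 1) * (j + 1) := by
          rw [mul_assoc, ← h1, mul_assoc]
  exact lt_of_mul_lt_mul_right h5 (Nat.zero_le _)

theorem pf_UP : T_UP := by
  intro s n K hs h
  obtain ⟨m, rfl⟩ : ∃ m, s = m + 2 := ⟨s - 2, by omega⟩
  have hb : ∀ i, i + 1 ≤ m + 1 → (((i + 1 + 1 : ℕ) ^ K * n.choose (m + 2 - 1 - (i + 1)) : ℕ) : ℤ) <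
      (((i + 1 : ℕ) ^ K * n.choose (m + 2 - 1 - i) : ℕ) : ℤ) := by
    intro i hi
    exact_mod_cast sz_step (m + 2) n K i h (by omega)
  let b : ℕ → ℤ := fun i => (((i + 1 : ℕ) ^ K * n.choose (m + 2 - 1 - i) : ℕ) : ℤ)
  have e : G n (m + 2) K = ∑ i ∈ Finset.range (m + 1 + 1), (-1) ^ i * b i := by
    unfold G
    apply Finset.sum_congr rfl
    intro i _
    simp only [b]
    push_cast
    ring
  have h1 := sz_alt m (fun i => b (i + 1)) (fun i => by simp only [b]; positivity)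
    (fun i hi => (hb (i + 1) (by omega)).le)
  have h2 : b 1 < b 0 := hb 0 (by omega)
  rw [e, Finset.sum_range_succ']
  have e2 : ∑ i ∈ Finset.range (m + 1), (-1) ^ (i + 1) * b (i + 1) =
      -∑ i ∈ Finset.range (m + 1), (-1) ^ i * b (i + 1) := by
    rw [← Finset.sum_neg_distrib]
    apply Finset.sum_congr rfl
    intro i _
    rw [pow_succ]
    ring
  rw [e2]
  have h3 := h1.2
  simp only [zero_add] at h3
  rw [pow_zero, one_mul]
  intro h4
  linarith

theorem sz_pow (s n K : ℕ) (hs : 2 ≤ s) (h : 2 * n * (s - 1) ^ K < s ^ K) :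
    ∀ j, j < s → (2 * n) ^ j * (s - j) ^ K ≤ s ^ K := by
  intro j
  induction j with
  | zero => intro _; simp
  | succ j ih =>
    intro hj
    have h1 := ih (by omega)
    have hsK : 0 < s ^ K := by positivity
    have h2 : (s - (j + 1)) * s ≤ (s - j) * (s - 1) := by
      obtain ⟨a, rfl⟩ : ∃ a, s = a + j + 1 := ⟨s - j - 1, by omega⟩
      have e1 : a + j + 1 - (j + 1) = a := by omega
      have e2 : a + j + 1 - j = a + 1 := by omega
      have e3 : a + j + 1 - 1 = a + j := by omega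
      rw [e1, e2, e3]
      nlinarith
    have h3 : (2 * n) ^ (j + 1) * (s - (j + 1)) ^ K * s ^ K ≤ s ^ K * s ^ K := by
      calc (2 * n) ^ (j + 1) * (s - (j + 1)) ^ K * s ^ K
          = (2 * n) ^ (j + 1) * ((s - (j + 1)) * s) ^ K := by rw [mul_pow]; ring
        _ ≤ (2 * n) ^ (j + 1) * ((s - j) * (s - 1)) ^ K := by gcongr
        _ = ((2 * n) ^ j * (s - j) ^ K) * (2 * n * (s - 1) ^ K) := by rw [mul_pow, pow_succ]; ring
        _ ≤ s ^ K * s ^ K := Nat.mul_le_mul h1 h.le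
    exact le_of_mul_le_mul_right h3 hsK

theorem pf_LO : T_LO := by
  intro s n K hs h hG
  have hp := sz_pow s n K hs h
  obtain ⟨m, rfl⟩ : ∃ m, s = m + 1 := ⟨s - 1, by omega⟩
  -- the last term dominates
  have hb : ∀ i ∈ Finset.range m, (((i : ℝ) + 1) ^ K * (n.choose (m + 1 - 1 - i) : ℝ)) ≤
      ((m + 1 : ℕ) : ℝ) ^ K * (1 / 2) ^ (m - i) := by
    intro i hi
    have hi' : i < m := Finset.mem_range.1 hi
    have h1 := hp (m - i) (by omega)
    have e1 : m + 1 - (m - i) = i + 1 := by omega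
    have e2 : m + 1 - 1 - i = m - i := by omega
    rw [e1] at h1
    rw [e2]
    have h2 : (n.choose (m - i)) ≤ n ^ (m - i) := Nat.choose_le_pow n (m - i)
    have h3 : 2 ^ (m - i) * ((i + 1) ^ K * n.choose (m - i)) ≤ (m + 1) ^ K := by
      calc 2 ^ (m - i) * ((i + 1) ^ K * n.choose (m - i))
          ≤ 2 ^ (m - i) * ((i + 1) ^ K * n ^ (m - i)) := by gcongr
        _ = (2 * n) ^ (m - i) * (i + 1) ^ K := by rw [mul_pow]; ring
        _ ≤ (m + 1) ^ K := h1
    have h4 : (2 : ℝ) ^ (m - i) * (((i : ℝ) + 1) ^ K * (n.choose (m - i) : ℝ)) ≤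
        ((m + 1 : ℕ) : ℝ) ^ K := by exact_mod_cast h3
    have h5 : (0 : ℝ) < 2 ^ (m - i) := by positivity
    rw [one_div, inv_pow, ← div_eq_mul_inv, le_div_iff₀ h5]
    linarith
  have hsum : ∑ i ∈ Finset.range m, (((i : ℝ) + 1) ^ K * (n.choose (m + 1 - 1 - i) : ℝ)) <
      ((m + 1 : ℕ) : ℝ) ^ K := by
    refine lt_of_le_of_lt (Finset.sum_le_sum hb) ?_
    rw [← Finset.mul_sum]
    have h6 : ∑ i ∈ Finset.range m, (1 / 2 : ℝ) ^ (m - i) = 1 - (1 / 2) ^ m := by
      clear hb hp hG h hs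
      induction m with
      | zero => simp
      | succ m ih =>
        rw [Finset.sum_range_succ']
        have e : ∑ i ∈ Finset.range m, (1 / 2 : ℝ) ^ (m + 1 - (i + 1)) =
            ∑ i ∈ Finset.range m, (1 / 2 : ℝ) ^ (m - i) := by
          apply Finset.sum_congr rfl
          intro i _
          have : m + 1 - (i + 1) = m - i := by omega
          rw [this]
        rw [e, ih]
        rw [Nat.sub_zero, pow_succ]
        ring
    rw [h6]
    have h7 : (0 : ℝ) < (1 / 2) ^ m := by positivity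
    have h8 : (0 : ℝ) < ((m + 1 : ℕ) : ℝ) ^ K := by positivity
    nlinarith
  have hG' : ((G n (m + 1) K : ℤ) : ℝ) = 0 := by rw [hG]; simp
  unfold G at hG'
  rw [Finset.sum_range_succ] at hG'
  push_cast at hG'
  rw [Nat.sub_self, Nat.choose_zero_right] at hG'
  simp only [Nat.add_sub_cancel] at hsum
  have h9 : |∑ i ∈ Finset.range m, (-1 : ℝ) ^ i * ((i : ℝ) + 1) ^ K *
      (n.choose (m - i) : ℝ)| ≤
      ∑ i ∈ Finset.range m, (((i : ℝ) + 1) ^ K * (n.choose (m - i) : ℝ)) := by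
    refine (Finset.abs_sum_le_sum_abs _ _).trans (le_of_eq ?_)
    apply Finset.sum_congr rfl
    intro i _
    rw [mul_assoc, abs_mul, abs_pow, abs_neg, abs_one, one_pow, one_mul, abs_of_nonneg]
    positivity
  have h10 : ∑ i ∈ Finset.range m, (-1 : ℝ) ^ i * ((i : ℝ) + 1) ^ K *
      (n.choose (m - i) : ℝ) = -((-1) ^ m * ((m : ℝ) + 1) ^ K) := by
    have := hG'
    push_cast at this
    linarith
  rw [h10, abs_neg, abs_mul, abs_pow, abs_neg, abs_one, one_pow, one_mul,
    abs_of_nonneg (by positivity)] at h9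
  have h11 := lt_of_le_of_lt h9 hsum
  push_cast at h11
  exact lt_irrefl _ h11

end Pool.Agent.H33.SMP
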