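import Pool.Agent.H33.SMP.Defs

/-!
# The congruence for a zero
-/

set_option autoImplicit false

namespace Pool.Agent.H33.SMP

open Pool.Agent.H33.SMS (G)

theorem yc_vj (q j l t : ℕ) (x : ℤ) (hq : q.Prime) (hj : ¬ q ^ (l + 1) ∣ j)
    (h : (q : ℤ) ^ (l + t) ∣ (j : ℤ) * x) : (q : ℤ) ^ t ∣ x := by
  have hj0 : j ≠ 0 := by
    rintro rfl
    exact hj (dvd_zero _)
  obtain ⟨v, j', hj', rfl⟩ := Nat.exists_eq_pow_mul_and_not_dvd hj0 q hq.ne_one
  have hv : v ≤ l := by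
    by_contra hv
    exact hj ((pow_dvd_pow q (by omega)).trans (dvd_mul_right _ _))
  have hqz : Prime (q : ℤ) := Nat.prime_iff_prime_int.1 hq
  have h0 : (q : ℤ) ^ v ≠ 0 := pow_ne_zero _ hqz.ne_zero
  have h1 : (q : ℤ) ^ (l + t) = (q : ℤ) ^ v * (q : ℤ) ^ (l - v + t) := by
    rw [← pow_add]
    congr 1
    omega
  rw [h1] at h
  push_cast at h
  rw [mul_assoc] at h
  have h2 := (mul_dvd_mul_iff_left h0).1 h
  have h3 : ¬ (q : ℤ) ∣ (j' : ℤ) := by
    intro h4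
    exact hj' (by exact_mod_cast h4)
  have h5 := hqz.pow_dvd_of_dvd_mul_left _ h3 h2
  exact (pow_dvd_pow _ (by omega)).trans h5

/-- The alternating binomial coefficients. -/
def ycu (n j : ℕ) : ℤ := (-1) ^ j * ((n - 1).choose j : ℤ)

theorem yc_rec (n j : ℕ) (hn : 1 ≤ n) :
    ((j + 1 : ℕ) : ℤ) * (ycu n (j + 1) - ycu n j) = -((n : ℤ) * ycu n j) := by
  unfold ycu
  have h := Nat.choose_succ_right_eq (n - 1) j
  rcases Nat.lt_or_ge (n - 1) j with h1 | h1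
  · rw [Nat.choose_eq_zero_of_lt h1, Nat.choose_eq_zero_of_lt (by omega)]
    simp
  · have h2 : ((n - 1).choose (j + 1) : ℤ) * ((j : ℤ) + 1) =
        ((n - 1).choose j : ℤ) * ((n : ℤ) - 1 - j) := by
      have h3 : ((n - 1 - j : ℕ) : ℤ) = (n : ℤ) - 1 - j := by omega
      rw [← h3]
      exact_mod_cast h
    rw [pow_succ]
    push_cast
    linear_combination (-(-1) ^ j : ℤ) * h2

theorem yc_u (q l t n : ℕ) (hq : q.Prime) (hn : 1 ≤ n) (h : q ^ (l + t) ∣ n) :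
    ∀ j, j < q ^ (l + 1) → (q : ℤ) ^ t ∣ ycu n j - 1 := by
  intro j
  induction j with
  | zero => intro _; simp [ycu]
  | succ j ih =>
    intro hj
    have h1 := ih (by omega)
    have h2 : (q : ℤ) ^ t ∣ ycu n (j + 1) - ycu n j := by
      apply yc_vj q (j + 1) l t _ hq
      · intro h3
        have := Nat.le_of_dvd (by omega) h3
        omega
      · rw [yc_rec n j hn]
        have h4 : ((q : ℤ) ^ (l + t)) ∣ (n : ℤ) := by exact_mod_cast h
        exact (h4.mul_right _).neg_right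
    have h5 : ycu n (j + 1) - 1 = (ycu n (j + 1) - ycu n j) + (ycu n j - 1) := by ring
    rw [h5]
    exact dvd_add h2 h1

theorem yc_icc (m : ℕ) (f : ℕ → ℤ) :
    ∑ j ∈ Finset.Icc 1 m, f j = ∑ i ∈ Finset.range m, f (i + 1) := by
  induction m with
  | zero => simp
  | succ m ih => rw [Finset.sum_Icc_succ_top (by omega), Finset.sum_range_succ, ih]

theorem yc_main (s n K : ℕ) (hs : 2 ≤ s) (hn : 1 ≤ n) (hG : G n s K = 0) :
    (n : ℤ) * ∑ i ∈ Finset.range (s - 1), ((((s - 1).factorial / (i + 1) : ℕ) : ℤ) *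
      ((s - (i + 1) : ℕ) : ℤ) ^ K * ycu n i) = ((s - 1).factorial : ℤ) * (s : ℤ) ^ K := by
  unfold G at hG
  rw [← Finset.sum_range_reflect (fun i : ℕ => (-1 : ℤ) ^ i * ((i : ℤ) + 1) ^ K *
    (n.choose (s - 1 - i) : ℤ)) s] at hG
  obtain ⟨m, rfl⟩ : ∃ m, s = m + 1 := ⟨s - 1, by omega⟩
  rw [Finset.sum_range_succ'] at hG
  have e0 : m + 1 - 1 - (m + 1 - 1 - 0) = 0 := by omega
  rw [e0, Nat.choose_zero_right] at hG
  have e1 : ∀ i ∈ Finset.range m, ((m.factorial : ℤ)) * ((-1 : ℤ) ^ (m + 1 - 1 - (i + 1)) *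
      (((m + 1 - 1 - (i + 1) : ℕ) : ℤ) + 1) ^ K *
      (n.choose (m + 1 - 1 - (m + 1 - 1 - (i + 1))) : ℤ)) =
      -((-1) ^ m * ((n : ℤ) * ((((m.factorial / (i + 1) : ℕ) : ℤ) *
      ((m + 1 - (i + 1) : ℕ) : ℤ) ^ K * ycu n i)))) := by
    intro i hi
    have hi' : i < m := Finset.mem_range.1 hi
    have f1 : m + 1 - 1 - (m + 1 - 1 - (i + 1)) = i + 1 := by omega
    have f2 : ((m + 1 - 1 - (i + 1) : ℕ) : ℤ) + 1 = ((m + 1 - (i + 1) : ℕ) : ℤ) := by omega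
    have f3 : m + 1 - 1 - (i + 1) = m - (i + 1) := by omega
    rw [f1, f2, f3]
    have f4 : ((m.factorial / (i + 1) : ℕ) : ℤ) * ((i + 1 : ℕ) : ℤ) = (m.factorial : ℤ) := by
      rw [← Nat.cast_mul, Nat.div_mul_cancel (Nat.dvd_factorial (by omega) (by omega))]
    have f5 : ((i + 1 : ℕ) : ℤ) * (n.choose (i + 1) : ℤ) = (n : ℤ) * ((n - 1).choose i : ℤ) := by
      have := Nat.add_one_mul_choose_eq (n - 1) i
      have e : n - 1 + 1 = n := by omega
      simp only [e] at this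
      rw [mul_comm]
      exact_mod_cast this.symm
    have f6 : (-1 : ℤ) ^ (m - (i + 1)) = -((-1) ^ m * (-1) ^ i) := by
      have : (-1 : ℤ) ^ m = (-1) ^ (m - (i + 1)) * (-1) ^ (i + 1) := by
        rw [← pow_add]
        congr 1
        omega
      rw [this]
      have h2 : ((-1 : ℤ) ^ (i + 1)) * (-1) ^ i = -1 := by
        rw [← pow_add]
        have : i + 1 + i = 2 * i + 1 := by ring
        rw [this, pow_succ, pow_mul]
        simp
      linear_combination ((-1 : ℤ) ^ (m - (i + 1))) * h2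
    rw [f6]
    unfold ycu
    linear_combination (-(-1) ^ m * (-1) ^ i * ((m + 1 - (i + 1) : ℕ) : ℤ) ^ K) *
      (((m.factorial / (i + 1) : ℕ) : ℤ) * f5 - (n.choose (i + 1) : ℤ) * f4)
  have h1 : ((m.factorial : ℤ)) * (∑ i ∈ Finset.range m, ((-1 : ℤ) ^ (m + 1 - 1 - (i + 1)) *
      (((m + 1 - 1 - (i + 1) : ℕ) : ℤ) + 1) ^ K *
      (n.choose (m + 1 - 1 - (m + 1 - 1 - (i + 1))) : ℤ))) =
      -((-1) ^ m * ((n : ℤ) * ∑ i ∈ Finset.range m, ((((m.factorial / (i + 1) : ℕ) : ℤ) *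
      ((m + 1 - (i + 1) : ℕ) : ℤ) ^ K * ycu n i)))) := by
    rw [Finset.mul_sum, Finset.sum_congr rfl e1, Finset.sum_neg_distrib, ← Finset.mul_sum,
      ← Finset.mul_sum]
  have h2 : ((m + 1 - 1 - 0 : ℕ) : ℤ) + 1 = ((m + 1 : ℕ) : ℤ) := by push_cast; omega
  have h3 : m + 1 - 1 - 0 = m := by omega
  rw [h2, h3] at hG
  have h4 : m + 1 - 1 = m := by omega
  rw [h4]
  have h5 : ((-1 : ℤ) ^ m) ^ 2 = 1 := by
    rw [← pow_mul, mul_comm, pow_mul]
    simp
  have h6 := congrArg (fun z : ℤ => (m.factorial : ℤ) * z) hG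
  simp only [mul_add, mul_zero] at h6
  rw [h1] at h6
  generalize (∑ i ∈ Finset.range m, ((((m.factorial / (i + 1) : ℕ) : ℤ) *
      ((m + 1 - (i + 1) : ℕ) : ℤ) ^ K * ycu n i))) = S at h6 ⊢
  rw [Nat.cast_one, mul_one] at h6
  generalize ((m + 1 : ℕ) : ℤ) ^ K = Z at h6 ⊢
  linear_combination (-(-1) ^ m : ℤ) * h6 + ((m.factorial : ℤ) * Z - (n : ℤ) * S) * h5

theorem pf_YC : T_YC := by
  intro q φ l t s n K hq hqs hφ hsl hlK hn hs hqn hG
  refine ⟨_, yc_main s n K hs hn hG, ?_⟩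
  have hLL : ((LL s K : ℕ) : ℤ) = ∑ i ∈ Finset.range (s - 1),
      ((((s - 1).factorial / (i + 1) : ℕ) : ℤ) * ((s - (i + 1) : ℕ) : ℤ) ^ K) := by
    unfold LL
    push_cast
    rw [yc_icc (s - 1) (fun j => (((s - 1).factorial : ℤ) / (j : ℤ)) * ((s - j : ℕ) : ℤ) ^ K)]
    apply Finset.sum_congr rfl
    intro i _
    push_cast
    rfl
  rw [hLL, ← Finset.sum_sub_distrib]
  apply Finset.dvd_sum
  intro i hi
  have hi' : i < s - 1 := Finset.mem_range.1 hi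
  have e : (((s - 1).factorial / (i + 1) : ℕ) : ℤ) * ((s - (i + 1) : ℕ) : ℤ) ^ K * ycu n i -
      (((s - 1).factorial / (i + 1) : ℕ) : ℤ) * ((s - (i + 1) : ℕ) : ℤ) ^ K =
      (((s - 1).factorial / (i + 1) : ℕ) : ℤ) * ((s - (i + 1) : ℕ) : ℤ) ^ K *
        (ycu n i - 1) := by ring
  rw [e]
  have hu := yc_u q l t n hq hn hqn i (by omega)
  have hfac : ((i + 1 : ℕ) : ℤ) * (((s - 1).factorial / (i + 1) : ℕ) : ℤ) =
      ((s - 1).factorial : ℤ) := by
    rw [← Nat.cast_mul, Nat.mul_div_cancel' (Nat.dvd_factorial (by omega) (by omega))]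
  have hφ' : (q : ℤ) ^ φ ∣ ((i + 1 : ℕ) : ℤ) * (((s - 1).factorial / (i + 1) : ℕ) : ℤ) := by
    rw [hfac]
    exact_mod_cast hφ
  by_cases hqi : q ∣ (i + 1)
  · -- both factors are divisible
    have h1 : (q : ℤ) ^ (φ - l) ∣ (((s - 1).factorial / (i + 1) : ℕ) : ℤ) := by
      rcases Nat.lt_or_ge l φ with h | h
      · apply yc_vj q (i + 1) l (φ - l) _ hq
        · intro h3
          have := Nat.le_of_dvd (by omega) h3
          omega
        · have e2 : l + (φ - l) = φ := by omega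
          rw [e2]
          exact hφ'
      · have e2 : φ - l = 0 := by omega
        rw [e2, pow_zero]
        exact one_dvd _
    have h2 : (q : ℤ) ^ l ∣ ((s - (i + 1) : ℕ) : ℤ) ^ K := by
      have h3 : (q : ℤ) ∣ ((s - (i + 1) : ℕ) : ℤ) := by
        exact_mod_cast Nat.dvd_sub hqs hqi
      exact (pow_dvd_pow _ hlK).trans (pow_dvd_pow_of_dvd h3 K)
    have h4 := mul_dvd_mul (mul_dvd_mul h1 h2) hu
    rw [← pow_add, ← pow_add] at h4
    exact (pow_dvd_pow (q : ℤ) (by omega : φ + t ≤ φ - l + l + t)).trans h4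
  · have h1 : (q : ℤ) ^ φ ∣ (((s - 1).factorial / (i + 1) : ℕ) : ℤ) := by
      have hqz : Prime (q : ℤ) := Nat.prime_iff_prime_int.1 hq
      refine hqz.pow_dvd_of_dvd_mul_left φ ?_ hφ'
      intro h4
      exact hqi (by exact_mod_cast h4)
    rw [pow_add]
    exact mul_dvd_mul (h1.mul_right _) hu

/-- The dichotomy. -/
theorem yc_dich (q e φ l t s n K : ℕ) (hq : q.Prime) (he : 1 ≤ e) (hqs : q ^ e ∣ s)
    (hφ : q ^ φ ∣ (s - 1).factorial) (hsl : s ≤ q ^ (l + 1)) (hlK : l ≤ K) (hn : 1 ≤ n)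
    (hs : 2 ≤ s) (hqn : q ^ (l + t) ∣ n) (hL : ¬ q ^ (φ + t) ∣ LL s K) (hG : G n s K = 0) :
    q ^ (e * K + 1) ∣ n * q ^ t := by
  have hqs1 : q ∣ s := (dvd_pow_self q (by omega)).trans hqs
  obtain ⟨Y, hY1, hY2⟩ := pf_YC q φ l t s n K hq hqs1 hφ hsl hlK hn hs hqn hG
  have hqz : Prime (q : ℤ) := Nat.prime_iff_prime_int.1 hq
  have hYn : ¬ (q : ℤ) ^ (φ + t) ∣ Y := by
    intro h
    apply hL
    have h2 := dvd_sub h hY2
    rw [sub_sub_cancel] at h2
    exact_mod_cast h2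
  have hY0 : Y.natAbs ≠ 0 := by
    intro h
    rw [Int.natAbs_eq_zero] at h
    exact hYn (h ▸ dvd_zero _)
  -- write Y as a power times a unit
  obtain ⟨v, y, hy, hvy⟩ := Nat.exists_eq_pow_mul_and_not_dvd hY0 q hq.ne_one
  have hv : v < φ + t := by
    by_contra hv
    apply hYn
    rw [← Int.natAbs_dvd_natAbs, Int.natAbs_pow, Int.natAbs_natCast, hvy]
    exact (pow_dvd_pow q (by omega)).trans (dvd_mul_right _ _)
  have h1 : n * (q ^ v * y) = (s - 1).factorial * s ^ K := by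
    rw [← hvy]
    have := congrArg Int.natAbs hY1
    rw [Int.natAbs_mul, Int.natAbs_mul, Int.natAbs_pow] at this
    simpa using this
  have h2 : q ^ (φ + e * K) ∣ n * (q ^ v * y) := by
    rw [h1, pow_add, pow_mul]
    exact mul_dvd_mul hφ (pow_dvd_pow_of_dvd hqs K)
  have h3 : q ^ (φ + e * K) ∣ n * q ^ v := by
    have h4 : q ^ (φ + e * K) ∣ y * (n * q ^ v) := by
      have : y * (n * q ^ v) = n * (q ^ v * y) := by ring
      rw [this]
      exact h2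
    exact (Nat.Coprime.pow_left _ ((Nat.Prime.coprime_iff_not_dvd hq).2 hy)).dvd_of_dvd_mul_left h4
  have h5 : q ^ (φ + e * K) * q ^ (φ + t - v) ∣ n * q ^ v * q ^ (φ + t - v) :=
    mul_dvd_mul_right h3 _
  have h6 : n * q ^ v * q ^ (φ + t - v) = q ^ φ * (n * q ^ t) := by
    rw [mul_assoc, ← pow_add]
    have : v + (φ + t - v) = φ + t := by omega
    rw [this, pow_add]
    ring
  rw [h6, ← pow_add] at h5
  have h7 : q ^ φ * q ^ (e * K + 1) ∣ q ^ φ * (n * q ^ t) := by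
    rw [← pow_add]
    exact (pow_dvd_pow q (by omega)).trans h5
  exact (Nat.mul_dvd_mul_iff_left (pow_pos hq.pos φ)).1 h7

end Pool.Agent.H33.SMP
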