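import Pool.Agent.H33.SMP.CHK
import Pool.Agent.H33.SMP.SZ
import Pool.Agent.H33.SMP.YC

/-!
# Finite checks
-/

set_option autoImplicit false

namespace Pool.Agent.H33.SMP

open Pool.Agent.H33.SMS (G)

/-- All `K` for one `n`. -/
def fin1 (r s n : ℕ) (ex : ℕ → ℕ → Bool) : ℕ → ℕ → Bool
  | 0, _ => false
  | f + 1, K => decide (2 * n * (s - 1) ^ K < s ^ K) ||
      ((hor r (n % r) K (tbl s) 0 % r != 0 || ex n K) && fin1 r s n ex f (K + 1))

theorem fin_ne (r s n K : ℕ) (hr : s < r) (h : hor r (n % r) K (tbl s) 0 % r ≠ 0) :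
    G n s K ≠ 0 := by
  intro hG
  apply h
  have e := chk_hor_G s r (n % r) K n K hr (Nat.mod_modEq _ _) (fun i _ _ => rfl)
  rw [hG, mul_zero, Int.cast_zero] at e
  exact Nat.mod_eq_zero_of_dvd ((ZMod.natCast_eq_zero_iff _ _).1 e)

theorem fin_mono (s n K K' : ℕ) (hs : 2 ≤ s) (hK : K ≤ K')
    (h : 2 * n * (s - 1) ^ K < s ^ K) : 2 * n * (s - 1) ^ K' < s ^ K' := by
  obtain ⟨x, rfl⟩ := Nat.exists_eq_add_of_le hK
  rw [pow_add, pow_add]
  calc 2 * n * ((s - 1) ^ K * (s - 1) ^ x) = (2 * n * (s - 1) ^ K) * (s - 1) ^ x := by ring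
    _ ≤ (2 * n * (s - 1) ^ K) * s ^ x := by gcongr; omega
    _ < s ^ K * s ^ x := by
      apply Nat.mul_lt_mul_of_pos_right h
      positivity

theorem fin_one (r s n : ℕ) (ex : ℕ → ℕ → Bool) (hs : 2 ≤ s) (hr : s < r) :
    ∀ f K0, fin1 r s n ex f K0 = true → ∀ K, K0 ≤ K → ex n K = false → G n s K ≠ 0 := by
  intro f
  induction f with
  | zero => intro K0 h; simp [fin1] at h
  | succ f ih =>
    intro K0 h K hK hex
    simp only [fin1, Bool.or_eq_true, decide_eq_true_eq, Bool.and_eq_true, bne_iff_ne, ne_eq] at h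
    rcases h with h | ⟨h1, h2⟩
    · exact pf_LO s n K hs (fin_mono s n K0 K hs hK h)
    · rcases Nat.eq_or_lt_of_le hK with h3 | h3
      · rcases h1 with h1 | h1
        · rw [← h3]
          exact fin_ne r s n K0 hr h1
        · rw [h3, hex] at h1
          exact absurd h1 (by simp)
      · exact ih (K0 + 1) h2 K h3 hex

/-- All `n` of the form `d * q ^ c`. -/
def fin2 (r s q : ℕ) (f C : ℕ) (D : List ℕ) (ex : ℕ → ℕ → Bool) : Bool :=
  (List.range C).all fun c => D.all fun d =>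
    decide (d * q ^ c ≤ 2 * s) || fin1 r s (d * q ^ c) ex f 0

theorem fin_two (r s q f C : ℕ) (D : List ℕ) (ex : ℕ → ℕ → Bool) (hs : 2 ≤ s) (hr : s < r)
    (h : fin2 r s q f C D ex = true) (c d : ℕ) (hc : c < C) (hd : d ∈ D)
    (hn : 2 * s < d * q ^ c) (K : ℕ) (hex : ex (d * q ^ c) K = false) : G (d * q ^ c) s K ≠ 0 := by
  simp only [fin2, List.all_eq_true, List.mem_range, Bool.or_eq_true, decide_eq_true_eq] at h
  rcases h c hc d hd with h1 | h1
  · omega
  · exact fin_one r s _ ex hs hr f 0 h1 K (Nat.zero_le _) hex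

/-- All `n` for the small `K`. -/
def fin3 (r s K0 : ℕ) (ex : ℕ → ℕ → Bool) : Bool :=
  (List.range K0).all fun K => (List.range ((s - 1) * 2 ^ K + s)).all fun n =>
    decide (n ≤ 2 * s) || ((s - 1).factorial * s ^ K % n != 0) || ex n K ||
      (hor r (n % r) K (tbl s) 0 % r != 0)

theorem fin_three (r s K0 : ℕ) (ex : ℕ → ℕ → Bool) (hs : 2 ≤ s) (hr : s < r)
    (h : fin3 r s K0 ex = true) (hdiv : ∀ n K, G n s K = 0 → n ∣ (s - 1).factorial * s ^ K)
    (n K : ℕ) (hK : K < K0) (hn : 2 * s < n) (hex : ex n K = false) : G n s K ≠ 0 := by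
  intro hG
  have h1 : n < (s - 1) * 2 ^ K + s := by
    by_contra h1
    exact pf_UP s n K hs (by omega) hG
  simp only [fin3, List.all_eq_true, List.mem_range, Bool.or_eq_true, decide_eq_true_eq,
    bne_iff_ne, ne_eq] at h
  rcases h K hK n h1 with ((h2 | h2) | h2) | h2
  · omega
  · exact h2 (Nat.mod_eq_zero_of_dvd (hdiv n K hG))
  · rw [hex] at h2
    exact absurd h2 (by simp)
  · exact fin_ne r s n K hr h2 hG

/-- The bad classes. -/
def fin4 (s Q κ ρ lam : ℕ) (B : List ℕ) : Bool :=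
  ρ % lam == 0 && (List.range (s - 1)).all (fun i => (i + 1) ^ (κ + ρ) % Q == (i + 1) ^ κ % Q) &&
    (List.range ρ).all fun k => LL s (κ + k) % Q != 0 || B.contains ((κ + k) % lam)

theorem fin_pow (a Q κ ρ x y : ℕ) (h : a ^ (κ + ρ) ≡ a ^ κ [MOD Q]) :
    a ^ (κ + y + ρ * x) ≡ a ^ (κ + y) [MOD Q] := by
  induction x with
  | zero => simp [Nat.ModEq]
  | succ x ih =>
    have e : κ + y + ρ * (x + 1) = κ + ρ + (y + ρ * x) := by ring
    rw [e, pow_add]
    refine (h.mul_right _).trans ?_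
    rw [← pow_add]
    have e2 : κ + (y + ρ * x) = κ + y + ρ * x := by ring
    rw [e2]
    exact ih

theorem fin_four (s Q κ ρ lam : ℕ) (B : List ℕ) (hρ : 0 < ρ) (h : fin4 s Q κ ρ lam B = true)
    (K : ℕ) (hK : κ ≤ K) (hL : Q ∣ LL s K) : K % lam ∈ B := by
  simp only [fin4, Bool.and_eq_true, beq_iff_eq, List.all_eq_true, List.mem_range,
    Bool.or_eq_true, bne_iff_ne, ne_eq, List.contains_iff_mem] at h
  obtain ⟨⟨h1, h2⟩, h3⟩ := h
  have h4 := h3 ((K - κ) % ρ) (Nat.mod_lt _ hρ)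
  have eK : K = κ + (K - κ) % ρ + ρ * ((K - κ) / ρ) := by
    have := Nat.div_add_mod (K - κ) ρ
    omega
  have hLL : LL s K ≡ LL s (κ + (K - κ) % ρ) [MOD Q] := by
    unfold LL
    apply Nat.ModEq.sum
    intro j hj
    rw [Finset.mem_Icc] at hj
    apply Nat.ModEq.mul_left
    have h5 := h2 (s - j - 1) (by omega)
    have e5 : s - j - 1 + 1 = s - j := by omega
    rw [e5] at h5
    conv_lhs => rw [eK]
    exact fin_pow (s - j) Q κ ρ _ _ h5
  have h6 : LL s (κ + (K - κ) % ρ) % Q = 0 := by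
    have := Nat.mod_eq_zero_of_dvd hL
    rw [← this]
    exact hLL.symm
  rcases h4 with h4 | h4
  · exact absurd h6 h4
  · have e7 : K % lam = (κ + (K - κ) % ρ) % lam := by
      conv_lhs => rw [eK]
      rw [Nat.add_mod, Nat.mul_mod, h1]
      simp
    rw [e7]
    exact h4

end Pool.Agent.H33.SMP
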