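import Pool.Agent.H33.SMP.MQ

/-!
# Bad classes, level by level
-/

set_option autoImplicit false

namespace Pool.Agent.H33.SMP

open Pool.Agent.H33.SMS (G Det Crit)

/-- One level: classes `B'` modulo `l'` are refined to classes `B` modulo `lam`. -/
def fin7 (s Q κ ρ l' : ℕ) (B' : List ℕ) (lam : ℕ) (B : List ℕ) : Bool :=
  decide (0 < ρ) && decide (κ ≤ ρ) && ρ % l' == 0 && ρ % lam == 0 &&
    (List.range (s - 1)).all (fun i => (s - 1).factorial / (i + 1) * (s - (i + 1)) ^ (κ + ρ) % Q ==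
      (s - 1).factorial / (i + 1) * (s - (i + 1)) ^ κ % Q) &&
    B'.all fun k0 => (List.range (ρ / l')).all fun j =>
      (LL s (bif decide (k0 + l' * j < κ) then k0 + l' * j + ρ else k0 + l' * j) % Q != 0) ||
        B.contains ((k0 + l' * j) % lam)

theorem fl_pow (c a Q κ ρ x y : ℕ) (h : c * a ^ (κ + ρ) ≡ c * a ^ κ [MOD Q]) :
    c * a ^ (κ + y + ρ * x) ≡ c * a ^ (κ + y) [MOD Q] := by
  induction x with
  | zero => simp [Nat.ModEq]
  | succ x ih =>
    have e : c * a ^ (κ + y + ρ * (x + 1)) = c * a ^ (κ + ρ) * a ^ (y + ρ * x) := by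
      rw [mul_assoc, ← pow_add]
      congr 2
      ring
    rw [e]
    refine (h.mul_right _).trans ?_
    have e2 : c * a ^ κ * a ^ (y + ρ * x) = c * a ^ (κ + y + ρ * x) := by
      rw [mul_assoc, ← pow_add]
      congr 2
      ring
    rw [e2]
    exact ih

theorem fl_LL (s Q κ ρ : ℕ)
    (h : ∀ i < s - 1, (s - 1).factorial / (i + 1) * (s - (i + 1)) ^ (κ + ρ) % Q =
      (s - 1).factorial / (i + 1) * (s - (i + 1)) ^ κ % Q) (y x : ℕ) (hy : κ ≤ y) :
    LL s (y + ρ * x) ≡ LL s y [MOD Q] := by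
  unfold LL
  apply Nat.ModEq.sum
  intro j hj
  rw [Finset.mem_Icc] at hj
  have h5 := h (j - 1) (by omega)
  rw [show j - 1 + 1 = j by omega] at h5
  obtain ⟨z, rfl⟩ := Nat.exists_eq_add_of_le hy
  exact fl_pow _ (s - j) Q κ ρ x z h5

theorem fin_seven (s Q κ ρ l' lam : ℕ) (B' B : List ℕ) (h : fin7 s Q κ ρ l' B' lam B = true)
    (K : ℕ) (hK : κ ≤ K) (hB : K % l' ∈ B') (hQ : Q ∣ LL s K) : K % lam ∈ B := by
  simp only [fin7, Bool.and_eq_true, beq_iff_eq, decide_eq_true_eq, List.all_eq_true,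
    List.mem_range, Bool.or_eq_true, bne_iff_ne, ne_eq, List.contains_iff_mem] at h
  obtain ⟨⟨⟨⟨⟨h0, h1⟩, h2⟩, h3⟩, h4⟩, h5⟩ := h
  have e1 : K % l' + l' * (K % ρ / l') = K % ρ := by
    have h6 : K % ρ % l' = K % l' := Nat.mod_mod_of_dvd K (Nat.dvd_of_mod_eq_zero h2)
    rw [← h6]
    exact Nat.mod_add_div _ _
  have e2 : K % ρ / l' < ρ / l' := by
    rcases Nat.eq_zero_or_pos l' with hl | hl
    · subst hl
      simp only [Nat.mod_zero] at h2
      omega
    · exact Nat.div_lt_div_of_lt_of_dvd (Nat.dvd_of_mod_eq_zero h2) (Nat.mod_lt _ h0)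
  have h6 := h5 _ hB _ e2
  rw [e1] at h6
  have h7 : LL s (bif decide (K % ρ < κ) then K % ρ + ρ else K % ρ) % Q = 0 := by
    have eK : K = K % ρ + ρ * (K / ρ) := (Nat.mod_add_div K ρ).symm
    by_cases hc : K % ρ < κ
    · rw [decide_eq_true hc, cond_true]
      have hx : 1 ≤ K / ρ := by
        by_contra hx
        have : K / ρ = 0 := Nat.lt_one_iff.1 (not_le.1 hx)
        rw [this] at eK
        omega
      obtain ⟨x, hx'⟩ : ∃ x, K / ρ = x + 1 := Nat.exists_eq_add_of_le' hx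
      have e3 : K = K % ρ + ρ + ρ * x := by
        rw [hx'] at eK
        linarith
      have h8 := fl_LL s Q κ ρ h4 (K % ρ + ρ) x (by omega)
      rw [← e3] at h8
      exact (h8.symm.trans (Nat.modEq_zero_iff_dvd.2 hQ))
    · rw [decide_eq_false hc, cond_false]
      have h8 := fl_LL s Q κ ρ h4 (K % ρ) (K / ρ) (by omega)
      rw [← eK] at h8
      exact (h8.symm.trans (Nat.modEq_zero_iff_dvd.2 hQ))
  rcases h6 with h6 | h6
  · exact absurd h7 h6
  · rwa [Nat.mod_mod_of_dvd K (Nat.dvd_of_mod_eq_zero h3)] at h6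

/-- Middle range of `K` for `n = d * q ^ c`. -/
def fin6 (r s q K1 K0 Cm : ℕ) (D : List ℕ) (ex : ℕ → ℕ → Bool) : Bool :=
  (List.range K0).all fun K => decide (K < K1) ||
    (decide ((s - 1) * 2 ^ K + s ≤ q ^ Cm) &&
    (List.range Cm).all fun c => D.all fun d =>
      decide (d * q ^ c ≤ 2 * s) || decide ((s - 1) * 2 ^ K + s ≤ d * q ^ c) || ex (d * q ^ c) K ||
        (hor r (d * q ^ c % r) K (tbl s) 0 % r != 0))

theorem fin_six (r s q K1 K0 Cm : ℕ) (D : List ℕ) (ex : ℕ → ℕ → Bool) (hs : 2 ≤ s) (hr : s < r)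
    (h : fin6 r s q K1 K0 Cm D ex = true) (d c K : ℕ) (hd : d ∈ D) (hK1 : K1 ≤ K) (hK : K < K0)
    (hq : 2 ≤ q) (hn : 2 * s < d * q ^ c) (hex : ex (d * q ^ c) K = false) :
    G (d * q ^ c) s K ≠ 0 := by
  intro hG
  have h1 : d * q ^ c < (s - 1) * 2 ^ K + s := by
    by_contra h1
    exact pf_UP s _ K hs (by omega) hG
  simp only [fin6, List.all_eq_true, List.mem_range, Bool.or_eq_true, decide_eq_true_eq,
    bne_iff_ne, ne_eq, Bool.and_eq_true] at h
  rcases h K hK with h2 | ⟨h2, h3⟩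
  · omega
  · have hc : c < Cm := by
      by_contra hc
      have h4 : q ^ Cm ≤ q ^ c := Nat.pow_le_pow_right (by omega) (by omega)
      have h5 : 0 < d := Nat.pos_of_ne_zero (by rintro rfl; simp at hn)
      have h6 : q ^ c ≤ d * q ^ c := Nat.le_mul_of_pos_left _ h5
      omega
    rcases h3 c hc d hd with ((h4 | h4) | h4) | h4
    · omega
    · omega
    · rw [hex] at h4
      exact absurd h4 (by simp)
    · exact fin_ne r s _ K hr h4 hG

end Pool.Agent.H33.SMP
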