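import Pool.Agent.H33.SMP.SK

/-!
# Bad classes with modular powers
-/

set_option autoImplicit false

namespace Pool.Agent.H33.SMP

open Pool.Agent.H33.SMS (G Det Crit)

/-- Modular powers. -/
def pm (a Q k : ℕ) : ℕ := (a ^ (k / 512) % Q) ^ 512 * a ^ (k % 512) % Q

theorem pm_eq (a Q k : ℕ) : pm a Q k ≡ a ^ k [MOD Q] := by
  unfold pm
  refine (Nat.mod_modEq _ _).trans ?_
  have h1 : (a ^ (k / 512) % Q) ^ 512 ≡ (a ^ (k / 512)) ^ 512 [MOD Q] := (Nat.mod_modEq _ _).pow 512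
  have h2 : a ^ k = (a ^ (k / 512)) ^ 512 * a ^ (k % 512) := by
    conv_lhs => rw [← Nat.div_add_mod k 512]
    rw [pow_add, pow_mul']
  rw [h2]
  exact h1.mul_right _

/-- The weights and bases of the limit sum. -/
def wts (s : ℕ) : List (ℕ × ℕ) :=
  (List.range (s - 1)).map fun i => ((s - 1).factorial / (i + 1), s - (i + 1))

/-- The limit sum modulo `Q`. -/
def LLw (Q k : ℕ) : List (ℕ × ℕ) → ℕ
  | [] => 0
  | x :: W => (x.1 * pm x.2 Q k + LLw Q k W) % Q

theorem fq_sum (f : ℕ → ℕ) (n : ℕ) : ((List.range n).map f).sum = ∑ i ∈ Finset.range n, f i := by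
  induction n with
  | zero => simp
  | succ n ih =>
    rw [List.range_succ, List.map_append, List.sum_append, ih, Finset.sum_range_succ]
    simp

theorem LLw_sum (Q k : ℕ) (W : List (ℕ × ℕ)) :
    LLw Q k W ≡ (W.map fun x => x.1 * x.2 ^ k).sum [MOD Q] := by
  induction W with
  | nil => simp [LLw, Nat.ModEq]
  | cons x W ih =>
    simp only [LLw, List.map_cons, List.sum_cons]
    exact (Nat.mod_modEq _ _).trans (((pm_eq x.2 Q k).mul_left _).add ih)

theorem LLw_eq (s Q k : ℕ) (W : List (ℕ × ℕ)) (hW : wts s = W) : LLw Q k W ≡ LL s k [MOD Q] := by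
  have e : LL s k = ∑ i ∈ Finset.range (s - 1),
      (s - 1).factorial / (i + 1) * (s - (i + 1)) ^ k := by
    unfold LL
    have himg : Finset.Icc 1 (s - 1) = (Finset.range (s - 1)).image fun i => i + 1 := by
      ext j
      simp only [Finset.mem_Icc, Finset.mem_image, Finset.mem_range]
      constructor
      · rintro ⟨h1, h2⟩
        exact ⟨j - 1, by omega, by omega⟩
      · rintro ⟨i, h1, rfl⟩
        omega
    rw [himg, Finset.sum_image]
    intro a _ b _ hab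
    simpa using hab
  have h1 := LLw_sum Q k W
  rw [← hW] at h1 ⊢
  unfold wts at h1 ⊢
  rw [List.map_map, fq_sum] at h1
  rw [e]
  exact h1

/-- One level, with modular powers. -/
def fin9 (W : List (ℕ × ℕ)) (Q κ ρ l' : ℕ) (B' : List ℕ) (lam : ℕ) (B : List ℕ) : Bool :=
  decide (0 < ρ) && decide (κ ≤ ρ) && ρ % l' == 0 && ρ % lam == 0 &&
    W.all (fun x => x.1 * x.2 ^ (κ + ρ) % Q == x.1 * x.2 ^ κ % Q) &&
    B'.all fun k0 => (List.range (ρ / l')).all fun j =>
      (LLw Q (bif decide (k0 + l' * j < κ) then k0 + l' * j + ρ else k0 + l' * j) W % Q != 0) ||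
        B.contains ((k0 + l' * j) % lam)

theorem fin9_append (W : List (ℕ × ℕ)) (Q κ ρ l' : ℕ) (B1 B2 : List ℕ) (lam : ℕ) (B : List ℕ)
    (h1 : fin9 W Q κ ρ l' B1 lam B = true) (h2 : fin9 W Q κ ρ l' B2 lam B = true) :
    fin9 W Q κ ρ l' (B1 ++ B2) lam B = true := by
  unfold fin9 at *
  rw [Bool.and_eq_true] at h1 h2 ⊢
  refine ⟨h1.1, ?_⟩
  rw [List.all_append, h1.2, h2.2]
  rfl

theorem fin_nine (s Q κ ρ l' lam : ℕ) (W : List (ℕ × ℕ)) (B' B : List ℕ) (hW : wts s = W)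
    (h : fin9 W Q κ ρ l' B' lam B = true)
    (K : ℕ) (hK : κ ≤ K) (hB : K % l' ∈ B') (hQ : Q ∣ LL s K) : K % lam ∈ B := by
  simp only [fin9, Bool.and_eq_true, beq_iff_eq, decide_eq_true_eq, List.all_eq_true,
    List.mem_range, Bool.or_eq_true, bne_iff_ne, ne_eq, List.contains_iff_mem] at h
  obtain ⟨⟨⟨⟨⟨h0, h1⟩, h2⟩, h3⟩, h4⟩, h5⟩ := h
  have h4' : ∀ i < s - 1, (s - 1).factorial / (i + 1) * (s - (i + 1)) ^ (κ + ρ) % Q =
      (s - 1).factorial / (i + 1) * (s - (i + 1)) ^ κ % Q := by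
    intro i hi
    refine h4 ((s - 1).factorial / (i + 1), s - (i + 1)) ?_
    rw [← hW]
    exact List.mem_map.2 ⟨i, List.mem_range.2 hi, rfl⟩
  have e1 : K % l' + l' * (K % ρ / l') = K % ρ := by
    have h6 : K % ρ % l' = K % l' := Nat.mod_mod_of_dvd K (Nat.dvd_of_mod_eq_zero h2)
    rw [← h6]
    exact Nat.mod_add_div _ _
  have e2 : K % ρ / l' < ρ / l' := by
    rcases Nat.eq_zero_or_pos l' with hl | hl
    · subst hl
      simp only [Nat.mod_zero] at h2
      omega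
    · exact Nat.div_lt_div_of_lt_of_dvd (Nat.dvd_of_mod_eq_zero h2) (Nat.mod_lt _ h0)
  have h6 := h5 _ hB _ e2
  rw [e1] at h6
  have h7 : LLw Q (bif decide (K % ρ < κ) then K % ρ + ρ else K % ρ) W % Q = 0 := by
    have eK : K = K % ρ + ρ * (K / ρ) := (Nat.mod_add_div K ρ).symm
    by_cases hc : K % ρ < κ
    · rw [decide_eq_true hc, cond_true]
      have hx : 1 ≤ K / ρ := by
        by_contra hx
        have : K / ρ = 0 := Nat.lt_one_iff.1 (not_le.1 hx)
        rw [this] at eK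
        omega
      obtain ⟨x, hx'⟩ : ∃ x, K / ρ = x + 1 := Nat.exists_eq_add_of_le' hx
      have e3 : K = K % ρ + ρ + ρ * x := by
        rw [hx'] at eK
        linarith
      have h8 := fl_LL s Q κ ρ h4' (K % ρ + ρ) x (by omega)
      rw [← e3] at h8
      exact ((LLw_eq s Q _ W hW).trans (h8.symm.trans (Nat.modEq_zero_iff_dvd.2 hQ)))
    · rw [decide_eq_false hc, cond_false]
      have h8 := fl_LL s Q κ ρ h4' (K % ρ) (K / ρ) (by omega)
      rw [← eK] at h8
      exact ((LLw_eq s Q _ W hW).trans (h8.symm.trans (Nat.modEq_zero_iff_dvd.2 hQ)))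
  rcases h6 with h6 | h6
  · exact absurd h7 h6
  · rwa [Nat.mod_mod_of_dvd K (Nat.dvd_of_mod_eq_zero h3)] at h6

end Pool.Agent.H33.SMP
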