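import Pool.Agent.H33.SMP.S10T

/-!
# `s = 10`, small `K` and small exponents
-/

set_option autoImplicit false

namespace Pool.Agent.H33.SMP

theorem s10_K : enu N10 1 (leafK 10 2314 9 T10 (ex10)) = true := by decide +kernel

theorem s10_l : ((List.range (1 + 4)).all fun c => D10.all fun d =>
    leaf 10 T10 E10 (d * 5 ^ c)) = true := by decide +kernel

end Pool.Agent.H33.SMP
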