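import Pool.Agent.H33.SMP.S10L
import Pool.Agent.H33.SMP.S10K
import Pool.Agent.H33.SMP.S10Ea
import Pool.Agent.H33.SMP.S10Ca

/-!
# `s = 10`
-/

set_option autoImplicit false

namespace Pool.Agent.H33.SMP

open Pool.Agent.H33.SMS (G)

theorem s10_E : (E10.all fun n => fin1 1000003 10 n (ex10) 103 0) = true := by
  exact s10_Ea

theorem s10_C : (D10.all fun d => cq U10 5 1 d L10 1 0 1 0 1 0) = true := by
  exact s10_Ca

theorem s10_t : fin7 10 (2 ^ (7 + 1)) 4 16 1 [0] 1 [] = true := by decide +kernel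

theorem s10_m1 : fin8 10 1 (2 ^ (7 + 6)) 9 16 96 [10, 13] [Stp.T 13 12 12, Stp.T 17 16 8] = true
      := by
  decide +kernel

theorem s10_m2 : fin8 10 2 (2 ^ (7 + 6)) 9 16 96 [] [] = true := by
  decide +kernel

theorem s10_m3 : fin8 10 3 (2 ^ (7 + 6)) 9 16 96 [] [] = true := by
  decide +kernel

theorem s10_m4 : fin8 10 4 (2 ^ (7 + 6)) 9 16 96 [] [] = true := by
  decide +kernel

theorem s10_m5 : fin8 10 5 (2 ^ (7 + 6)) 9 16 96 [] [] = true := by
  decide +kernel

theorem s10_m6 : fin8 10 6 (2 ^ (7 + 6)) 9 16 96 [] [] = true := by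
  decide +kernel

theorem s10_m7 : fin8 10 7 (2 ^ (7 + 6)) 9 16 96 [] [] = true := by
  decide +kernel

theorem s10_m8 : fin8 10 8 (2 ^ (7 + 6)) 9 16 96 [] [] = true := by
  decide +kernel

theorem s10_m9 : fin8 10 9 (2 ^ (7 + 6)) 9 16 96 [3, 12] [Stp.T 13 12 12, Stp.T 17 16 8, Stp.T 97
      96 48] = true := by
  decide +kernel

theorem s10_G (n K : ℕ) (hn : 2 * 10 < n) (hex : ex10 n K = false) : G n 10 K ≠ 0 := by
  intro hG
  rcases Nat.lt_or_ge K 9 with hK | hK
  · exact small_K 10 9 2314 N10 T10 (ex10) (by norm_num) (by norm_num) s10_T s10_N s10_c s10_q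
      (by norm_num) s10_K n K hK hn hex hG
  by_cases h8 : 2 ^ (3 + 1) ∣ n
  · obtain ⟨m, hm1, hm2, rfl⟩ := tp_redw 10 n 7 3 K 4 16 9 (by norm_num) (by norm_num)
      (by norm_num [Nat.factorial]) (by norm_num) hK (by norm_num) (by norm_num) (by omega)
      s10_t h8 hG
    have h5 : ∀ (B : List ℕ) (L : List Stp), fin8 10 m (2 ^ (7 + 6)) 9 16 96 B L = true →
        False :=
      fun B L h => tp_eight 10 m 7 3 6 9 16 96 K B L (by norm_num) (by norm_num)
        (by norm_num [Nat.factorial]) (by norm_num) (by omega) hm1 (by omega) h hG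
    have h6 : m = 1 ∨ m = 2 ∨ m = 3 ∨ m = 4 ∨ m = 5 ∨ m = 6 ∨ m = 7 ∨ m = 8 ∨ m = 9 := by omega
    rcases h6 with rfl | rfl | rfl | rfl | rfl | rfl | rfl | rfl | rfl
    · exact h5 _ _ s10_m1
    · exact h5 _ _ s10_m2
    · exact h5 _ _ s10_m3
    · exact h5 _ _ s10_m4
    · exact h5 _ _ s10_m5
    · exact h5 _ _ s10_m6
    · exact h5 _ _ s10_m7
    · exact h5 _ _ s10_m8
    · exact h5 _ _ s10_m9
  · refine mm_scheme 10 5 1 1 1 4 500 9 103 B10_4 D10 L10 T10 E10 U10 s10_U (ex10) (by norm_num)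
        (by norm_num)
      (by norm_num) (by norm_num) (by norm_num) (by norm_num [Nat.factorial]) (by norm_num)
      (by norm_num) (by norm_num) s10_T s10_E s10_l (fun K hK hQ => s10_B K hK hQ) s10_ok s10_C n
            K hK hn ?_ hex hG
    have hpk : ∀ p k, p.Prime → p ≠ 5 → p ^ k ∣ n → p ^ k ∣ (M10.map fun x => x.1 ^ x.2).prod :=
          by
      intro p k hp hpq hk
      by_cases hps : p ∣ 10
      · have h2 : p = 2 := by
          have h3 : p ∣ 2 ^ 1 * 5 ^ 1 := by simpa using hps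
          rcases (Nat.Prime.dvd_mul hp).1 h3 with h4 | h4
          · exact (Nat.prime_dvd_prime_iff_eq hp Nat.prime_two).1 (hp.dvd_of_dvd_pow h4)
          · exact absurd ((Nat.prime_dvd_prime_iff_eq hp (by norm_num)).1
              (hp.dvd_of_dvd_pow h4)) hpq
        subst h2
        have h6 : k ≤ 3 := by
          by_contra h6
          exact h8 ((pow_dvd_pow 2 (by omega)).trans hk)
        exact (pow_dvd_pow 2 h6).trans (by decide +kernel)
      · exact mq_pp 10 n K _ p k (by norm_num) s10_d (by omega) hG hp hps hk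
    obtain ⟨c, m, hm, hnm⟩ := mq_D 5 n _ (by omega) (by norm_num) hpk
    exact ⟨c, m, mq_mem D10 M10 m s10_M s10_D hm, hnm⟩

end Pool.Agent.H33.SMP
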