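import Pool.Agent.H33.SMP.S11T

/-!
# `s = 11`, the sieve, part a
-/

set_option autoImplicit false

namespace Pool.Agent.H33.SMP

theorem s11_Ca1 : (D11a1.all fun d => cq U11 11 1 d L11 1 0 1 0 1 0) = true := by
  decide +kernel

theorem s11_Ca2 : (D11a2.all fun d => cq U11 11 1 d L11 1 0 1 0 1 0) = true := by
  decide +kernel

theorem s11_Ca3 : (D11a3.all fun d => cq U11 11 1 d L11 1 0 1 0 1 0) = true := by
  decide +kernel

theorem s11_Ca : (D11a.all fun d => cq U11 11 1 d L11 1 0 1 0 1 0) = true := by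
  simp only [D11a, List.all_append, Bool.and_eq_true]
  exact ⟨⟨s11_Ca1, s11_Ca2⟩, s11_Ca3⟩

end Pool.Agent.H33.SMP
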