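import Pool.Agent.H33.SMP.S11T

/-!
# `s = 11`, the remaining `n`, part a
-/

set_option autoImplicit false

namespace Pool.Agent.H33.SMP

theorem s11_Ea : (E11a.all fun n => fin1 1000003 11 n (fun _ _ => false) 135 0) = true := by
  decide +kernel

end Pool.Agent.H33.SMP
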