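import Pool.Agent.H33.SMP.S11T

/-!
# `s = 11`, small `K` and small exponents
-/

set_option autoImplicit false

namespace Pool.Agent.H33.SMP

theorem s11_K : enu N11 1 (leafK 11 331 6 T11 (fun _ _ => false)) = true := by decide +kernel

theorem s11_l : ((List.range (0 + 4)).all fun c => D11.all fun d =>
    leaf 11 T11 E11 (d * 11 ^ c)) = true := by decide +kernel

end Pool.Agent.H33.SMP
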