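import Pool.Agent.H33.SMP.S11L
import Pool.Agent.H33.SMP.S11K
import Pool.Agent.H33.SMP.S11Ea
import Pool.Agent.H33.SMP.S11Ca

/-!
# `s = 11`
-/

set_option autoImplicit false

namespace Pool.Agent.H33.SMP

open Pool.Agent.H33.SMS (G)

theorem s11_E : (E11.all fun n => fin1 1000003 11 n (fun _ _ => false) 135 0) = true := by
  exact s11_Ea

theorem s11_C : (D11.all fun d => cq U11 11 1 d L11 1 0 1 0 1 0) = true := by
  exact s11_Ca

theorem s11_G (n K : ℕ) (hn : 2 * 11 < n) : G n 11 K ≠ 0 := by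
  intro hG
  rcases Nat.lt_or_ge K 6 with hK | hK
  · exact small_K 11 6 331 N11 T11 (fun _ _ => false) (by norm_num) (by norm_num) s11_T s11_N
        s11_c s11_q
      (by norm_num) s11_K n K hK hn rfl hG
  · refine mm_scheme 11 11 1 0 0 4 13310 6 135 B11_4 D11 L11 T11 E11 U11 s11_U (fun _ _ => false)
        (by norm_num) (by norm_num)
      (by norm_num) (by norm_num) (by norm_num) (by norm_num [Nat.factorial]) (by norm_num)
      (by norm_num) (by norm_num) s11_T s11_E s11_l (fun K hK hQ => s11_B K hK hQ) s11_ok s11_C n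
            K hK hn ?_ rfl hG
    have hpk : ∀ p k, p.Prime → p ≠ 11 → p ^ k ∣ n → p ^ k ∣ (M11.map fun x => x.1 ^ x.2).prod :=
          by
      intro p k hp hpq hk
      refine mq_pp 11 n K _ p k (by norm_num) s11_d (by omega) hG hp ?_ hk
      intro hps
      exact hpq ((Nat.prime_dvd_prime_iff_eq hp (by norm_num)).1
        (hp.dvd_of_dvd_pow (show p ∣ 11 ^ 1 by simpa using hps)))
    obtain ⟨c, m, hm, hnm⟩ := mq_D 11 n _ (by omega) (by norm_num) hpk
    exact ⟨c, m, mq_mem D11 M11 m s11_M s11_D hm, hnm⟩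

end Pool.Agent.H33.SMP
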