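import Pool.Agent.H33.SMP.S12T

/-!
# `s = 12`, the remaining `n`, part a
-/

set_option autoImplicit false

namespace Pool.Agent.H33.SMP

theorem s12_Ea1 : (E12a1.all fun n => fin1 1000003 12 n (fun _ _ => false) 147 0) = true := by
  decide +kernel

theorem s12_Ea2 : (E12a2.all fun n => fin1 1000003 12 n (fun _ _ => false) 147 0) = true := by
  decide +kernel

theorem s12_Ea : (E12a.all fun n => fin1 1000003 12 n (fun _ _ => false) 147 0) = true := by
  simp only [E12a, List.all_append, Bool.and_eq_true]
  exact ⟨s12_Ea1, s12_Ea2⟩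

end Pool.Agent.H33.SMP
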