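import Pool.Agent.H33.SMP.S12T

/-!
# `s = 12`, small `K` and small exponents
-/

set_option autoImplicit false

namespace Pool.Agent.H33.SMP

theorem s12_K : enu N12 1 (leafK 12 180236 15 T12 (fun _ _ => false)) = true := by decide +kernel

theorem s12_l : ((List.range (2 + 4)).all fun c => D12.all fun d =>
    leaf 12 T12 E12 (d * 3 ^ c)) = true := by decide +kernel

end Pool.Agent.H33.SMP
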