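import Pool.Agent.H33.SMP.S12L
import Pool.Agent.H33.SMP.S12K
import Pool.Agent.H33.SMP.S12Ea
import Pool.Agent.H33.SMP.S12Ca

/-!
# `s = 12`
-/

set_option autoImplicit false

namespace Pool.Agent.H33.SMP

open Pool.Agent.H33.SMS (G)

theorem s12_E : (E12.all fun n => fin1 1000003 12 n (fun _ _ => false) 147 0) = true := by
  exact s12_Ea

theorem s12_C : (D12.all fun d => cq U12 3 1 d L12 1 0 1 0 1 0) = true := by
  exact s12_Ca

theorem s12_G (n K : ℕ) (hn : 2 * 12 < n) : G n 12 K ≠ 0 := by
  intro hG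
  rcases Nat.lt_or_ge K 15 with hK | hK
  · exact small_K 12 15 180236 N12 T12 (fun _ _ => false) (by norm_num) (by norm_num) s12_T s12_N
        s12_c s12_q
      (by norm_num) s12_K n K hK hn rfl hG
  · refine mm_scheme 12 3 1 4 2 4 54 15 147 B12_4 D12 L12 T12 E12 U12 s12_U (fun _ _ => false)
        (by norm_num) (by norm_num)
      (by norm_num) (by norm_num) (by norm_num) (by norm_num [Nat.factorial]) (by norm_num)
      (by norm_num) (by norm_num) s12_T s12_E s12_l (fun K hK hQ => s12_B K hK hQ) s12_ok s12_C n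
            K hK hn ?_ rfl hG
    have hpk : ∀ p k, p.Prime → p ≠ 3 → p ^ k ∣ n → p ^ k ∣ (M12.map fun x => x.1 ^ x.2).prod :=
          by
      intro p k hp hpq hk
      by_cases hps : p ∣ 12
      · have h2 : p = 2 := by
          have h3 : p ∣ 2 ^ 2 * 3 ^ 1 := by simpa using hps
          rcases (Nat.Prime.dvd_mul hp).1 h3 with h4 | h4
          · exact (Nat.prime_dvd_prime_iff_eq hp Nat.prime_two).1 (hp.dvd_of_dvd_pow h4)
          · exact absurd ((Nat.prime_dvd_prime_iff_eq hp (by norm_num)).1
              (hp.dvd_of_dvd_pow h4)) hpq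
        subst h2
        have h5 := tg_two 12 n K 3 1 3 15 (by norm_num) (by norm_num) (by norm_num) (by norm_num)
          (by omega) (by norm_num) (by norm_num) (by norm_num) hK hG
        have h6 : k ≤ 5 := by
          by_contra h6
          exact h5 ((pow_dvd_pow 2 (by omega)).trans hk)
        exact (pow_dvd_pow 2 h6).trans (by decide +kernel)
      · exact mq_pp 12 n K _ p k (by norm_num) s12_d (by omega) hG hp hps hk
    obtain ⟨c, m, hm, hnm⟩ := mq_D 3 n _ (by omega) (by norm_num) hpk
    exact ⟨c, m, mq_mem D12 M12 m s12_M s12_D hm, hnm⟩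

end Pool.Agent.H33.SMP
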