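import Pool.Agent.H33.SMP.S13T

/-!
# `s = 13`, small `K` and small exponents
-/

set_option autoImplicit false

namespace Pool.Agent.H33.SMP

theorem s13_K : enu N13 1 (leafK 13 397 6 T13 (fun _ _ => false)) = true := by decide +kernel

theorem s13_l : ((List.range (0 + 4)).all fun c => D13.all fun d =>
    leaf 13 T13 E13 (d * 13 ^ c)) = true := by decide +kernel

end Pool.Agent.H33.SMP
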