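import Pool.Agent.H33.SMP.S13L
import Pool.Agent.H33.SMP.S13K
import Pool.Agent.H33.SMP.S13Ea
import Pool.Agent.H33.SMP.S13Ca

/-!
# `s = 13`
-/

set_option autoImplicit false

namespace Pool.Agent.H33.SMP

open Pool.Agent.H33.SMS (G)

theorem s13_E : (E13.all fun n => fin1 1000003 13 n (fun _ _ => false) 194 0) = true := by
  exact s13_Ea

theorem s13_C : (D13.all fun d => cq U13 13 1 d L13 1 0 1 0 1 0) = true := by
  exact s13_Ca

theorem s13_G (n K : ℕ) (hn : 2 * 13 < n) : G n 13 K ≠ 0 := by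
  intro hG
  rcases Nat.lt_or_ge K 6 with hK | hK
  · exact small_K 13 6 397 N13 T13 (fun _ _ => false) (by norm_num) (by norm_num) s13_T s13_N
        s13_c s13_q
      (by norm_num) s13_K n K hK hn rfl hG
  · refine mm_scheme 13 13 1 0 0 4 26364 6 194 B13_4 D13 L13 T13 E13 U13 s13_U (fun _ _ => false)
        (by norm_num) (by norm_num)
      (by norm_num) (by norm_num) (by norm_num) (by norm_num [Nat.factorial]) (by norm_num)
      (by norm_num) (by norm_num) s13_T s13_E s13_l (fun K hK hQ => s13_B K hK hQ) s13_ok s13_C n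
            K hK hn ?_ rfl hG
    have hpk : ∀ p k, p.Prime → p ≠ 13 → p ^ k ∣ n → p ^ k ∣ (M13.map fun x => x.1 ^ x.2).prod :=
          by
      intro p k hp hpq hk
      refine mq_pp 13 n K _ p k (by norm_num) s13_d (by omega) hG hp ?_ hk
      intro hps
      exact hpq ((Nat.prime_dvd_prime_iff_eq hp (by norm_num)).1
        (hp.dvd_of_dvd_pow (show p ∣ 13 ^ 1 by simpa using hps)))
    obtain ⟨c, m, hm, hnm⟩ := mq_D 13 n _ (by omega) (by norm_num) hpk
    exact ⟨c, m, mq_mem D13 M13 m s13_M s13_D hm, hnm⟩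

end Pool.Agent.H33.SMP
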