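import Pool.Agent.H33.SMP.S14T

/-!
# `s = 14`, the sieve, part a
-/

set_option autoImplicit false

namespace Pool.Agent.H33.SMP

theorem s14_Ca1 : (D14a1.all fun d => cq U14 7 1 d L14 1 0 1 0 1 0) = true := by
  decide +kernel

theorem s14_Ca2 : (D14a2.all fun d => cq U14 7 1 d L14 1 0 1 0 1 0) = true := by
  decide +kernel

theorem s14_Ca3 : (D14a3.all fun d => cq U14 7 1 d L14 1 0 1 0 1 0) = true := by
  decide +kernel

theorem s14_Ca : (D14a.all fun d => cq U14 7 1 d L14 1 0 1 0 1 0) = true := by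
  simp only [D14a, List.all_append, Bool.and_eq_true]
  exact ⟨⟨s14_Ca1, s14_Ca2⟩, s14_Ca3⟩

end Pool.Agent.H33.SMP
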