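import Pool.Agent.H33.SMP.S14T

/-!
# `s = 14`, the remaining `n`, part a
-/

set_option autoImplicit false

namespace Pool.Agent.H33.SMP

theorem s14_Ea1 : (E14a1.all fun n => fin1 1000003 14 n (ex14) 194 0) = true := by
  decide +kernel

theorem s14_Ea2 : (E14a2.all fun n => fin1 1000003 14 n (ex14) 194 0) = true := by
  decide +kernel

theorem s14_Ea : (E14a.all fun n => fin1 1000003 14 n (ex14) 194 0) = true := by
  simp only [E14a, List.all_append, Bool.and_eq_true]
  exact ⟨s14_Ea1, s14_Ea2⟩

end Pool.Agent.H33.SMP
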