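import Pool.Agent.H33.SMP.S14T

/-!
# `s = 14`, small `K` and small exponents
-/

set_option autoImplicit false

namespace Pool.Agent.H33.SMP

theorem s14_K : enu N14 1 (leafK 14 13326 11 T14 (ex14)) = true := by decide +kernel

theorem s14_l : ((List.range (1 + 5)).all fun c => D14.all fun d =>
    leaf 14 T14 E14 (d * 7 ^ c)) = true := by decide +kernel

end Pool.Agent.H33.SMP
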