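import Pool.Agent.H33.SMP.S14L
import Pool.Agent.H33.SMP.S14K
import Pool.Agent.H33.SMP.S14Ea
import Pool.Agent.H33.SMP.S14Ca

/-!
# `s = 14`
-/

set_option autoImplicit false

namespace Pool.Agent.H33.SMP

open Pool.Agent.H33.SMS (G)

theorem s14_E : (E14.all fun n => fin1 1000003 14 n (ex14) 194 0) = true := by
  exact s14_Ea

theorem s14_C : (D14.all fun d => cq U14 7 1 d L14 1 0 1 0 1 0) = true := by
  exact s14_Ca

theorem s14_t : fin7 14 (2 ^ (10 + 1)) 4 16 1 [0] 1 [] = true := by decide +kernel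

theorem s14_m1 : fin8 14 1 (2 ^ (10 + 8)) 11 64 192 [10, 29, 42, 61] [Stp.T 17 16 8] = true := by
  decide +kernel

theorem s14_m2 : fin8 14 2 (2 ^ (10 + 8)) 11 64 192 [] [] = true := by
  decide +kernel

theorem s14_m3 : fin8 14 3 (2 ^ (10 + 8)) 11 64 192 [] [] = true := by
  decide +kernel

theorem s14_m4 : fin8 14 4 (2 ^ (10 + 8)) 11 64 192 [] [] = true := by
  decide +kernel

theorem s14_m5 : fin8 14 5 (2 ^ (10 + 8)) 11 64 192 [] [] = true := by
  decide +kernel

theorem s14_m6 : fin8 14 6 (2 ^ (10 + 8)) 11 64 192 [] [] = true := by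
  decide +kernel

theorem s14_m7 : fin8 14 7 (2 ^ (10 + 8)) 11 64 192 [] [] = true := by
  decide +kernel

theorem s14_m8 : fin8 14 8 (2 ^ (10 + 8)) 11 64 192 [] [] = true := by
  decide +kernel

theorem s14_m9 : fin8 14 9 (2 ^ (10 + 8)) 11 64 192 [] [] = true := by
  decide +kernel

theorem s14_m10 : fin8 14 10 (2 ^ (10 + 8)) 11 64 192 [] [] = true := by
  decide +kernel

theorem s14_m11 : fin8 14 11 (2 ^ (10 + 8)) 11 64 192 [] [] = true := by
  decide +kernel

theorem s14_m12 : fin8 14 12 (2 ^ (10 + 8)) 11 64 192 [] [] = true := by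
  decide +kernel

theorem s14_m13 : fin8 14 13 (2 ^ (10 + 8)) 11 64 192 [] [] = true := by
  decide +kernel

theorem s14_G (n K : ℕ) (hn : 2 * 14 < n) (hex : ex14 n K = false) : G n 14 K ≠ 0 := by
  intro hG
  rcases Nat.lt_or_ge K 11 with hK | hK
  · exact small_K 14 11 13326 N14 T14 (ex14) (by norm_num) (by norm_num) s14_T s14_N s14_c s14_q
      (by norm_num) s14_K n K hK hn hex hG
  by_cases h8 : 2 ^ (3 + 1) ∣ n
  · obtain ⟨m, hm1, hm2, rfl⟩ := tp_redw 14 n 10 3 K 4 16 11 (by norm_num) (by norm_num)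
      (by norm_num [Nat.factorial]) (by norm_num) hK (by norm_num) (by norm_num) (by omega)
      s14_t h8 hG
    have h5 : ∀ (B : List ℕ) (L : List Stp), fin8 14 m (2 ^ (10 + 8)) 11 64 192 B L = true →
        False :=
      fun B L h => tp_eight 14 m 10 3 8 11 64 192 K B L (by norm_num) (by norm_num)
        (by norm_num [Nat.factorial]) (by norm_num) (by omega) hm1 (by omega) h hG
    have h6 : m = 1 ∨ m = 2 ∨ m = 3 ∨ m = 4 ∨ m = 5 ∨ m = 6 ∨ m = 7 ∨ m = 8 ∨ m = 9 ∨ m = 10 ∨ m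
          = 11 ∨ m = 12 ∨ m = 13 := by omega
    rcases h6 with rfl | rfl | rfl | rfl | rfl | rfl | rfl | rfl | rfl | rfl | rfl | rfl | rfl
    · exact h5 _ _ s14_m1
    · exact h5 _ _ s14_m2
    · exact h5 _ _ s14_m3
    · exact h5 _ _ s14_m4
    · exact h5 _ _ s14_m5
    · exact h5 _ _ s14_m6
    · exact h5 _ _ s14_m7
    · exact h5 _ _ s14_m8
    · exact h5 _ _ s14_m9
    · exact h5 _ _ s14_m10
    · exact h5 _ _ s14_m11
    · exact h5 _ _ s14_m12
    · exact h5 _ _ s14_m13
  · refine mm_scheme 14 7 1 1 1 5 14406 11 194 B14_5 D14 L14 T14 E14 U14 s14_U (ex14) (by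
        norm_num) (by norm_num)
      (by norm_num) (by norm_num) (by norm_num) (by norm_num [Nat.factorial]) (by norm_num)
      (by norm_num) (by norm_num) s14_T s14_E s14_l (fun K hK hQ => s14_B K hK hQ) s14_ok s14_C n
            K hK hn ?_ hex hG
    have hpk : ∀ p k, p.Prime → p ≠ 7 → p ^ k ∣ n → p ^ k ∣ (M14.map fun x => x.1 ^ x.2).prod :=
          by
      intro p k hp hpq hk
      by_cases hps : p ∣ 14
      · have h2 : p = 2 := by
          have h3 : p ∣ 2 ^ 1 * 7 ^ 1 := by simpa using hps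
          rcases (Nat.Prime.dvd_mul hp).1 h3 with h4 | h4
          · exact (Nat.prime_dvd_prime_iff_eq hp Nat.prime_two).1 (hp.dvd_of_dvd_pow h4)
          · exact absurd ((Nat.prime_dvd_prime_iff_eq hp (by norm_num)).1
              (hp.dvd_of_dvd_pow h4)) hpq
        subst h2
        have h6 : k ≤ 3 := by
          by_contra h6
          exact h8 ((pow_dvd_pow 2 (by omega)).trans hk)
        exact (pow_dvd_pow 2 h6).trans (by decide +kernel)
      · exact mq_pp 14 n K _ p k (by norm_num) s14_d (by omega) hG hp hps hk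
    obtain ⟨c, m, hm, hnm⟩ := mq_D 7 n _ (by omega) (by norm_num) hpk
    exact ⟨c, m, mq_mem D14 M14 m s14_M s14_D hm, hnm⟩

end Pool.Agent.H33.SMP
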