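import Pool.Agent.H33.SMP.S15T

/-!
# `s = 15`, the sieve A, part a
-/

set_option autoImplicit false

namespace Pool.Agent.H33.SMP

theorem s15_CAa : (D15Aa.all fun d => cq U15 3 1 d LA15 1 0 1 0 1 0) = true := by
  decide +kernel

end Pool.Agent.H33.SMP
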