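import Pool.Agent.H33.SMP.S15T

/-!
# `s = 15`, the sieve B, part a
-/

set_option autoImplicit false

namespace Pool.Agent.H33.SMP

theorem s15_CBa1 : (D15Ba1.all fun d => cq U15 5 1 d LB15 1 0 1 0 1 0) = true := by
  decide +kernel

theorem s15_CBa2 : (D15Ba2.all fun d => cq U15 5 1 d LB15 1 0 1 0 1 0) = true := by
  decide +kernel

theorem s15_CBa3 : (D15Ba3.all fun d => cq U15 5 1 d LB15 1 0 1 0 1 0) = true := by
  decide +kernel

theorem s15_CBa4 : (D15Ba4.all fun d => cq U15 5 1 d LB15 1 0 1 0 1 0) = true := by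
  decide +kernel

theorem s15_CBa5 : (D15Ba5.all fun d => cq U15 5 1 d LB15 1 0 1 0 1 0) = true := by
  decide +kernel

theorem s15_CBa : (D15Ba.all fun d => cq U15 5 1 d LB15 1 0 1 0 1 0) = true := by
  simp only [D15Ba, List.all_append, Bool.and_eq_true]
  exact ⟨⟨⟨⟨s15_CBa1, s15_CBa2⟩, s15_CBa3⟩, s15_CBa4⟩, s15_CBa5⟩

end Pool.Agent.H33.SMP
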