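import Pool.Agent.H33.SMP.S15T

/-!
# `s = 15`, the sieve B, part b
-/

set_option autoImplicit false

namespace Pool.Agent.H33.SMP

theorem s15_CBb1 : (D15Bb1.all fun d => cq U15 5 1 d LB15 1 0 1 0 1 0) = true := by
  decide +kernel

theorem s15_CBb2 : (D15Bb2.all fun d => cq U15 5 1 d LB15 1 0 1 0 1 0) = true := by
  decide +kernel

theorem s15_CBb : (D15Bb.all fun d => cq U15 5 1 d LB15 1 0 1 0 1 0) = true := by
  simp only [D15Bb, List.all_append, Bool.and_eq_true]
  exact ⟨s15_CBb1, s15_CBb2⟩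

end Pool.Agent.H33.SMP
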