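import Pool.Agent.H33.SMP.S15T

/-!
# `s = 15`, the sieve C, part a
-/

set_option autoImplicit false

namespace Pool.Agent.H33.SMP

theorem s15_CCa1 : (D15Ca1.all fun d => cq U15 3 5 d LC15 1 0 1 0 1 0) = true := by
  decide +kernel

theorem s15_CCa2 : (D15Ca2.all fun d => cq U15 3 5 d LC15 1 0 1 0 1 0) = true := by
  decide +kernel

theorem s15_CCa3 : (D15Ca3.all fun d => cq U15 3 5 d LC15 1 0 1 0 1 0) = true := by
  decide +kernel

theorem s15_CCa4 : (D15Ca4.all fun d => cq U15 3 5 d LC15 1 0 1 0 1 0) = true := by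
  decide +kernel

theorem s15_CCa5 : (D15Ca5.all fun d => cq U15 3 5 d LC15 1 0 1 0 1 0) = true := by
  decide +kernel

theorem s15_CCa : (D15Ca.all fun d => cq U15 3 5 d LC15 1 0 1 0 1 0) = true := by
  simp only [D15Ca, List.all_append, Bool.and_eq_true]
  exact ⟨⟨⟨⟨s15_CCa1, s15_CCa2⟩, s15_CCa3⟩, s15_CCa4⟩, s15_CCa5⟩

end Pool.Agent.H33.SMP
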