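import Pool.Agent.H33.SMP.S15T

/-!
# `s = 15`, the sieve C, part b
-/

set_option autoImplicit false

namespace Pool.Agent.H33.SMP

theorem s15_CCb1 : (D15Cb1.all fun d => cq U15 3 5 d LC15 1 0 1 0 1 0) = true := by
  decide +kernel

theorem s15_CCb2 : (D15Cb2.all fun d => cq U15 3 5 d LC15 1 0 1 0 1 0) = true := by
  decide +kernel

theorem s15_CCb3 : (D15Cb3.all fun d => cq U15 3 5 d LC15 1 0 1 0 1 0) = true := by
  decide +kernel

theorem s15_CCb : (D15Cb.all fun d => cq U15 3 5 d LC15 1 0 1 0 1 0) = true := by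
  simp only [D15Cb, List.all_append, Bool.and_eq_true]
  exact ⟨⟨s15_CCb1, s15_CCb2⟩, s15_CCb3⟩

end Pool.Agent.H33.SMP
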