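import Pool.Agent.H33.SMP.S15T

/-!
# `s = 15`, the remaining `n`, part b
-/

set_option autoImplicit false

namespace Pool.Agent.H33.SMP

theorem s15_Eb1 : (E15b1.all fun n => fin1 1000003 15 n (fun _ _ => false) 293 0) = true := by
  decide +kernel

theorem s15_Eb2 : (E15b2.all fun n => fin1 1000003 15 n (fun _ _ => false) 293 0) = true := by
  decide +kernel

theorem s15_Eb3 : (E15b3.all fun n => fin1 1000003 15 n (fun _ _ => false) 293 0) = true := by
  decide +kernel

theorem s15_Eb4 : (E15b4.all fun n => fin1 1000003 15 n (fun _ _ => false) 293 0) = true := by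
  decide +kernel

theorem s15_Eb5 : (E15b5.all fun n => fin1 1000003 15 n (fun _ _ => false) 293 0) = true := by
  decide +kernel

theorem s15_Eb : (E15b.all fun n => fin1 1000003 15 n (fun _ _ => false) 293 0) = true := by
  simp only [E15b, List.all_append, Bool.and_eq_true]
  exact ⟨⟨⟨⟨s15_Eb1, s15_Eb2⟩, s15_Eb3⟩, s15_Eb4⟩, s15_Eb5⟩

end Pool.Agent.H33.SMP
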