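import Pool.Agent.H33.SMP.S15T

/-!
# `s = 15`, the remaining `n`, part c
-/

set_option autoImplicit false

namespace Pool.Agent.H33.SMP

theorem s15_Ec1 : (E15c1.all fun n => fin1 1000003 15 n (fun _ _ => false) 293 0) = true := by
  decide +kernel

theorem s15_Ec2 : (E15c2.all fun n => fin1 1000003 15 n (fun _ _ => false) 293 0) = true := by
  decide +kernel

theorem s15_Ec3 : (E15c3.all fun n => fin1 1000003 15 n (fun _ _ => false) 293 0) = true := by
  decide +kernel

theorem s15_Ec : (E15c.all fun n => fin1 1000003 15 n (fun _ _ => false) 293 0) = true := by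
  simp only [E15c, List.all_append, Bool.and_eq_true]
  exact ⟨⟨s15_Ec1, s15_Ec2⟩, s15_Ec3⟩

end Pool.Agent.H33.SMP
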