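import Pool.Agent.H33.SMP.S15T

/-!
# `s = 15`, small `K` and small exponents
-/

set_option autoImplicit false

namespace Pool.Agent.H33.SMP

theorem s15_K : enu N15 1 (leafK 15 1835023 18 T15 (fun _ _ => false)) = true := by decide +kernel

theorem s15_lA : ((List.range (2 + 5)).all fun c => D15A.all fun d =>
    leaf 15 T15 E15 (d * 3 ^ c)) = true := by decide +kernel

theorem s15_lB : ((List.range (1 + 5)).all fun c => D15B.all fun d =>
    leaf 15 T15 E15 (d * 5 ^ c)) = true := by decide +kernel

end Pool.Agent.H33.SMP
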