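import Pool.Agent.H33.SMP.S15L
import Pool.Agent.H33.SMP.S15K
import Pool.Agent.H33.SMP.S15Ea
import Pool.Agent.H33.SMP.S15Eb
import Pool.Agent.H33.SMP.S15Ec
import Pool.Agent.H33.SMP.S15CAa
import Pool.Agent.H33.SMP.S15CBa
import Pool.Agent.H33.SMP.S15CBb
import Pool.Agent.H33.SMP.S15CCa
import Pool.Agent.H33.SMP.S15CCb

/-!
# `s = 15`
-/

set_option autoImplicit false

namespace Pool.Agent.H33.SMP

open Pool.Agent.H33.SMS (G)

theorem s15_E : (E15.all fun n => fin1 1000003 15 n (fun _ _ => false) 293 0) = true := by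
  simp only [E15, List.all_append, Bool.and_eq_true]
  exact ⟨⟨s15_Ea, s15_Eb⟩, s15_Ec⟩

theorem s15_CA : (D15A.all fun d => cq U15 3 1 d LA15 1 0 1 0 1 0) = true := by
  exact s15_CAa

theorem s15_CB : (D15B.all fun d => cq U15 5 1 d LB15 1 0 1 0 1 0) = true := by
  simp only [D15B, List.all_append, Bool.and_eq_true]
  exact ⟨s15_CBa, s15_CBb⟩

theorem s15_CC : (D15C.all fun d => cq U15 3 5 d LC15 1 0 1 0 1 0) = true := by
  simp only [D15C, List.all_append, Bool.and_eq_true]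
  exact ⟨s15_CCa, s15_CCb⟩

theorem s15_G (n K : ℕ) (hn : 2 * 15 < n) : G n 15 K ≠ 0 := by
  intro hG
  rcases Nat.lt_or_ge K 18 with hK | hK
  · exact small_K 15 18 1835023 N15 T15 (fun _ _ => false) (by norm_num) (by norm_num) s15_T
        s15_N s15_c s15_q
      (by norm_num) s15_K n K hK hn rfl hG
  have hpk : ∀ r k, r.Prime → r ≠ 3 → r ≠ 5 → r ^ k ∣ n →
      r ^ k ∣ (M15C.map fun x => x.1 ^ x.2).prod := by
    intro r k hr h3 h5 hk
    refine mq_pp 15 n K _ r k (by norm_num) s15_d (by omega) hG hr ?_ hk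
    intro hrs
    have h6 : r ∣ 3 * 5 := by simpa using hrs
    rcases (Nat.Prime.dvd_mul hr).1 h6 with h7 | h7
    · exact h3 ((Nat.prime_dvd_prime_iff_eq hr (by norm_num)).1 h7)
    · exact h5 ((Nat.prime_dvd_prime_iff_eq hr (by norm_num)).1 h7)
  obtain ⟨a, b, m, hm, rfl⟩ := mq_D2 3 5 n _ (by omega) (by norm_num) (by norm_num) hpk
  have hmC := mq_mem D15C M15C m s15_MC s15_DC hm
  rcases Nat.lt_or_ge b 6 with hb | hb
  · have h1 := List.all_eq_true.1 (List.all_eq_true.1 s15_DA m hmC) b (List.mem_range.2 hb)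
    refine mm_scheme 15 3 1 5 2 5 162 18 293 Bx15_5 D15A LA15 T15 E15 U15 s15_U (fun _ _ =>
          false) (by norm_num)
      (by norm_num) (by norm_num) (by norm_num) (by norm_num) (by norm_num [Nat.factorial])
      (by norm_num) (by norm_num) (by norm_num) s15_T s15_E s15_lA
      (fun K hK hQ => s15_Bx K hK hQ) s15_okA s15_CA _ K hK hn
      ⟨a, m * 5 ^ b, List.contains_iff_mem.1 h1, by ring⟩ rfl hG
  rcases Nat.lt_or_ge a 7 with ha | ha
  · have h1 := List.all_eq_true.1 (List.all_eq_true.1 s15_DB m hmC) a (List.mem_range.2 ha)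
    refine mm_scheme 15 5 1 2 1 5 2500 18 293 By15_5 D15B LB15 T15 E15 U15 s15_U (fun _ _ =>
          false) (by norm_num)
      (by norm_num) (by norm_num) (by norm_num) (by norm_num) (by norm_num [Nat.factorial])
      (by norm_num) (by norm_num) (by norm_num) s15_T s15_E s15_lB
      (fun K hK hQ => s15_By K hK hQ) s15_okB s15_CB _ K hK hn
      ⟨b, m * 3 ^ a, List.contains_iff_mem.1 h1, rfl⟩ rfl hG
  by_cases hQ3 : 3 ^ (5 + 5) ∣ LL 15 K
  · by_cases hQ5 : 5 ^ (2 + 5) ∣ LL 15 K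
    · exact mm_two 15 3 5 202500 BB15 D15C LC15 U15 s15_U (by norm_num) s15_okC s15_CC m a b K hmC
        (by omega) (s15_BB K (s15_Bx K hK hQ3) (s15_By K hK hQ5)) hG
    · exact dich_ne 15 5 1 2 1 5 18 _ K (by norm_num) (by norm_num) (by norm_num) (by norm_num)
        (by norm_num [Nat.factorial]) (by norm_num) (by norm_num) (by norm_num) hK (by omega)
        ((pow_dvd_pow 5 (by omega)).trans (dvd_mul_left _ _)) hQ5 hG
  · exact dich_ne 15 3 1 5 2 5 18 _ K (by norm_num) (by norm_num) (by norm_num) (by norm_num)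
      (by norm_num [Nat.factorial]) (by norm_num) (by norm_num) (by norm_num) hK (by omega)
      ((pow_dvd_pow 3 (by omega)).trans ((dvd_mul_left _ _).trans (dvd_mul_right _ _))) hQ3 hG

end Pool.Agent.H33.SMP
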