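import Pool.Agent.H33.SMP.S16T

/-!
# `s = 16`, the enumeration
-/

set_option autoImplicit false

namespace Pool.Agent.H33.SMP

theorem s16_U : enu P16 1 (leaf 16 T16 E16) = true := by decide +kernel

end Pool.Agent.H33.SMP
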