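import Pool.Agent.H33.SMP.S16Ea
import Pool.Agent.H33.SMP.S16U

/-!
# `s = 16`
-/

set_option autoImplicit false

namespace Pool.Agent.H33.SMP

open Pool.Agent.H33.SMS (G)

theorem s16_E : (E16.all fun n => fin1 1000003 16 n (fun _ _ => false) 183 0) = true := by
  exact s16_Ea

theorem s16_G (n K : ℕ) (hn : 2 * 16 < n) : G n 16 K ≠ 0 := by
  intro hG
  have h1 := tg_lcm 4 n K (by norm_num) (by omega) hG
  rw [s16_L] at h1
  have h2 := enu_ok (leaf 16 T16 E16) P16 1 n (fun x hx => isP_prime _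
    (List.all_eq_true.1 s16_P x hx)) s16_U h1
  rw [one_mul] at h2
  exact leaf_ne 16 n 183 T16 E16 (by norm_num) (by norm_num) s16_T s16_E hn h2 K hG

end Pool.Agent.H33.SMP
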