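import Pool.Agent.H33.SMP.S17T

/-!
# `s = 17`, the sieve, part a
-/

set_option autoImplicit false

namespace Pool.Agent.H33.SMP

theorem s17_Ca1 : (D17a1.all fun d => cq U17 17 1 d L17 1 0 1 0 1 0) = true := by
  decide +kernel

theorem s17_Ca2 : (D17a2.all fun d => cq U17 17 1 d L17 1 0 1 0 1 0) = true := by
  decide +kernel

theorem s17_Ca3 : (D17a3.all fun d => cq U17 17 1 d L17 1 0 1 0 1 0) = true := by
  decide +kernel

theorem s17_Ca4 : (D17a4.all fun d => cq U17 17 1 d L17 1 0 1 0 1 0) = true := by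
  decide +kernel

theorem s17_Ca5 : (D17a5.all fun d => cq U17 17 1 d L17 1 0 1 0 1 0) = true := by
  decide +kernel

theorem s17_Ca6 : (D17a6.all fun d => cq U17 17 1 d L17 1 0 1 0 1 0) = true := by
  decide +kernel

theorem s17_Ca : (D17a.all fun d => cq U17 17 1 d L17 1 0 1 0 1 0) = true := by
  simp only [D17a, List.all_append, Bool.and_eq_true]
  exact ⟨⟨⟨⟨⟨s17_Ca1, s17_Ca2⟩, s17_Ca3⟩, s17_Ca4⟩, s17_Ca5⟩, s17_Ca6⟩

end Pool.Agent.H33.SMP
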