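import Pool.Agent.H33.SMP.S17T

/-!
# `s = 17`, the sieve, part b
-/

set_option autoImplicit false

namespace Pool.Agent.H33.SMP

theorem s17_Cb1 : (D17b1.all fun d => cq U17 17 1 d L17 1 0 1 0 1 0) = true := by
  decide +kernel

theorem s17_Cb2 : (D17b2.all fun d => cq U17 17 1 d L17 1 0 1 0 1 0) = true := by
  decide +kernel

theorem s17_Cb3 : (D17b3.all fun d => cq U17 17 1 d L17 1 0 1 0 1 0) = true := by
  decide +kernel

theorem s17_Cb4 : (D17b4.all fun d => cq U17 17 1 d L17 1 0 1 0 1 0) = true := by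
  decide +kernel

theorem s17_Cb5 : (D17b5.all fun d => cq U17 17 1 d L17 1 0 1 0 1 0) = true := by
  decide +kernel

theorem s17_Cb6 : (D17b6.all fun d => cq U17 17 1 d L17 1 0 1 0 1 0) = true := by
  decide +kernel

theorem s17_Cb : (D17b.all fun d => cq U17 17 1 d L17 1 0 1 0 1 0) = true := by
  simp only [D17b, List.all_append, Bool.and_eq_true]
  exact ⟨⟨⟨⟨⟨s17_Cb1, s17_Cb2⟩, s17_Cb3⟩, s17_Cb4⟩, s17_Cb5⟩, s17_Cb6⟩

end Pool.Agent.H33.SMP
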