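import Pool.Agent.H33.SMP.S17T

/-!
# `s = 17`, the sieve, part c
-/

set_option autoImplicit false

namespace Pool.Agent.H33.SMP

theorem s17_Cc1 : (D17c1.all fun d => cq U17 17 1 d L17 1 0 1 0 1 0) = true := by
  decide +kernel

theorem s17_Cc2 : (D17c2.all fun d => cq U17 17 1 d L17 1 0 1 0 1 0) = true := by
  decide +kernel

theorem s17_Cc : (D17c.all fun d => cq U17 17 1 d L17 1 0 1 0 1 0) = true := by
  simp only [D17c, List.all_append, Bool.and_eq_true]
  exact ⟨s17_Cc1, s17_Cc2⟩

end Pool.Agent.H33.SMP
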