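import Pool.Agent.H33.SMP.S17T

/-!
# `s = 17`, the remaining `n`, part a
-/

set_option autoImplicit false

namespace Pool.Agent.H33.SMP

theorem s17_Ea1 : (E17a1.all fun n => fin1 1000003 17 n (fun _ _ => false) 238 0) = true := by
  decide +kernel

theorem s17_Ea2 : (E17a2.all fun n => fin1 1000003 17 n (fun _ _ => false) 238 0) = true := by
  decide +kernel

theorem s17_Ea3 : (E17a3.all fun n => fin1 1000003 17 n (fun _ _ => false) 238 0) = true := by
  decide +kernel

theorem s17_Ea : (E17a.all fun n => fin1 1000003 17 n (fun _ _ => false) 238 0) = true := by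
  simp only [E17a, List.all_append, Bool.and_eq_true]
  exact ⟨⟨s17_Ea1, s17_Ea2⟩, s17_Ea3⟩

end Pool.Agent.H33.SMP
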