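import Pool.Agent.H33.SMP.S17T

/-!
# `s = 17`, small `K` and small exponents
-/

set_option autoImplicit false

namespace Pool.Agent.H33.SMP

theorem s17_K : enu N17 1 (leafK 17 529 6 T17 (fun _ _ => false)) = true := by decide +kernel

theorem s17_l : ((List.range (0 + 4)).all fun c => D17.all fun d =>
    leaf 17 T17 E17 (d * 17 ^ c)) = true := by decide +kernel

end Pool.Agent.H33.SMP
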