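import Pool.Agent.H33.SMP.S17L
import Pool.Agent.H33.SMP.S17K
import Pool.Agent.H33.SMP.S17Ea
import Pool.Agent.H33.SMP.S17Ca
import Pool.Agent.H33.SMP.S17Cb
import Pool.Agent.H33.SMP.S17Cc

/-!
# `s = 17`
-/

set_option autoImplicit false

namespace Pool.Agent.H33.SMP

open Pool.Agent.H33.SMS (G)

theorem s17_E : (E17.all fun n => fin1 1000003 17 n (fun _ _ => false) 238 0) = true := by
  exact s17_Ea

theorem s17_C : (D17.all fun d => cq U17 17 1 d L17 1 0 1 0 1 0) = true := by
  simp only [D17, List.all_append, Bool.and_eq_true]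
  exact ⟨⟨s17_Ca, s17_Cb⟩, s17_Cc⟩

theorem s17_G (n K : ℕ) (hn : 2 * 17 < n) : G n 17 K ≠ 0 := by
  intro hG
  rcases Nat.lt_or_ge K 6 with hK | hK
  · exact small_K 17 6 529 N17 T17 (fun _ _ => false) (by norm_num) (by norm_num) s17_T s17_N
        s17_c s17_q
      (by norm_num) s17_K n K hK hn rfl hG
  · refine mm_scheme 17 17 1 0 0 4 78608 6 238 B17_4 D17 L17 T17 E17 U17 s17_U (fun _ _ => false)
        (by norm_num) (by norm_num)
      (by norm_num) (by norm_num) (by norm_num) (by norm_num [Nat.factorial]) (by norm_num)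
      (by norm_num) (by norm_num) s17_T s17_E s17_l (fun K hK hQ => s17_B K hK hQ) s17_ok s17_C n
            K hK hn ?_ rfl hG
    have hpk : ∀ p k, p.Prime → p ≠ 17 → p ^ k ∣ n → p ^ k ∣ (M17.map fun x => x.1 ^ x.2).prod :=
          by
      intro p k hp hpq hk
      refine mq_pp 17 n K _ p k (by norm_num) s17_d (by omega) hG hp ?_ hk
      intro hps
      exact hpq ((Nat.prime_dvd_prime_iff_eq hp (by norm_num)).1
        (hp.dvd_of_dvd_pow (show p ∣ 17 ^ 1 by simpa using hps)))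
    obtain ⟨c, m, hm, hnm⟩ := mq_D 17 n _ (by omega) (by norm_num) hpk
    exact ⟨c, m, mq_mem D17 M17 m s17_M s17_D hm, hnm⟩

end Pool.Agent.H33.SMP
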