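import Pool.Agent.H33.SMP.S18T

/-!
# `s = 18`, the sieve, part a
-/

set_option autoImplicit false

namespace Pool.Agent.H33.SMP

theorem s18_Ca1 : (D18a1.all fun d => cq U18 3 1 d L18 1 0 1 0 1 0) = true := by
  decide +kernel

theorem s18_Ca2 : (D18a2.all fun d => cq U18 3 1 d L18 1 0 1 0 1 0) = true := by
  decide +kernel

theorem s18_Ca : (D18a.all fun d => cq U18 3 1 d L18 1 0 1 0 1 0) = true := by
  simp only [D18a, List.all_append, Bool.and_eq_true]
  exact ⟨s18_Ca1, s18_Ca2⟩

end Pool.Agent.H33.SMP
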