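import Pool.Agent.H33.SMP.S18L
import Pool.Agent.H33.SMP.S18K
import Pool.Agent.H33.SMP.S18Ea
import Pool.Agent.H33.SMP.S18Eb
import Pool.Agent.H33.SMP.S18Ca

/-!
# `s = 18`
-/

set_option autoImplicit false

namespace Pool.Agent.H33.SMP

open Pool.Agent.H33.SMS (G)

theorem s18_E : (E18.all fun n => fin1 1000003 18 n (fun _ _ => false) 267 0) = true := by
  simp only [E18, List.all_append, Bool.and_eq_true]
  exact ⟨s18_Ea, s18_Eb⟩

theorem s18_C : (D18.all fun d => cq U18 3 1 d L18 1 0 1 0 1 0) = true := by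
  exact s18_Ca

theorem s18_t : fin7 18 (2 ^ (15 + 1)) 5 16 1 [0] 1 [] = true := by decide +kernel

theorem s18_m1 : fin8 18 1 (2 ^ (15 + 8)) 12 64 192 [10, 29, 42, 61] [Stp.T 97 96 48] = true := by
  decide +kernel

theorem s18_m2 : fin8 18 2 (2 ^ (15 + 8)) 12 64 192 [] [] = true := by
  decide +kernel

theorem s18_m3 : fin8 18 3 (2 ^ (15 + 8)) 12 64 192 [] [] = true := by
  decide +kernel

theorem s18_m4 : fin8 18 4 (2 ^ (15 + 8)) 12 64 192 [] [] = true := by
  decide +kernel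

theorem s18_m5 : fin8 18 5 (2 ^ (15 + 8)) 12 64 192 [] [] = true := by
  decide +kernel

theorem s18_m6 : fin8 18 6 (2 ^ (15 + 8)) 12 64 192 [] [] = true := by
  decide +kernel

theorem s18_m7 : fin8 18 7 (2 ^ (15 + 8)) 12 64 192 [] [] = true := by
  decide +kernel

theorem s18_m8 : fin8 18 8 (2 ^ (15 + 8)) 12 64 192 [] [] = true := by
  decide +kernel

theorem s18_m9 : fin8 18 9 (2 ^ (15 + 8)) 12 64 192 [] [] = true := by
  decide +kernel

theorem s18_m10 : fin8 18 10 (2 ^ (15 + 8)) 12 64 192 [] [] = true := by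
  decide +kernel

theorem s18_m11 : fin8 18 11 (2 ^ (15 + 8)) 12 64 192 [] [] = true := by
  decide +kernel

theorem s18_m12 : fin8 18 12 (2 ^ (15 + 8)) 12 64 192 [] [] = true := by
  decide +kernel

theorem s18_m13 : fin8 18 13 (2 ^ (15 + 8)) 12 64 192 [] [] = true := by
  decide +kernel

theorem s18_m14 : fin8 18 14 (2 ^ (15 + 8)) 12 64 192 [] [] = true := by
  decide +kernel

theorem s18_m15 : fin8 18 15 (2 ^ (15 + 8)) 12 64 192 [] [] = true := by
  decide +kernel

theorem s18_m16 : fin8 18 16 (2 ^ (15 + 8)) 12 64 192 [] [] = true := by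
  decide +kernel

theorem s18_m17 : fin8 18 17 (2 ^ (15 + 8)) 12 64 192 [8, 23, 40, 55] [Stp.T 97 96 48] = true :=
      by
  decide +kernel

theorem s18_G (n K : ℕ) (hn : 2 * 18 < n) : G n 18 K ≠ 0 := by
  intro hG
  rcases Nat.lt_or_ge K 12 with hK | hK
  · exact small_K 18 12 34834 N18 T18 (fun _ _ => false) (by norm_num) (by norm_num) s18_T s18_N
        s18_c s18_q
      (by norm_num) s18_K n K hK hn rfl hG
  by_cases h8 : 2 ^ (4 + 1) ∣ n
  · obtain ⟨m, hm1, hm2, rfl⟩ := tp_redw 18 n 15 4 K 5 16 12 (by norm_num) (by norm_num)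
      (by norm_num [Nat.factorial]) (by norm_num) hK (by norm_num) (by norm_num) (by omega)
      s18_t h8 hG
    have h5 : ∀ (B : List ℕ) (L : List Stp), fin8 18 m (2 ^ (15 + 8)) 12 64 192 B L = true →
        False :=
      fun B L h => tp_eight 18 m 15 4 8 12 64 192 K B L (by norm_num) (by norm_num)
        (by norm_num [Nat.factorial]) (by norm_num) (by omega) hm1 (by omega) h hG
    have h6 : m = 1 ∨ m = 2 ∨ m = 3 ∨ m = 4 ∨ m = 5 ∨ m = 6 ∨ m = 7 ∨ m = 8 ∨ m = 9 ∨ m = 10 ∨ m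
          = 11 ∨ m = 12 ∨ m = 13 ∨ m = 14 ∨ m = 15 ∨ m = 16 ∨ m = 17 := by omega
    rcases h6 with rfl | rfl | rfl | rfl | rfl | rfl | rfl | rfl | rfl | rfl | rfl | rfl | rfl |
          rfl | rfl | rfl | rfl
    · exact h5 _ _ s18_m1
    · exact h5 _ _ s18_m2
    · exact h5 _ _ s18_m3
    · exact h5 _ _ s18_m4
    · exact h5 _ _ s18_m5
    · exact h5 _ _ s18_m6
    · exact h5 _ _ s18_m7
    · exact h5 _ _ s18_m8
    · exact h5 _ _ s18_m9
    · exact h5 _ _ s18_m10
    · exact h5 _ _ s18_m11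
    · exact h5 _ _ s18_m12
    · exact h5 _ _ s18_m13
    · exact h5 _ _ s18_m14
    · exact h5 _ _ s18_m15
    · exact h5 _ _ s18_m16
    · exact h5 _ _ s18_m17
  · refine mm_scheme 18 3 2 6 2 7 1458 12 267 B18_7 D18 L18 T18 E18 U18 s18_U (fun _ _ => false)
        (by norm_num) (by norm_num)
      (by norm_num) (by norm_num) (by norm_num) (by norm_num [Nat.factorial]) (by norm_num)
      (by norm_num) (by norm_num) s18_T s18_E s18_l (fun K hK hQ => s18_B K hK hQ) s18_ok s18_C n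
            K hK hn ?_ rfl hG
    have hpk : ∀ p k, p.Prime → p ≠ 3 → p ^ k ∣ n → p ^ k ∣ (M18.map fun x => x.1 ^ x.2).prod :=
          by
      intro p k hp hpq hk
      by_cases hps : p ∣ 18
      · have h2 : p = 2 := by
          have h3 : p ∣ 2 ^ 1 * 3 ^ 2 := by simpa using hps
          rcases (Nat.Prime.dvd_mul hp).1 h3 with h4 | h4
          · exact (Nat.prime_dvd_prime_iff_eq hp Nat.prime_two).1 (hp.dvd_of_dvd_pow h4)
          · exact absurd ((Nat.prime_dvd_prime_iff_eq hp (by norm_num)).1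
              (hp.dvd_of_dvd_pow h4)) hpq
        subst h2
        have h6 : k ≤ 4 := by
          by_contra h6
          exact h8 ((pow_dvd_pow 2 (by omega)).trans hk)
        exact (pow_dvd_pow 2 h6).trans (by decide +kernel)
      · exact mq_pp 18 n K _ p k (by norm_num) s18_d (by omega) hG hp hps hk
    obtain ⟨c, m, hm, hnm⟩ := mq_D 3 n _ (by omega) (by norm_num) hpk
    exact ⟨c, m, mq_mem D18 M18 m s18_M s18_D hm, hnm⟩

end Pool.Agent.H33.SMP
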