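import Pool.Agent.H33.SMP.S19T

/-!
# `s = 19`, the sieve, part b
-/

set_option autoImplicit false

namespace Pool.Agent.H33.SMP

theorem s19_Cb1 : (D19b1.all fun d => cq U19 19 1 d L19 1 0 1 0 1 0) = true := by
  decide +kernel

theorem s19_Cb2 : (D19b2.all fun d => cq U19 19 1 d L19 1 0 1 0 1 0) = true := by
  decide +kernel

theorem s19_Cb3 : (D19b3.all fun d => cq U19 19 1 d L19 1 0 1 0 1 0) = true := by
  decide +kernel

theorem s19_Cb4 : (D19b4.all fun d => cq U19 19 1 d L19 1 0 1 0 1 0) = true := by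
  decide +kernel

theorem s19_Cb5 : (D19b5.all fun d => cq U19 19 1 d L19 1 0 1 0 1 0) = true := by
  decide +kernel

theorem s19_Cb6 : (D19b6.all fun d => cq U19 19 1 d L19 1 0 1 0 1 0) = true := by
  decide +kernel

theorem s19_Cb : (D19b.all fun d => cq U19 19 1 d L19 1 0 1 0 1 0) = true := by
  simp only [D19b, List.all_append, Bool.and_eq_true]
  exact ⟨⟨⟨⟨⟨s19_Cb1, s19_Cb2⟩, s19_Cb3⟩, s19_Cb4⟩, s19_Cb5⟩, s19_Cb6⟩

end Pool.Agent.H33.SMP
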