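import Pool.Agent.H33.SMP.S19T

/-!
# `s = 19`, the sieve, part d
-/

set_option autoImplicit false

namespace Pool.Agent.H33.SMP

theorem s19_Cd1 : (D19d1.all fun d => cq U19 19 1 d L19 1 0 1 0 1 0) = true := by
  decide +kernel

theorem s19_Cd2 : (D19d2.all fun d => cq U19 19 1 d L19 1 0 1 0 1 0) = true := by
  decide +kernel

theorem s19_Cd3 : (D19d3.all fun d => cq U19 19 1 d L19 1 0 1 0 1 0) = true := by
  decide +kernel

theorem s19_Cd4 : (D19d4.all fun d => cq U19 19 1 d L19 1 0 1 0 1 0) = true := by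
  decide +kernel

theorem s19_Cd5 : (D19d5.all fun d => cq U19 19 1 d L19 1 0 1 0 1 0) = true := by
  decide +kernel

theorem s19_Cd : (D19d.all fun d => cq U19 19 1 d L19 1 0 1 0 1 0) = true := by
  simp only [D19d, List.all_append, Bool.and_eq_true]
  exact ⟨⟨⟨⟨s19_Cd1, s19_Cd2⟩, s19_Cd3⟩, s19_Cd4⟩, s19_Cd5⟩

end Pool.Agent.H33.SMP
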