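import Pool.Agent.H33.SMP.S19T

/-!
# `s = 19`, small `K` and small exponents
-/

set_option autoImplicit false

namespace Pool.Agent.H33.SMP

theorem s19_K : enu N19 1 (leafK 19 595 6 T19 (fun _ _ => false)) = true := by decide +kernel

theorem s19_l : ((List.range (0 + 4)).all fun c => D19.all fun d =>
    leaf 19 T19 E19 (d * 19 ^ c)) = true := by decide +kernel

end Pool.Agent.H33.SMP
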