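import Pool.Agent.H33.SMP.S19L
import Pool.Agent.H33.SMP.S19K
import Pool.Agent.H33.SMP.S19Ea
import Pool.Agent.H33.SMP.S19Ca
import Pool.Agent.H33.SMP.S19Cb
import Pool.Agent.H33.SMP.S19Cc
import Pool.Agent.H33.SMP.S19Cd
import Pool.Agent.H33.SMP.S19Ce
import Pool.Agent.H33.SMP.S19Cf
import Pool.Agent.H33.SMP.S19Cg

/-!
# `s = 19`
-/

set_option autoImplicit false

namespace Pool.Agent.H33.SMP

open Pool.Agent.H33.SMS (G)

theorem s19_E : (E19.all fun n => fin1 1000003 19 n (fun _ _ => false) 271 0) = true := by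
  exact s19_Ea

theorem s19_C : (D19.all fun d => cq U19 19 1 d L19 1 0 1 0 1 0) = true := by
  simp only [D19, List.all_append, Bool.and_eq_true]
  exact ⟨⟨⟨⟨⟨⟨s19_Ca, s19_Cb⟩, s19_Cc⟩, s19_Cd⟩, s19_Ce⟩, s19_Cf⟩, s19_Cg⟩

theorem s19_G (n K : ℕ) (hn : 2 * 19 < n) : G n 19 K ≠ 0 := by
  intro hG
  rcases Nat.lt_or_ge K 6 with hK | hK
  · exact small_K 19 6 595 N19 T19 (fun _ _ => false) (by norm_num) (by norm_num) s19_T s19_N
        s19_c s19_q
      (by norm_num) s19_K n K hK hn rfl hG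
  · refine mm_scheme 19 19 1 0 0 4 123462 6 271 B19_4 D19 L19 T19 E19 U19 s19_U (fun _ _ =>
        false) (by norm_num) (by norm_num)
      (by norm_num) (by norm_num) (by norm_num) (by norm_num [Nat.factorial]) (by norm_num)
      (by norm_num) (by norm_num) s19_T s19_E s19_l (fun K hK hQ => s19_B K hK hQ) s19_ok s19_C n
            K hK hn ?_ rfl hG
    have hpk : ∀ p k, p.Prime → p ≠ 19 → p ^ k ∣ n → p ^ k ∣ (M19.map fun x => x.1 ^ x.2).prod :=
          by
      intro p k hp hpq hk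
      refine mq_pp 19 n K _ p k (by norm_num) s19_d (by omega) hG hp ?_ hk
      intro hps
      exact hpq ((Nat.prime_dvd_prime_iff_eq hp (by norm_num)).1
        (hp.dvd_of_dvd_pow (show p ∣ 19 ^ 1 by simpa using hps)))
    obtain ⟨c, m, hm, hnm⟩ := mq_D 19 n _ (by omega) (by norm_num) hpk
    exact ⟨c, m, mq_mem D19 M19 m s19_M s19_D hm, hnm⟩

end Pool.Agent.H33.SMP
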