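import Pool.Agent.H33.SMP.S32T

/-!
# `s = 32`, the remaining `n`, part b
-/

set_option autoImplicit false

namespace Pool.Agent.H33.SMP

theorem s32_Eb1 : (E32b1.all fun n => fin1 1000003 32 n (fun _ _ => false) 511 0) = true := by
  decide +kernel

theorem s32_Eb2 : (E32b2.all fun n => fin1 1000003 32 n (fun _ _ => false) 511 0) = true := by
  decide +kernel

theorem s32_Eb3 : (E32b3.all fun n => fin1 1000003 32 n (fun _ _ => false) 511 0) = true := by
  decide +kernel

theorem s32_Eb4 : (E32b4.all fun n => fin1 1000003 32 n (fun _ _ => false) 511 0) = true := by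
  decide +kernel

theorem s32_Eb : (E32b.all fun n => fin1 1000003 32 n (fun _ _ => false) 511 0) = true := by
  simp only [E32b, List.all_append, Bool.and_eq_true]
  exact ⟨⟨⟨s32_Eb1, s32_Eb2⟩, s32_Eb3⟩, s32_Eb4⟩

end Pool.Agent.H33.SMP
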