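import Pool.Agent.H33.SMP.S32T

/-!
# `s = 32`, the enumeration
-/

set_option autoImplicit false

namespace Pool.Agent.H33.SMP

theorem s32_U0 : enu R32 (1 * 2 ^ 0) (leaf 32 T32 E32) = true := by
  decide +kernel

theorem s32_U1 : enu R32 (1 * 2 ^ 1) (leaf 32 T32 E32) = true := by
  decide +kernel

theorem s32_U2 : enu R32 (1 * 2 ^ 2) (leaf 32 T32 E32) = true := by
  decide +kernel

theorem s32_U3 : enu R32 (1 * 2 ^ 3) (leaf 32 T32 E32) = true := by
  decide +kernel

theorem s32_U4 : enu R32 (1 * 2 ^ 4) (leaf 32 T32 E32) = true := by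
  decide +kernel

theorem s32_U5 : enu R32 (1 * 2 ^ 5) (leaf 32 T32 E32) = true := by
  decide +kernel

theorem s32_U6 : enu R32 (1 * 2 ^ 6) (leaf 32 T32 E32) = true := by
  decide +kernel

theorem s32_U7 : enu R32 (1 * 2 ^ 7) (leaf 32 T32 E32) = true := by
  decide +kernel

theorem s32_U8 : enu R32 (1 * 2 ^ 8) (leaf 32 T32 E32) = true := by
  decide +kernel

theorem s32_U9 : enu R32 (1 * 2 ^ 9) (leaf 32 T32 E32) = true := by
  decide +kernel

theorem s32_U10 : enu R32 (1 * 2 ^ 10) (leaf 32 T32 E32) = true := by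
  decide +kernel

theorem s32_U11 : enu R32 (1 * 2 ^ 11) (leaf 32 T32 E32) = true := by
  decide +kernel

theorem s32_U12 : enu R32 (1 * 2 ^ 12) (leaf 32 T32 E32) = true := by
  decide +kernel

theorem s32_U : enu P32 1 (leaf 32 T32 E32) = true := by
  simp only [P32, enu, List.all_eq_true, List.mem_range]
  intro v hv
  have h : v = 0 ∨ v = 1 ∨ v = 2 ∨ v = 3 ∨ v = 4 ∨ v = 5 ∨ v = 6 ∨ v = 7 ∨ v = 8 ∨ v = 9 ∨ v = 10
        ∨ v = 11 ∨ v = 12 := by omega
  rcases h with rfl | rfl | rfl | rfl | rfl | rfl | rfl | rfl | rfl | rfl | rfl | rfl | rfl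
  · exact s32_U0
  · exact s32_U1
  · exact s32_U2
  · exact s32_U3
  · exact s32_U4
  · exact s32_U5
  · exact s32_U6
  · exact s32_U7
  · exact s32_U8
  · exact s32_U9
  · exact s32_U10
  · exact s32_U11
  · exact s32_U12

end Pool.Agent.H33.SMP
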