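import Pool.Agent.H33.SMP.S32Ea
import Pool.Agent.H33.SMP.S32Eb
import Pool.Agent.H33.SMP.S32U

/-!
# `s = 32`
-/

set_option autoImplicit false

namespace Pool.Agent.H33.SMP

open Pool.Agent.H33.SMS (G)

theorem s32_E : (E32.all fun n => fin1 1000003 32 n (fun _ _ => false) 511 0) = true := by
  simp only [E32, List.all_append, Bool.and_eq_true]
  exact ⟨s32_Ea, s32_Eb⟩

theorem s32_G (n K : ℕ) (hn : 2 * 32 < n) : G n 32 K ≠ 0 := by
  intro hG
  have h1 := tg_lcm 5 n K (by norm_num) (by omega) hG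
  rw [s32_L] at h1
  have h2 := enu_ok (leaf 32 T32 E32) P32 1 n (fun x hx => isP_prime _
    (List.all_eq_true.1 s32_P x hx)) s32_U h1
  rw [one_mul] at h2
  exact leaf_ne 32 n 511 T32 E32 (by norm_num) (by norm_num) s32_T s32_E hn h2 K hG

end Pool.Agent.H33.SMP
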