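import Pool.Agent.H33.SMP.S6T

/-!
# `s = 6`, small `K` and small exponents
-/

set_option autoImplicit false

namespace Pool.Agent.H33.SMP

theorem s6_K : enu N6 1 (leafK 6 20486 13 T6 (ex6)) = true := by decide +kernel

theorem s6_l : ((List.range (1 + 4)).all fun c => D6.all fun d =>
    leaf 6 T6 E6 (d * 3 ^ c)) = true := by decide +kernel

end Pool.Agent.H33.SMP
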