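import Pool.Agent.H33.SMP.S6L
import Pool.Agent.H33.SMP.S6K
import Pool.Agent.H33.SMP.S6Ea
import Pool.Agent.H33.SMP.S6Ca

/-!
# `s = 6`
-/

set_option autoImplicit false

namespace Pool.Agent.H33.SMP

open Pool.Agent.H33.SMS (G)

theorem s6_E : (E6.all fun n => fin1 1000003 6 n (ex6) 40 0) = true := by
  exact s6_Ea

theorem s6_C : (D6.all fun d => cq U6 3 1 d L6 1 0 1 0 1 0) = true := by
  exact s6_Ca

theorem s6_t : fin7 6 (2 ^ (3 + 1)) 3 16 1 [0] 1 [] = true := by decide +kernel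

theorem s6_m1 : fin8 6 1 (2 ^ (3 + 6)) 8 16 96 [10, 13] [Stp.T 7 6 3, Stp.T 13 12 12, Stp.T 17 16
      8] = true := by
  decide +kernel

theorem s6_m2 : fin8 6 2 (2 ^ (3 + 6)) 8 16 96 [] [] = true := by
  decide +kernel

theorem s6_m3 : fin8 6 3 (2 ^ (3 + 6)) 8 16 96 [] [] = true := by
  decide +kernel

theorem s6_m4 : fin8 6 4 (2 ^ (3 + 6)) 8 16 96 [] [] = true := by
  decide +kernel

theorem s6_m5 : fin8 6 5 (2 ^ (3 + 6)) 8 16 96 [] [] = true := by
  decide +kernel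

theorem s6_G (n K : ℕ) (hn : 2 * 6 < n) (hex : ex6 n K = false) : G n 6 K ≠ 0 := by
  intro hG
  rcases Nat.lt_or_ge K 13 with hK | hK
  · exact small_K 6 13 20486 N6 T6 (ex6) (by norm_num) (by norm_num) s6_T s6_N s6_c s6_q
      (by norm_num) s6_K n K hK hn hex hG
  by_cases h8 : 2 ^ (2 + 1) ∣ n
  · obtain ⟨m, hm1, hm2, rfl⟩ := tp_redw 6 n 3 2 K 3 16 13 (by norm_num) (by norm_num)
      (by norm_num [Nat.factorial]) (by norm_num) hK (by norm_num) (by norm_num) (by omega)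
      s6_t h8 hG
    have h5 : ∀ (B : List ℕ) (L : List Stp), fin8 6 m (2 ^ (3 + 6)) 8 16 96 B L = true →
        False :=
      fun B L h => tp_eight 6 m 3 2 6 8 16 96 K B L (by norm_num) (by norm_num)
        (by norm_num [Nat.factorial]) (by norm_num) (by omega) hm1 (by omega) h hG
    have h6 : m = 1 ∨ m = 2 ∨ m = 3 ∨ m = 4 ∨ m = 5 := by omega
    rcases h6 with rfl | rfl | rfl | rfl | rfl
    · exact h5 _ _ s6_m1
    · exact h5 _ _ s6_m2
    · exact h5 _ _ s6_m3
    · exact h5 _ _ s6_m4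
    · exact h5 _ _ s6_m5
  · refine mm_scheme 6 3 1 1 1 4 54 13 40 B6_4 D6 L6 T6 E6 U6 s6_U (ex6) (by norm_num) (by
        norm_num)
      (by norm_num) (by norm_num) (by norm_num) (by norm_num [Nat.factorial]) (by norm_num)
      (by norm_num) (by norm_num) s6_T s6_E s6_l (fun K hK hQ => s6_B K hK hQ) s6_ok s6_C n K hK
            hn ?_ hex hG
    have hpk : ∀ p k, p.Prime → p ≠ 3 → p ^ k ∣ n → p ^ k ∣ (M6.map fun x => x.1 ^ x.2).prod := by
      intro p k hp hpq hk
      by_cases hps : p ∣ 6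
      · have h2 : p = 2 := by
          have h3 : p ∣ 2 ^ 1 * 3 ^ 1 := by simpa using hps
          rcases (Nat.Prime.dvd_mul hp).1 h3 with h4 | h4
          · exact (Nat.prime_dvd_prime_iff_eq hp Nat.prime_two).1 (hp.dvd_of_dvd_pow h4)
          · exact absurd ((Nat.prime_dvd_prime_iff_eq hp (by norm_num)).1
              (hp.dvd_of_dvd_pow h4)) hpq
        subst h2
        have h6 : k ≤ 2 := by
          by_contra h6
          exact h8 ((pow_dvd_pow 2 (by omega)).trans hk)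
        exact (pow_dvd_pow 2 h6).trans (by decide +kernel)
      · exact mq_pp 6 n K _ p k (by norm_num) s6_d (by omega) hG hp hps hk
    obtain ⟨c, m, hm, hnm⟩ := mq_D 3 n _ (by omega) (by norm_num) hpk
    exact ⟨c, m, mq_mem D6 M6 m s6_M s6_D hm, hnm⟩

end Pool.Agent.H33.SMP
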