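import Pool.Agent.H33.SMP.S7T

/-!
# `s = 7`, the sieve, part a
-/

set_option autoImplicit false

namespace Pool.Agent.H33.SMP

theorem s7_Ca1 : (D7a1.all fun d => cq U7 7 1 d L7 1 0 1 0 1 0) = true := by
  decide +kernel

theorem s7_Ca2 : (D7a2.all fun d => cq U7 7 1 d L7 1 0 1 0 1 0) = true := by
  decide +kernel

theorem s7_Ca : (D7a.all fun d => cq U7 7 1 d L7 1 0 1 0 1 0) = true := by
  simp only [D7a, List.all_append, Bool.and_eq_true]
  exact ⟨s7_Ca1, s7_Ca2⟩

end Pool.Agent.H33.SMP
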