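import Pool.Agent.H33.SMP.S7T

/-!
# `s = 7`, small `K` and small exponents
-/

set_option autoImplicit false

namespace Pool.Agent.H33.SMP

theorem s7_K : enu N7 1 (leafK 7 391 7 T7 (fun _ _ => false)) = true := by decide +kernel

theorem s7_l : ((List.range (0 + 4)).all fun c => D7.all fun d =>
    leaf 7 T7 E7 (d * 7 ^ c)) = true := by decide +kernel

end Pool.Agent.H33.SMP
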