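import Pool.Agent.H33.SMP.S7L
import Pool.Agent.H33.SMP.S7K
import Pool.Agent.H33.SMP.S7Ea
import Pool.Agent.H33.SMP.S7Ca

/-!
# `s = 7`
-/

set_option autoImplicit false

namespace Pool.Agent.H33.SMP

open Pool.Agent.H33.SMS (G)

theorem s7_E : (E7.all fun n => fin1 1000003 7 n (fun _ _ => false) 72 0) = true := by
  exact s7_Ea

theorem s7_C : (D7.all fun d => cq U7 7 1 d L7 1 0 1 0 1 0) = true := by
  exact s7_Ca

theorem s7_G (n K : ℕ) (hn : 2 * 7 < n) : G n 7 K ≠ 0 := by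
  intro hG
  rcases Nat.lt_or_ge K 7 with hK | hK
  · exact small_K 7 7 391 N7 T7 (fun _ _ => false) (by norm_num) (by norm_num) s7_T s7_N s7_c s7_q
      (by norm_num) s7_K n K hK hn rfl hG
  · refine mm_scheme 7 7 1 0 0 4 2058 7 72 B7_4 D7 L7 T7 E7 U7 s7_U (fun _ _ => false) (by
        norm_num) (by norm_num)
      (by norm_num) (by norm_num) (by norm_num) (by norm_num [Nat.factorial]) (by norm_num)
      (by norm_num) (by norm_num) s7_T s7_E s7_l (fun K hK hQ => s7_B K hK hQ) s7_ok s7_C n K hK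
            hn ?_ rfl hG
    have hpk : ∀ p k, p.Prime → p ≠ 7 → p ^ k ∣ n → p ^ k ∣ (M7.map fun x => x.1 ^ x.2).prod := by
      intro p k hp hpq hk
      refine mq_pp 7 n K _ p k (by norm_num) s7_d (by omega) hG hp ?_ hk
      intro hps
      exact hpq ((Nat.prime_dvd_prime_iff_eq hp (by norm_num)).1
        (hp.dvd_of_dvd_pow (show p ∣ 7 ^ 1 by simpa using hps)))
    obtain ⟨c, m, hm, hnm⟩ := mq_D 7 n _ (by omega) (by norm_num) hpk
    exact ⟨c, m, mq_mem D7 M7 m s7_M s7_D hm, hnm⟩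

end Pool.Agent.H33.SMP
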