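import Pool.Agent.H33.SMP.S8T

/-!
# `s = 8`, the enumeration
-/

set_option autoImplicit false

namespace Pool.Agent.H33.SMP

theorem s8_U : enu P8 1 (leaf 8 T8 E8) = true := by decide +kernel

end Pool.Agent.H33.SMP
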