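import Pool.Agent.H33.SMP.S8Ea
import Pool.Agent.H33.SMP.S8U

/-!
# `s = 8`
-/

set_option autoImplicit false

namespace Pool.Agent.H33.SMP

open Pool.Agent.H33.SMS (G)

theorem s8_E : (E8.all fun n => fin1 1000003 8 n (fun _ _ => false) 55 0) = true := by
  exact s8_Ea

theorem s8_G (n K : ℕ) (hn : 2 * 8 < n) : G n 8 K ≠ 0 := by
  intro hG
  have h1 := tg_lcm 3 n K (by norm_num) (by omega) hG
  rw [s8_L] at h1
  have h2 := enu_ok (leaf 8 T8 E8) P8 1 n (fun x hx => isP_prime _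
    (List.all_eq_true.1 s8_P x hx)) s8_U h1
  rw [one_mul] at h2
  exact leaf_ne 8 n 55 T8 E8 (by norm_num) (by norm_num) s8_T s8_E hn h2 K hG

end Pool.Agent.H33.SMP
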