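import Pool.Agent.H33.SMP.S9T

/-!
# `s = 9`, the sieve, part a
-/

set_option autoImplicit false

namespace Pool.Agent.H33.SMP

theorem s9_Ca : (D9a.all fun d => cq U9 3 1 d L9 1 0 1 0 1 0) = true := by
  decide +kernel

end Pool.Agent.H33.SMP
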