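import Pool.Agent.H33.SMP.S9T

/-!
# `s = 9`, small `K` and small exponents
-/

set_option autoImplicit false

namespace Pool.Agent.H33.SMP

theorem s9_K : enu N9 1 (leafK 9 521 7 T9 (fun _ _ => false)) = true := by decide +kernel

theorem s9_l : ((List.range (1 + 6)).all fun c => D9.all fun d =>
    leaf 9 T9 E9 (d * 3 ^ c)) = true := by decide +kernel

end Pool.Agent.H33.SMP
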