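import Pool.Agent.H33.SMP.S9L
import Pool.Agent.H33.SMP.S9K
import Pool.Agent.H33.SMP.S9Ea
import Pool.Agent.H33.SMP.S9Ca

/-!
# `s = 9`
-/

set_option autoImplicit false

namespace Pool.Agent.H33.SMP

open Pool.Agent.H33.SMS (G)

theorem s9_E : (E9.all fun n => fin1 1000003 9 n (fun _ _ => false) 100 0) = true := by
  exact s9_Ea

theorem s9_C : (D9.all fun d => cq U9 3 1 d L9 1 0 1 0 1 0) = true := by
  exact s9_Ca

theorem s9_G (n K : ℕ) (hn : 2 * 9 < n) : G n 9 K ≠ 0 := by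
  intro hG
  rcases Nat.lt_or_ge K 7 with hK | hK
  · exact small_K 9 7 521 N9 T9 (fun _ _ => false) (by norm_num) (by norm_num) s9_T s9_N s9_c s9_q
      (by norm_num) s9_K n K hK hn rfl hG
  · refine mm_scheme 9 3 2 2 1 6 486 7 100 B9_6 D9 L9 T9 E9 U9 s9_U (fun _ _ => false) (by
        norm_num) (by norm_num)
      (by norm_num) (by norm_num) (by norm_num) (by norm_num [Nat.factorial]) (by norm_num)
      (by norm_num) (by norm_num) s9_T s9_E s9_l (fun K hK hQ => s9_B K hK hQ) s9_ok s9_C n K hK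
            hn ?_ rfl hG
    have hpk : ∀ p k, p.Prime → p ≠ 3 → p ^ k ∣ n → p ^ k ∣ (M9.map fun x => x.1 ^ x.2).prod := by
      intro p k hp hpq hk
      refine mq_pp 9 n K _ p k (by norm_num) s9_d (by omega) hG hp ?_ hk
      intro hps
      exact hpq ((Nat.prime_dvd_prime_iff_eq hp (by norm_num)).1
        (hp.dvd_of_dvd_pow (show p ∣ 3 ^ 2 by simpa using hps)))
    obtain ⟨c, m, hm, hnm⟩ := mq_D 3 n _ (by omega) (by norm_num) hpk
    exact ⟨c, m, mq_mem D9 M9 m s9_M s9_D hm, hnm⟩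

end Pool.Agent.H33.SMP
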