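import Pool.Agent.H33.SMP.S5
import Pool.Agent.H33.SMP.S6
import Pool.Agent.H33.SMP.S7
import Pool.Agent.H33.SMP.S8
import Pool.Agent.H33.SMP.S9
import Pool.Agent.H33.SMP.S10
import Pool.Agent.H33.SMP.S11
import Pool.Agent.H33.SMP.S12
import Pool.Agent.H33.SMP.S13
import Pool.Agent.H33.SMP.S14
import Pool.Agent.H33.SMP.S15
import Pool.Agent.H33.SMP.S16
import Pool.Agent.H33.SMP.S17
import Pool.Agent.H33.SMP.S18
import Pool.Agent.H33.SMP.S19
import Pool.Agent.H33.SMP.S20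
import Pool.Agent.H33.SMP.S32
import Pool.Agent.H33.SMS.Asm1

/-!
# The small values of `s`
-/

set_option autoImplicit false

namespace Pool.Agent.H33.SMP

open Pool.Agent.H33.SMS (G Det det)

theorem small_G (n s k : ℕ) (hs : 5 ≤ s ∧ s ≤ 20 ∨ s = 32) (hn : 2 * s < n)
    (h1 : (n, s) ≠ (27, 6)) (h2 : (n, s) ≠ (32, 10)) (h3 : (n, s) ≠ (147, 14)) :
    G n s k ≠ 0 := by
  rcases hs with ⟨ha, hb⟩ | rfl
  · interval_cases s
    · exact s5_G n k hn
    · have h : n ≠ 27 := fun h => h1 (by rw [h])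
      exact s6_G n k hn (by simp [ex6, h])
    · exact s7_G n k hn
    · exact s8_G n k hn
    · exact s9_G n k hn
    · have h : n ≠ 32 := fun h => h2 (by rw [h])
      exact s10_G n k hn (by simp [ex10, h])
    · exact s11_G n k hn
    · exact s12_G n k hn
    · exact s13_G n k hn
    · have h : n ≠ 147 := fun h => h3 (by rw [h])
      exact s14_G n k hn (by simp [ex14, h])
    · exact s15_G n k hn
    · exact s16_G n k hn
    · exact s17_G n k hn
    · exact s18_G n k hn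
    · exact s19_G n k hn
    · exact s20_G n k hn
  · exact s32_G n k hn

theorem small_det (n s : ℕ) (hs : 5 ≤ s ∧ s ≤ 20 ∨ s = 32) (hn : 2 * s < n)
    (h1 : (n, s) ≠ (27, 6)) (h2 : (n, s) ≠ (32, 10)) (h3 : (n, s) ≠ (147, 14)) :
    Det n s :=
  det n s fun k => small_G n s k hs hn h1 h2 h3

theorem pow_det (e n : ℕ) (he : 3 ≤ e) (hn : 2 ^ e < n) (h : ¬ Det n (2 ^ e)) :
    n ∣ 2 ^ (3 * e - 3) * oddLcm (2 ^ e) := by
  by_contra hd
  exact h (det n _ fun k hk => hd (tg_lcm e n k he hn hk))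

theorem four_det (n s c : ℕ) (h4 : 4 ∣ s) (h8 : 8 ≤ s) (hn : s < n) (h : ¬ Det n s)
    (hc : 2 ^ c ∣ n) : 2 ^ c ≤ s ^ 3 := by
  by_contra hd
  exact h (det n _ fun k hk => hd (tg_four s n k c h4 h8 (by omega) hk hc))

end Pool.Agent.H33.SMP
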