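import Pool.Agent.H33.SMP.MM

/-!
# Two unbounded exponents
-/

set_option autoImplicit false

namespace Pool.Agent.H33.SMP

open Pool.Agent.H33.SMS (G Det Crit)

theorem dich_ne (s q e φ l t K0 n K : ℕ) (hs : 2 ≤ s) (hq : q.Prime) (he : 1 ≤ e)
    (hqs : q ^ e ∣ s) (hφ : q ^ φ ∣ (s - 1).factorial) (hsl : s ≤ q ^ (l + 1)) (hlK : l ≤ K0)
    (h0 : q ^ t * ((s - 1) * 2 ^ K0 + s) ≤ q ^ (e * K0 + 1)) (hK : K0 ≤ K) (hn : 1 ≤ n)
    (h6 : q ^ (l + t) ∣ n) (hQ : ¬ q ^ (φ + t) ∣ LL s K) : G n s K ≠ 0 := by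
  intro hG
  have h7 := yc_dich q e φ l t s n K hq he hqs hφ hsl (by omega) hn hs h6 hQ hG
  have h8 : q ^ (e * K + 1) ≤ n * q ^ t :=
    Nat.le_of_dvd (Nat.mul_pos (by omega) (pow_pos hq.pos t)) h7
  have h9 := mn_size q e t s K0 hq.two_le he h0 K hK
  have h10 : n < (s - 1) * 2 ^ K + s := by
    by_contra h10
    exact pf_UP s _ K hs (by omega) hG
  have h11 : n * q ^ t < q ^ t * ((s - 1) * 2 ^ K + s) := by
    rw [mul_comm]
    exact Nat.mul_lt_mul_of_pos_left h10 (pow_pos hq.pos t)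
  omega

theorem mq_D2 (p q n M : ℕ) (hn : n ≠ 0) (hp : p.Prime) (hq : q.Prime)
    (h : ∀ r k, r.Prime → r ≠ p → r ≠ q → r ^ k ∣ n → r ^ k ∣ M) :
    ∃ a b m, m ∣ M ∧ n = m * p ^ a * q ^ b := by
  obtain ⟨b, m, hm, rfl⟩ := Nat.exists_eq_pow_mul_and_not_dvd hn q hq.ne_one
  have hm0 : m ≠ 0 := by
    rintro rfl
    simp at hn
  obtain ⟨a, u, hu, rfl⟩ := Nat.exists_eq_pow_mul_and_not_dvd hm0 p hp.ne_one
  refine ⟨a, b, u, ?_, by ring⟩
  rw [Nat.dvd_iff_prime_pow_dvd_dvd]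
  intro r k hr hk
  rcases Nat.eq_zero_or_pos k with h0 | h0
  · subst h0
    simp
  · refine h r k hr ?_ ?_ (hk.trans ((dvd_mul_left _ _).trans (dvd_mul_left _ _)))
    · rintro rfl
      exact hu ((dvd_pow_self r (by omega)).trans hk)
    · rintro rfl
      exact hm ((dvd_pow_self r (by omega)).trans (hk.trans (dvd_mul_left _ _)))

theorem mm_two (s p q lamB : ℕ) (BB D : List ℕ) (L : List Sm) (U : List (ℕ × ℕ × Bool))
    (hU : tbl s = U) (hs : 2 ≤ s) (hok : L.all (okM s p q lamB BB) = true)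
    (hch : (D.all fun d => cq U p q d L 1 0 1 0 1 0) = true) (d c b K : ℕ) (hd : d ∈ D)
    (hn : s < d * p ^ c * q ^ b) (hB : K % lamB ∈ BB) : G (d * p ^ c * q ^ b) s K ≠ 0 := by
  subst hU
  rw [List.all_eq_true] at hch
  exact pf_CQ s p q d lamB BB hs L 1 0 1 0 1 0 one_pos one_pos one_pos hok (hch d hd) K c b
    hB hn (Nat.modEq_one) (Nat.modEq_one) (Nat.modEq_one)

end Pool.Agent.H33.SMP
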