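import Pool.Agent.H33.SMP.CQ

/-!
# The scheme with bit masks
-/

set_option autoImplicit false

namespace Pool.Agent.H33.SMP

open Pool.Agent.H33.SMS (G Det Crit)

/-- The scheme. -/
theorem mm_scheme (s q e φ l t lamB K0 f : ℕ) (BB D : List ℕ) (L : List Sm)
    (T : List (ℕ × ℕ × List (ℕ × ℕ × ℕ × ℕ))) (E : List ℕ)
    (U : List (ℕ × ℕ × Bool)) (hU : tbl s = U) (ex : ℕ → ℕ → Bool) (hs : 2 ≤ s) (hr : s < 1000003) (hq : q.Prime) (he : 1 ≤ e)
    (hqs : q ^ e ∣ s) (hφ : q ^ φ ∣ (s - 1).factorial) (hsl : s ≤ q ^ (l + 1)) (hlK : l ≤ K0)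
    (h0 : q ^ t * ((s - 1) * 2 ^ K0 + s) ≤ q ^ (e * K0 + 1))
    (hT : (T.all fun x => krok s x.1 x.2.1 x.2.2) = true)
    (hE : (E.all fun n => fin1 1000003 s n ex f 0) = true)
    (h2 : ((List.range (l + t)).all fun c => D.all fun d => leaf s T E (d * q ^ c)) = true)
    (hB : ∀ K, K0 ≤ K → q ^ (φ + t) ∣ LL s K → K % lamB ∈ BB)
    (hok : L.all (okM s q 1 lamB BB) = true)
    (hch : (D.all fun d => cq U q 1 d L 1 0 1 0 1 0) = true) :
    ∀ n K, K0 ≤ K → 2 * s < n → (∃ c d, d ∈ D ∧ n = d * q ^ c) → ex n K = false →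
      G n s K ≠ 0 := by
  subst hU
  rintro n K hK hn ⟨c, d, hd, rfl⟩ hex hG
  rw [List.all_eq_true] at h2 hch
  rcases Nat.lt_or_ge c (l + t) with hc | hc
  · have h3 := h2 c (List.mem_range.2 hc)
    rw [List.all_eq_true] at h3
    exact leaf_ex s _ f ex T E hs hr hT hE hn (h3 d hd) K hex hG
  by_cases hQ : q ^ (φ + t) ∣ LL s K
  · have hk := hB K hK hQ
    have h5 := pf_CQ s q 1 d lamB BB hs L 1 0 1 0 1 0 one_pos one_pos one_pos hok (hch d hd) K c 0
      hk (by rw [one_pow, mul_one]; omega) (Nat.modEq_one) (Nat.modEq_one) (Nat.modEq_one)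
    rw [one_pow, mul_one] at h5
    exact h5 hG
  · have h6 : q ^ (l + t) ∣ d * q ^ c := (pow_dvd_pow q hc).trans (dvd_mul_left _ _)
    have h7 := yc_dich q e φ l t s (d * q ^ c) K hq he hqs hφ hsl (by omega) (by omega) hs h6 hQ hG
    have h8 : q ^ (e * K + 1) ≤ d * q ^ c * q ^ t :=
      Nat.le_of_dvd (Nat.mul_pos (by omega) (pow_pos hq.pos t)) h7
    have h9 := mn_size q e t s K0 hq.two_le he h0 K hK
    have h10 : d * q ^ c < (s - 1) * 2 ^ K + s := by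
      by_contra h10
      exact pf_UP s _ K hs (by omega) hG
    have h11 : d * q ^ c * q ^ t < q ^ t * ((s - 1) * 2 ^ K + s) := by
      rw [mul_comm]
      exact Nat.mul_lt_mul_of_pos_left h10 (pow_pos hq.pos t)
    omega

end Pool.Agent.H33.SMP
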