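import Pool.Agent.H33.SMP.FIN

/-!
# The general scheme for one `s`
-/

set_option autoImplicit false

namespace Pool.Agent.H33.SMP

open Pool.Agent.H33.SMS (G)

theorem mn_size (q e t s K0 : ℕ) (hq : 2 ≤ q) (he : 1 ≤ e)
    (h0 : q ^ t * ((s - 1) * 2 ^ K0 + s) ≤ q ^ (e * K0 + 1)) :
    ∀ K, K0 ≤ K → q ^ t * ((s - 1) * 2 ^ K + s) ≤ q ^ (e * K + 1) := by
  intro K hK
  induction K, hK using Nat.le_induction with
  | base => exact h0
  | succ K _ ih =>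
    have h1 : q ^ t * ((s - 1) * 2 ^ (K + 1) + s) ≤ 2 * (q ^ t * ((s - 1) * 2 ^ K + s)) := by
      rw [pow_succ]
      have : 0 ≤ q ^ t * s := Nat.zero_le _
      nlinarith
    have h2 : q ^ (e * (K + 1) + 1) = q ^ e * q ^ (e * K + 1) := by
      rw [← pow_add]
      congr 1
      ring
    have h3 : 2 ≤ q ^ e := by
      calc 2 ≤ q := hq
        _ = q ^ 1 := (pow_one q).symm
        _ ≤ q ^ e := Nat.pow_le_pow_right (by omega) he
    rw [h2]
    calc q ^ t * ((s - 1) * 2 ^ (K + 1) + s) ≤ 2 * (q ^ t * ((s - 1) * 2 ^ K + s)) := h1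
      _ ≤ q ^ e * q ^ (e * K + 1) := Nat.mul_le_mul h3 ih

/-- The scheme. -/
theorem mn_scheme (s q e φ l t κ ρ lam K0 r f : ℕ) (B D : List ℕ) (L : List Stp)
    (ex : ℕ → ℕ → Bool) (hs : 2 ≤ s) (hq : q.Prime) (he : 1 ≤ e) (hqs : q ^ e ∣ s)
    (hφ : q ^ φ ∣ (s - 1).factorial) (hsl : s ≤ q ^ (l + 1)) (hlK : l ≤ K0) (hκ : κ ≤ K0)
    (hr : s < r) (hρ : 0 < ρ) (hlam : 0 < lam)
    (h0 : q ^ t * ((s - 1) * 2 ^ K0 + s) ≤ q ^ (e * K0 + 1))
    (hdiv : ∀ n K, G n s K = 0 → n ∣ (s - 1).factorial * s ^ K)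
    (h2 : fin2 r s q f (l + t) D ex = true)
    (h3 : fin3 r s K0 ex = true)
    (h4 : fin4 s (q ^ (φ + t)) κ ρ lam B = true)
    (hok : L.all (okT s q) = true)
    (hch : (B.all fun k => D.all fun d => chk (tbl s) q d L lam k 1 0) = true) :
    ∀ n K, 2 * s < n → (∃ c d, d ∈ D ∧ n = d * q ^ c) → ex n K = false → G n s K ≠ 0 := by
  rintro n K hn ⟨c, d, hd, rfl⟩ hex hG
  rcases Nat.lt_or_ge K K0 with hK | hK
  · exact fin_three r s K0 ex hs hr h3 hdiv _ K hK hn hex hG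
  rcases Nat.lt_or_ge c (l + t) with hc | hc
  · exact fin_two r s q f (l + t) D ex hs hr h2 c d hc hd hn K hex hG
  by_cases hQ : q ^ (φ + t) ∣ LL s K
  · have hk := fin_four s (q ^ (φ + t)) κ ρ lam B hρ h4 K (by omega) hQ
    rw [List.all_eq_true] at hch
    have h5 := hch _ hk
    rw [List.all_eq_true] at h5
    exact pf_CHK s q d L lam (K % lam) 1 0 hs hlam one_pos hok (h5 d hd) K c
      (Nat.mod_modEq K lam).symm (Nat.modEq_one) hG
  · have h6 : q ^ (l + t) ∣ d * q ^ c := (pow_dvd_pow q hc).trans (dvd_mul_left _ _)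
    have h7 := yc_dich q e φ l t s (d * q ^ c) K hq he hqs hφ hsl (by omega) (by omega) hs h6 hQ hG
    have h8 : q ^ (e * K + 1) ≤ d * q ^ c * q ^ t :=
      Nat.le_of_dvd (Nat.mul_pos (by omega) (pow_pos hq.pos t)) h7
    have h9 := mn_size q e t s K0 hq.two_le he h0 K hK
    have h10 : d * q ^ c < (s - 1) * 2 ^ K + s := by
      by_contra h10
      exact pf_UP s _ K hs (by omega) hG
    have h11 : d * q ^ c * q ^ t < q ^ t * ((s - 1) * 2 ^ K + s) := by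
      rw [mul_comm]
      exact Nat.mul_lt_mul_of_pos_left h10 (pow_pos hq.pos t)
    omega

/-- The top root for `s = 2 * odd`. -/
theorem mn_top (φ l s m K : ℕ) (hs : 2 ≤ s) (h2 : 2 ∣ s) (hφ : 2 ^ φ ∣ (s - 1).factorial)
    (hsl : s ≤ 2 ^ (l + 1)) (hlK : l ≤ K) (hm : 1 ≤ m) (hG : G (m * 2 ^ K) s K = 0) :
    (2 : ℤ) ^ (φ + (K - l)) ∣ (m : ℤ) * (LL s K : ℤ) -
      ((s - 1).factorial : ℤ) * ((s / 2 : ℕ) : ℤ) ^ K := by
  obtain ⟨Y, hY1, hY2⟩ := pf_YC 2 φ l (K - l) s (m * 2 ^ K) K Nat.prime_two h2 hφ hsl hlK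
    (Nat.mul_pos hm (by positivity)) hs
    ((pow_dvd_pow 2 (by omega)).trans (dvd_mul_left _ _)) hG
  have h1 : (m : ℤ) * Y = ((s - 1).factorial : ℤ) * ((s / 2 : ℕ) : ℤ) ^ K := by
    have e : (s : ℤ) = 2 * ((s / 2 : ℕ) : ℤ) := by omega
    rw [e, mul_pow] at hY1
    push_cast at hY1
    have h3 : (2 : ℤ) ^ K ≠ 0 := by positivity
    apply mul_left_cancel₀ h3
    push_cast
    linear_combination hY1
  rw [← h1]
  have h4 : (m : ℤ) * (LL s K : ℤ) - (m : ℤ) * Y = -((m : ℤ) * (Y - LL s K)) := by ring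
  rw [h4]
  push_cast at hY2
  exact ((hY2.mul_left _)).neg_right

end Pool.Agent.H33.SMP
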