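import Pool.Agent.H33.SMP.CK

/-!
# The scheme with the criterion
-/

set_option autoImplicit false

namespace Pool.Agent.H33.SMP

open Pool.Agent.H33.SMS (G Det Crit)

theorem leaf_ex (s n f : ℕ) (ex : ℕ → ℕ → Bool) (T : List (ℕ × ℕ × List (ℕ × ℕ × ℕ × ℕ)))
    (E : List ℕ) (hs : 2 ≤ s) (hr : s < 1000003)
    (hT : (T.all fun x => krok s x.1 x.2.1 x.2.2) = true)
    (hE : (E.all fun n => fin1 1000003 s n ex f 0) = true) (hn : 2 * s < n)
    (h : leaf s T E n = true) (K : ℕ) (hex : ex n K = false) : G n s K ≠ 0 := by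
  simp only [leaf, Bool.or_eq_true, decide_eq_true_eq, List.any_eq_true,
    List.contains_iff_mem] at h
  rw [List.all_eq_true] at hT hE
  rcases h with (h | ⟨x, hx, h⟩) | h
  · omega
  · exact kr_ne s x.1 x.2.1 n x.2.2 (hT x hx) (by omega) h K
  · exact fin_one 1000003 s n _ hs hr f 0 (hE n h) K (Nat.zero_le _) hex

/-- All numbers below `s` prime to `s` divide `M`. -/
def copr (s M : ℕ) : Bool :=
  (List.range s).all fun x => x == 0 || Nat.gcd x s != 1 || M % x == 0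

theorem mq_pp (s n K M p k : ℕ) (hs : 1 ≤ s) (hc : copr s M = true) (hsn : s < n)
    (hG : G n s K = 0) (hp : p.Prime) (hps : ¬ p ∣ s) (hk : p ^ k ∣ n) : p ^ k ∣ M := by
  have h1 : p ^ k < s := by
    by_contra h
    exact tg_prime p k n s hp hps hsn hk hs (by omega) K hG
  simp only [copr, List.all_eq_true, List.mem_range, Bool.or_eq_true, beq_iff_eq, bne_iff_ne,
    ne_eq] at hc
  rcases hc _ h1 with (h2 | h2) | h2
  · exact absurd h2 (pow_ne_zero _ hp.ne_zero)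
  · exact absurd (Nat.Coprime.pow_left k ((Nat.Prime.coprime_iff_not_dvd hp).2 hps)) h2
  · exact Nat.dvd_of_mod_eq_zero h2

theorem mq_D (q n M : ℕ) (hn : n ≠ 0) (hq : q.Prime)
    (h : ∀ p k, p.Prime → p ≠ q → p ^ k ∣ n → p ^ k ∣ M) :
    ∃ c m, m ∣ M ∧ n = m * q ^ c := by
  obtain ⟨c, m, hm, rfl⟩ := Nat.exists_eq_pow_mul_and_not_dvd hn q hq.ne_one
  refine ⟨c, m, ?_, by ring⟩
  rw [Nat.dvd_iff_prime_pow_dvd_dvd]
  intro p k hp hk
  rcases Nat.eq_zero_or_pos k with h0 | h0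
  · subst h0
    simp
  · refine h p k hp ?_ (hk.trans (dvd_mul_left _ _))
    rintro rfl
    exact hm ((dvd_pow_self p (by omega)).trans hk)

/-- The list of divisors. -/
theorem mq_mem (D : List ℕ) (PL : List (ℕ × ℕ)) (m : ℕ) (hP : (PL.all fun x => isP x.1) = true)
    (h : enu PL 1 (fun m => D.contains m) = true)
    (hm : m ∣ (PL.map fun x => x.1 ^ x.2).prod) : m ∈ D := by
  have h1 := enu_ok (fun m => D.contains m) PL 1 m (fun x hx => isP_prime _
    (List.all_eq_true.1 hP x hx)) h hm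
  rw [one_mul] at h1
  exact List.contains_iff_mem.1 h1

/-- The scheme. -/
theorem mq_scheme (s q e φ l t lamB K0 f : ℕ) (BB D : List ℕ) (L : List Sq)
    (T : List (ℕ × ℕ × List (ℕ × ℕ × ℕ × ℕ))) (E : List ℕ)
    (ex : ℕ → ℕ → Bool) (hs : 2 ≤ s) (hr : s < 1000003) (hq : q.Prime) (he : 1 ≤ e)
    (hqs : q ^ e ∣ s) (hφ : q ^ φ ∣ (s - 1).factorial) (hsl : s ≤ q ^ (l + 1)) (hlK : l ≤ K0)
    (h0 : q ^ t * ((s - 1) * 2 ^ K0 + s) ≤ q ^ (e * K0 + 1))
    (hT : (T.all fun x => krok s x.1 x.2.1 x.2.2) = true)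
    (hE : (E.all fun n => fin1 1000003 s n ex f 0) = true)
    (h2 : ((List.range (l + t)).all fun c => D.all fun d => leaf s T E (d * q ^ c)) = true)
    (hB : ∀ K, K0 ≤ K → q ^ (φ + t) ∣ LL s K → K % lamB ∈ BB)
    (hok : L.all (okS s q 1 lamB BB) = true)
    (hch : (D.all fun d => ck (tbl s) q 1 d L 1 0 1 0 1 0) = true) :
    ∀ n K, K0 ≤ K → 2 * s < n → (∃ c d, d ∈ D ∧ n = d * q ^ c) → ex n K = false →
      G n s K ≠ 0 := by
  rintro n K hK hn ⟨c, d, hd, rfl⟩ hex hG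
  rw [List.all_eq_true] at h2 hch
  rcases Nat.lt_or_ge c (l + t) with hc | hc
  · have h3 := h2 c (List.mem_range.2 hc)
    rw [List.all_eq_true] at h3
    exact leaf_ex s _ f ex T E hs hr hT hE hn (h3 d hd) K hex hG
  by_cases hQ : q ^ (φ + t) ∣ LL s K
  · have hk := hB K hK hQ
    have h5 := pf_CK s q 1 d lamB BB hs L 1 0 1 0 1 0 one_pos one_pos one_pos hok (hch d hd) K c 0
      hk (by rw [one_pow, mul_one]; omega) (Nat.modEq_one) (Nat.modEq_one) (Nat.modEq_one)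
    rw [one_pow, mul_one] at h5
    exact h5 hG
  · have h6 : q ^ (l + t) ∣ d * q ^ c := (pow_dvd_pow q hc).trans (dvd_mul_left _ _)
    have h7 := yc_dich q e φ l t s (d * q ^ c) K hq he hqs hφ hsl (by omega) (by omega) hs h6 hQ hG
    have h8 : q ^ (e * K + 1) ≤ d * q ^ c * q ^ t :=
      Nat.le_of_dvd (Nat.mul_pos (by omega) (pow_pos hq.pos t)) h7
    have h9 := mn_size q e t s K0 hq.two_le he h0 K hK
    have h10 : d * q ^ c < (s - 1) * 2 ^ K + s := by
      by_contra h10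
      exact pf_UP s _ K hs (by omega) hG
    have h11 : d * q ^ c * q ^ t < q ^ t * ((s - 1) * 2 ^ K + s) := by
      rw [mul_comm]
      exact Nat.mul_lt_mul_of_pos_left h10 (pow_pos hq.pos t)
    omega

end Pool.Agent.H33.SMP
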