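import Pool.Agent.H33.SMP.S10T

/-!
# `s = 10`, the bad classes
-/

set_option autoImplicit false

namespace Pool.Agent.H33.SMP

theorem s10_l1 : fin9 W10 (5 ^ (1 + 1)) 2 4 1 [0] 4 B10_1 = true := by
  decide +kernel

theorem s10_l2 : fin9 W10 (5 ^ (1 + 2)) 3 20 4 B10_1 20 B10_2 = true := by
  decide +kernel

theorem s10_l3 : fin9 W10 (5 ^ (1 + 3)) 4 100 20 B10_2 100 B10_3 = true := by
  decide +kernel

theorem s10_l4 : fin9 W10 (5 ^ (1 + 4)) 5 500 100 B10_3 500 B10_4 = true := by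
  decide +kernel

theorem s10_B (K : ℕ) (hK : 9 ≤ K) (hQ : 5 ^ (1 + 4) ∣ LL 10 K) : K % 500 ∈ B10_4 := by
  have h1 := fin_nine 10 (5 ^ (1 + 1)) 2 4 1 4 W10 _ _ s10_W s10_l1 K (by omega) (by simp
        [Nat.mod_one])
    ((pow_dvd_pow 5 (by norm_num)).trans hQ)
  have h2 := fin_nine 10 (5 ^ (1 + 2)) 3 20 4 20 W10 _ _ s10_W s10_l2 K (by omega) h1
    ((pow_dvd_pow 5 (by norm_num)).trans hQ)
  have h3 := fin_nine 10 (5 ^ (1 + 3)) 4 100 20 100 W10 _ _ s10_W s10_l3 K (by omega) h2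
    ((pow_dvd_pow 5 (by norm_num)).trans hQ)
  have h4 := fin_nine 10 (5 ^ (1 + 4)) 5 500 100 500 W10 _ _ s10_W s10_l4 K (by omega) h3
    ((pow_dvd_pow 5 (by norm_num)).trans hQ)
  exact h4

end Pool.Agent.H33.SMP
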