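import Pool.Agent.H33.SMP.MM

/-!
# `s = 10`, tables
-/

set_option autoImplicit false

namespace Pool.Agent.H33.SMP

def ex10 (n K : ℕ) : Bool := (n == 32 && K == 5)

def T10 : List (ℕ × ℕ × List (ℕ × ℕ × ℕ × ℕ)) := [
  (7, 1, [(7, 1, 1, 2), (49, 2, 3, 9)]),
  (3, 1, [(27, 3, 1, 3), (81, 4, 4, 6), (243, 5, 7, 9)]),
  (3, 2, [(81, 4, 1, 3), (243, 5, 4, 6), (729, 6, 7, 9)])]

def D10a : List ℕ := [1, 2, 4, 8, 7, 14, 28, 56, 3, 6, 12, 24, 21, 42, 84, 168, 9, 18, 36, 72,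
  63, 126, 252, 504]

def D10 : List ℕ := D10a

def M10 : List (ℕ × ℕ) := [(3, 2), (7, 1), (2, 3)]

def N10 : List (ℕ × ℕ) := [(2, 11), (3, 2), (5, 4), (7, 1)]

def B10_1 : List ℕ := [0, 2, 3]

def B10_2 : List ℕ := [0, 4, 8, 11, 12, 14, 16]

def B10_3 : List ℕ := [4, 12, 24, 32, 44, 52, 64, 71, 72, 74, 84, 92]

def B10_4 : List ℕ := [24, 32, 71, 124, 132, 224, 232, 324, 332, 374, 424, 432]

def L10 : List Sm := [Sm.C 2, Sm.P 3 2 2 1 [(27, 3, 1, 9)], Sm.C 3, Sm.P 7 1 6 1 [(7, 1, 1, 2),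
  (49, 2, 3, 9)], Sm.P 3 2 6 1 [(81, 4, 1, 9)], Sm.P 3 1 6 1 [(27, 3, 1, 9)], Sm.K 4, Sm.R 4
  [13], Sm.K 5, Sm.R 20 [22544], Sm.K 3, Sm.T 31 30 3 1, Sm.C 2, Sm.T 13 12 4 1, Sm.C 5, Sm.T 61
  60 30 1, Sm.K 5, Sm.R 100 [21250649172917715206144], Sm.K 2, Sm.T 601 600 12 1, Sm.K 5, Sm.T
  41 40 20 1]

def U10 : List (ℕ × ℕ × Bool) := [(10, 362880, false), (9, 362880, true), (8, 181440, false),
  (7, 60480, true), (6, 15120, false), (5, 3024, true), (4, 504, false), (3, 72, true), (2, 9,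
  false), (1, 1, true)]

def W10 : List (ℕ × ℕ) := [(362880, 9), (181440, 8), (120960, 7), (90720, 6), (72576, 5),
  (60480, 4), (51840, 3), (45360, 2), (40320, 1)]

theorem s10_U : tbl 10 = U10 := by decide +kernel

theorem s10_W : wts 10 = W10 := by decide +kernel

def E10a : List ℕ := [25, 30, 40, 50, 56, 100, 125, 200, 250, 300, 350, 500, 625, 840, 1000,
  1250, 2500, 3000, 5000, 17500]

def E10 : List ℕ := E10a

theorem s10_T : (T10.all fun x => krok 10 x.1 x.2.1 x.2.2) = true := by decide +kernel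

theorem s10_M : (M10.all fun x => isP x.1) = true := by decide +kernel

theorem s10_N : (N10.all fun x => isP x.1) = true := by decide +kernel

theorem s10_D : enu M10 1 (fun m => D10.contains m) = true := by decide +kernel

theorem s10_c : copr 10 (N10.map fun x => x.1 ^ x.2).prod = true := by decide +kernel

theorem s10_q : qpw 10 2314 (N10.map fun x => x.1 ^ x.2).prod = true := by decide +kernel

theorem s10_d : copr 10 (M10.map fun x => x.1 ^ x.2).prod = true := by decide +kernel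

theorem s10_ok : L10.all (okM 10 5 1 500 B10_4) = true := by decide +kernel

end Pool.Agent.H33.SMP
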