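import Pool.Agent.H33.SMP.S11T

/-!
# `s = 11`, the bad classes
-/

set_option autoImplicit false

namespace Pool.Agent.H33.SMP

theorem s11_l1 : fin9 W11 (11 ^ (0 + 1)) 0 10 1 [0] 10 B11_1 = true := by
  decide +kernel

theorem s11_l2 : fin9 W11 (11 ^ (0 + 2)) 0 110 10 B11_1 110 B11_2 = true := by
  decide +kernel

theorem s11_l3 : fin9 W11 (11 ^ (0 + 3)) 0 1210 110 B11_2 1210 B11_3 = true := by
  decide +kernel

theorem s11_l4 : fin9 W11 (11 ^ (0 + 4)) 0 13310 1210 B11_3 13310 B11_4 = true := by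
  decide +kernel

theorem s11_B (K : ℕ) (hK : 6 ≤ K) (hQ : 11 ^ (0 + 4) ∣ LL 11 K) : K % 13310 ∈ B11_4 := by
  have h1 := fin_nine 11 (11 ^ (0 + 1)) 0 10 1 10 W11 _ _ s11_W s11_l1 K (by omega) (by simp
        [Nat.mod_one])
    ((pow_dvd_pow 11 (by norm_num)).trans hQ)
  have h2 := fin_nine 11 (11 ^ (0 + 2)) 0 110 10 110 W11 _ _ s11_W s11_l2 K (by omega) h1
    ((pow_dvd_pow 11 (by norm_num)).trans hQ)
  have h3 := fin_nine 11 (11 ^ (0 + 3)) 0 1210 110 1210 W11 _ _ s11_W s11_l3 K (by omega) h2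
    ((pow_dvd_pow 11 (by norm_num)).trans hQ)
  have h4 := fin_nine 11 (11 ^ (0 + 4)) 0 13310 1210 13310 W11 _ _ s11_W s11_l4 K (by omega) h3
    ((pow_dvd_pow 11 (by norm_num)).trans hQ)
  exact h4

end Pool.Agent.H33.SMP
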