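import Pool.Agent.H33.SMP.MM

/-!
# `s = 11`, tables
-/

set_option autoImplicit false

namespace Pool.Agent.H33.SMP

def T11 : List (ℕ × ℕ × List (ℕ × ℕ × ℕ × ℕ)) := [
  (7, 1, [(7, 1, 1, 3), (49, 2, 4, 10)]),
  (5, 1, [(25, 2, 1, 5), (125, 3, 6, 10)]),
  (3, 1, [(3, 1, 1, 1), (27, 3, 2, 4), (81, 4, 5, 7), (243, 5, 8, 10)]),
  (3, 2, [(9, 2, 1, 1), (81, 4, 2, 4), (243, 5, 5, 7), (729, 6, 8, 10)])]

def D11a1 : List ℕ := [1, 7, 5, 35, 3, 21, 15, 105]

def D11a2 : List ℕ := [9, 63, 45, 315, 2, 14, 10, 70]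

def D11a3 : List ℕ := [6, 42, 30, 210, 18, 126, 90, 630, 4, 28, 20, 140, 12, 84, 60, 420, 36,
  252, 180, 1260, 8, 56, 40, 280, 24, 168, 120, 840, 72, 504, 360, 2520]

def D11a : List ℕ := D11a1 ++ D11a2 ++ D11a3

def D11 : List ℕ := D11a

def M11 : List (ℕ × ℕ) := [(2, 3), (3, 2), (5, 1), (7, 1)]

def N11 : List (ℕ × ℕ) := [(2, 3), (3, 2), (5, 1), (7, 1), (11, 2)]

def B11_1 : List ℕ := [0, 2, 3, 4, 5, 6, 7, 8, 9]

def B11_2 : List ℕ := [0, 4, 6, 8, 10, 14, 16, 18, 20, 23, 24, 26, 28, 30, 32, 34, 36, 38, 40,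
  44, 45, 46, 48, 50, 54, 56, 58, 60, 64, 66, 67, 68, 70, 74, 76, 78, 80, 84, 86, 88, 89, 90,
  94, 96, 98, 100, 104, 106, 108]

def B11_3 : List ℕ := [10, 24, 46, 54, 68, 76, 90, 98, 120, 134, 156, 164, 178, 186, 200, 208,
  230, 244, 266, 274, 288, 296, 310, 318, 340, 354, 362, 376, 384, 398, 406, 420, 428, 450, 464,
  485, 486, 494, 508, 516, 530, 538, 560, 574, 596, 604, 618, 626, 640, 648, 670, 684, 706, 714,
  727, 728, 736, 750, 758, 780, 793, 794, 816, 824, 838, 846, 860, 868, 890, 904, 926, 934, 948,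
  956, 969, 970, 978, 1000, 1014, 1036, 1044, 1058, 1066, 1080, 1088, 1110, 1124, 1146, 1154,
  1168, 1176, 1190, 1198]

def B11_4 : List ℕ := [120, 486, 604, 728, 846, 970, 1014, 1088, 1330, 1696, 1814, 1938, 2056,
  2180, 2224, 2298, 2540, 2906, 3024, 3148, 3266, 3390, 3434, 3508, 3750, 3992, 4115, 4116,
  4234, 4358, 4476, 4600, 4644, 4718, 4960, 5326, 5444, 5568, 5686, 5810, 5854, 5928, 6170,
  6536, 6654, 6778, 6896, 7020, 7064, 7138, 7380, 7746, 7864, 7988, 8106, 8230, 8274, 8348,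
  8590, 8956, 9074, 9197, 9198, 9316, 9440, 9484, 9558, 9800, 10166, 10284, 10408, 10526, 10650,
  10694, 10768, 11010, 11376, 11494, 11618, 11736, 11860, 11904, 11978, 12220, 12586, 12704,
  12828, 12893, 12946, 13069, 13070, 13114, 13188]

def L11 : List Sm := [Sm.P 5 1 1 1 [(25, 2, 1, 10)], Sm.C 2, Sm.P 3 2 2 1 [(9, 2, 1, 1), (27, 3,
  2, 10)], Sm.P 2 3 2 1 [(16, 4, 1, 2), (64, 6, 3, 10)], Sm.P 2 2 2 1 [(8, 3, 1, 2), (32, 5, 3,
  10)], Sm.C 2, Sm.P 2 3 4 1 [(16, 4, 1, 2), (128, 7, 3, 10)], Sm.P 2 2 4 1 [(8, 3, 1, 2), (64,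
  6, 3, 10)], Sm.C 3, Sm.P 7 1 3 1 [(7, 1, 1, 3), (49, 2, 4, 10)], Sm.P 3 2 6 1 [(9, 2, 1, 1),
  (81, 4, 2, 10)], Sm.P 3 1 6 1 [(3, 1, 1, 1), (27, 3, 2, 10)], Sm.K 10, Sm.R 10 [1021], Sm.K
  11, Sm.R 110 [318769636116589124425823028224], Sm.K 6, Sm.T 61 60 4 1, Sm.T 13 12 12 1, Sm.K
  3, Sm.T 37 36 6 1, Sm.T 19 18 3 1, Sm.C 11, Sm.T 661 660 33 1, Sm.K 11, Sm.R 1210
  [1329227995784915872903807060280344576,
  2588154880046461420288033448353884544750295502978501639881735589068800,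
  157968437502835780046877041525505648483294403257965187981062963200,
  113078212145826238721596593989200036785513016375655048769200397297066704896,
  18446744073709551616], Sm.T 1453 1452 33 1]

def U11 : List (ℕ × ℕ × Bool) := [(11, 3628800, true), (10, 3628800, false), (9, 1814400, true),
  (8, 604800, false), (7, 151200, true), (6, 30240, false), (5, 5040, true), (4, 720, false),
  (3, 90, true), (2, 10, false), (1, 1, true)]

def W11 : List (ℕ × ℕ) := [(3628800, 10), (1814400, 9), (1209600, 8), (907200, 7), (725760, 6),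
  (604800, 5), (518400, 4), (453600, 3), (403200, 2), (362880, 1)]

theorem s11_U : tbl 11 = U11 := by decide +kernel

theorem s11_W : wts 11 = W11 := by decide +kernel

def E11a : List ℕ := [30, 44, 55, 56, 88, 121, 154, 242, 330, 484, 605, 968, 1331, 2662, 3388,
  5324, 6655, 9317, 10648, 31944, 74536, 139755]

def E11 : List ℕ := E11a

theorem s11_T : (T11.all fun x => krok 11 x.1 x.2.1 x.2.2) = true := by decide +kernel

theorem s11_M : (M11.all fun x => isP x.1) = true := by decide +kernel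

theorem s11_N : (N11.all fun x => isP x.1) = true := by decide +kernel

theorem s11_D : enu M11 1 (fun m => D11.contains m) = true := by decide +kernel

theorem s11_c : copr 11 (N11.map fun x => x.1 ^ x.2).prod = true := by decide +kernel

theorem s11_q : qpw 11 331 (N11.map fun x => x.1 ^ x.2).prod = true := by decide +kernel

theorem s11_d : copr 11 (M11.map fun x => x.1 ^ x.2).prod = true := by decide +kernel

theorem s11_ok : L11.all (okM 11 11 1 13310 B11_4) = true := by decide +kernel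

end Pool.Agent.H33.SMP
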