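import Pool.Agent.H33.SMP.S12T

/-!
# `s = 12`, the bad classes
-/

set_option autoImplicit false

namespace Pool.Agent.H33.SMP

theorem s12_l1 : fin9 W12 (3 ^ (4 + 1)) 3 4 1 [0] 2 B12_1 = true := by
  decide +kernel

theorem s12_l2 : fin9 W12 (3 ^ (4 + 2)) 4 6 2 B12_1 6 B12_2 = true := by
  decide +kernel

theorem s12_l3 : fin9 W12 (3 ^ (4 + 3)) 5 18 6 B12_2 18 B12_3 = true := by
  decide +kernel

theorem s12_l4 : fin9 W12 (3 ^ (4 + 4)) 6 54 18 B12_3 54 B12_4 = true := by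
  decide +kernel

theorem s12_B (K : ℕ) (hK : 15 ≤ K) (hQ : 3 ^ (4 + 4) ∣ LL 12 K) : K % 54 ∈ B12_4 := by
  have h1 := fin_nine 12 (3 ^ (4 + 1)) 3 4 1 2 W12 _ _ s12_W s12_l1 K (by omega) (by simp
        [Nat.mod_one])
    ((pow_dvd_pow 3 (by norm_num)).trans hQ)
  have h2 := fin_nine 12 (3 ^ (4 + 2)) 4 6 2 6 W12 _ _ s12_W s12_l2 K (by omega) h1
    ((pow_dvd_pow 3 (by norm_num)).trans hQ)
  have h3 := fin_nine 12 (3 ^ (4 + 3)) 5 18 6 18 W12 _ _ s12_W s12_l3 K (by omega) h2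
    ((pow_dvd_pow 3 (by norm_num)).trans hQ)
  have h4 := fin_nine 12 (3 ^ (4 + 4)) 6 54 18 54 W12 _ _ s12_W s12_l4 K (by omega) h3
    ((pow_dvd_pow 3 (by norm_num)).trans hQ)
  exact h4

end Pool.Agent.H33.SMP
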