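import Pool.Agent.H33.SMP.MM

/-!
# `s = 12`, tables
-/

set_option autoImplicit false

namespace Pool.Agent.H33.SMP

def T12 : List (ℕ × ℕ × List (ℕ × ℕ × ℕ × ℕ)) := [
  (11, 1, [(121, 2, 1, 11)]),
  (7, 1, [(7, 1, 1, 4), (49, 2, 5, 11)]),
  (5, 1, [(5, 1, 1, 1), (25, 2, 2, 6), (125, 3, 7, 11)])]

def D12a : List ℕ := [1, 2, 4, 8, 16, 32, 11, 22, 44, 88, 176, 352, 7, 14, 28, 56, 112, 224, 77,
  154, 308, 616, 1232, 2464, 5, 10, 20, 40, 80, 160, 55, 110, 220, 440, 880, 1760, 35, 70, 140,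
  280, 560, 1120, 385, 770, 1540, 3080, 6160, 12320]

def D12 : List ℕ := D12a

def M12 : List (ℕ × ℕ) := [(5, 1), (7, 1), (11, 1), (2, 5)]

def N12 : List (ℕ × ℕ) := [(2, 17), (3, 11), (5, 1), (7, 1), (11, 1)]

def B12_1 : List ℕ := [0]

def B12_2 : List ℕ := [2]

def B12_3 : List ℕ := [8]

def B12_4 : List ℕ := [26]

def L12 : List Sm := [Sm.C 2, Sm.C 3, Sm.P 7 1 6 1 [(7, 1, 1, 4), (49, 2, 5, 11)], Sm.K 2, Sm.R
  2 [1], Sm.K 3, Sm.R 6 [4], Sm.K 3, Sm.R 18 [256], Sm.K 2, Sm.T 13 12 3 1, Sm.C 3, Sm.T 37 36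
  18 1, Sm.K 3, Sm.R 54 [67108864], Sm.T 19 18 18 1, Sm.C 3, Sm.T 109 108 27 1]

def U12 : List (ℕ × ℕ × Bool) := [(12, 39916800, false), (11, 39916800, true), (10, 19958400,
  false), (9, 6652800, true), (8, 1663200, false), (7, 332640, true), (6, 55440, false), (5,
  7920, true), (4, 990, false), (3, 110, true), (2, 11, false), (1, 1, true)]

def W12 : List (ℕ × ℕ) := [(39916800, 11), (19958400, 10), (13305600, 9), (9979200, 8),
  (7983360, 7), (6652800, 6), (5702400, 5), (4989600, 4), (4435200, 3), (3991680, 2), (3628800,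
  1)]

theorem s12_U : tbl 12 = U12 := by decide +kernel

theorem s12_W : wts 12 = W12 := by decide +kernel

def E12a1 : List ℕ := [27, 30, 32, 36, 48, 54, 56, 72, 80, 81, 96, 105, 108, 132, 135, 144, 162,
  180, 216, 243, 252, 288, 324, 405, 432, 480, 486, 648, 864, 972, 1080, 1134, 1296, 1584, 1944,
  2016, 2430, 2592, 2673, 3780, 3888, 6480, 7776, 9072, 17010, 38880]

def E12a2 : List ℕ := [71280, 136080]

def E12a : List ℕ := E12a1 ++ E12a2

def E12 : List ℕ := E12a

theorem s12_T : (T12.all fun x => krok 12 x.1 x.2.1 x.2.2) = true := by decide +kernel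

theorem s12_M : (M12.all fun x => isP x.1) = true := by decide +kernel

theorem s12_N : (N12.all fun x => isP x.1) = true := by decide +kernel

theorem s12_D : enu M12 1 (fun m => D12.contains m) = true := by decide +kernel

theorem s12_c : copr 12 (N12.map fun x => x.1 ^ x.2).prod = true := by decide +kernel

theorem s12_q : qpw 12 180236 (N12.map fun x => x.1 ^ x.2).prod = true := by decide +kernel

theorem s12_d : copr 12 (M12.map fun x => x.1 ^ x.2).prod = true := by decide +kernel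

theorem s12_ok : L12.all (okM 12 3 1 54 B12_4) = true := by decide +kernel

end Pool.Agent.H33.SMP
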