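import Pool.Agent.H33.SMP.S13T

/-!
# `s = 13`, the bad classes
-/

set_option autoImplicit false

namespace Pool.Agent.H33.SMP

theorem s13_l1 : fin9 W13 (13 ^ (0 + 1)) 0 12 1 [0] 12 B13_1 = true := by
  decide +kernel

theorem s13_l2 : fin9 W13 (13 ^ (0 + 2)) 0 156 12 B13_1 156 B13_2 = true := by
  decide +kernel

theorem s13_l3 : fin9 W13 (13 ^ (0 + 3)) 0 2028 156 B13_2 2028 B13_3 = true := by
  decide +kernel

def Q13_4_1 : List ℕ := [12, 28, 54, 64, 80, 90, 106, 116, 132, 142, 168, 184, 210, 220, 236,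
  246, 262, 272, 288, 298, 324, 340, 366, 376, 392, 402, 418, 428, 444, 454, 480, 496, 506, 522,
  532, 548, 558, 574, 584, 600, 610, 636, 652, 677, 678, 688, 704, 714, 730, 740, 756, 766, 792,
  808, 834, 844, 860, 870, 886, 896, 912, 922, 948, 964, 990, 1000, 1015, 1016]

theorem s13_l4_1 : fin9 W13 (13 ^ (0 + 4)) 0 26364 2028 Q13_4_1 26364 B13_4 = true := by
  decide +kernel

def Q13_4_2 : List ℕ := [1026, 1042, 1052, 1068, 1078, 1104, 1120, 1146, 1156, 1172, 1182, 1198,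
  1208, 1224, 1234, 1260, 1276, 1302, 1312, 1328, 1338, 1353, 1354, 1364, 1380, 1390, 1416,
  1431, 1432, 1458, 1468, 1484, 1494, 1510, 1520, 1536, 1546, 1572, 1588, 1614, 1624, 1640,
  1650, 1666, 1676, 1691, 1692, 1702, 1728, 1744, 1770, 1780, 1796, 1806, 1822, 1832, 1848,
  1858, 1884, 1900, 1926, 1936, 1952, 1962, 1978, 1988, 2004, 2014]

theorem s13_l4_2 : fin9 W13 (13 ^ (0 + 4)) 0 26364 2028 Q13_4_2 26364 B13_4 = true := by
  decide +kernel

theorem s13_l4 : fin9 W13 (13 ^ (0 + 4)) 0 26364 2028 B13_3 26364 B13_4 = true := by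
  have h : B13_3 = Q13_4_1 ++ Q13_4_2 := rfl
  rw [h]
  exact (fin9_append _ _ _ _ _ _ _ _ _ s13_l4_1 s13_l4_2)

theorem s13_B (K : ℕ) (hK : 6 ≤ K) (hQ : 13 ^ (0 + 4) ∣ LL 13 K) : K % 26364 ∈ B13_4 := by
  have h1 := fin_nine 13 (13 ^ (0 + 1)) 0 12 1 12 W13 _ _ s13_W s13_l1 K (by omega) (by simp
        [Nat.mod_one])
    ((pow_dvd_pow 13 (by norm_num)).trans hQ)
  have h2 := fin_nine 13 (13 ^ (0 + 2)) 0 156 12 156 W13 _ _ s13_W s13_l2 K (by omega) h1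
    ((pow_dvd_pow 13 (by norm_num)).trans hQ)
  have h3 := fin_nine 13 (13 ^ (0 + 3)) 0 2028 156 2028 W13 _ _ s13_W s13_l3 K (by omega) h2
    ((pow_dvd_pow 13 (by norm_num)).trans hQ)
  have h4 := fin_nine 13 (13 ^ (0 + 4)) 0 26364 2028 26364 W13 _ _ s13_W s13_l4 K (by omega) h3
    ((pow_dvd_pow 13 (by norm_num)).trans hQ)
  exact h4

end Pool.Agent.H33.SMP
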