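import Pool.Agent.H33.SMP.S14T

/-!
# `s = 14`, the bad classes
-/

set_option autoImplicit false

namespace Pool.Agent.H33.SMP

theorem s14_l1 : fin9 W14 (7 ^ (1 + 1)) 2 6 1 [0] 6 B14_1 = true := by
  decide +kernel

theorem s14_l2 : fin9 W14 (7 ^ (1 + 2)) 3 42 6 B14_1 42 B14_2 = true := by
  decide +kernel

theorem s14_l3 : fin9 W14 (7 ^ (1 + 3)) 4 294 42 B14_2 294 B14_3 = true := by
  decide +kernel

theorem s14_l4 : fin9 W14 (7 ^ (1 + 4)) 5 2058 294 B14_3 2058 B14_4 = true := by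
  decide +kernel

theorem s14_l5 : fin9 W14 (7 ^ (1 + 5)) 6 14406 2058 B14_4 14406 B14_5 = true := by
  decide +kernel

theorem s14_B (K : ℕ) (hK : 11 ≤ K) (hQ : 7 ^ (1 + 5) ∣ LL 14 K) : K % 14406 ∈ B14_5 := by
  have h1 := fin_nine 14 (7 ^ (1 + 1)) 2 6 1 6 W14 _ _ s14_W s14_l1 K (by omega) (by simp
        [Nat.mod_one])
    ((pow_dvd_pow 7 (by norm_num)).trans hQ)
  have h2 := fin_nine 14 (7 ^ (1 + 2)) 3 42 6 42 W14 _ _ s14_W s14_l2 K (by omega) h1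
    ((pow_dvd_pow 7 (by norm_num)).trans hQ)
  have h3 := fin_nine 14 (7 ^ (1 + 3)) 4 294 42 294 W14 _ _ s14_W s14_l3 K (by omega) h2
    ((pow_dvd_pow 7 (by norm_num)).trans hQ)
  have h4 := fin_nine 14 (7 ^ (1 + 4)) 5 2058 294 2058 W14 _ _ s14_W s14_l4 K (by omega) h3
    ((pow_dvd_pow 7 (by norm_num)).trans hQ)
  have h5 := fin_nine 14 (7 ^ (1 + 5)) 6 14406 2058 14406 W14 _ _ s14_W s14_l5 K (by omega) h4
    ((pow_dvd_pow 7 (by norm_num)).trans hQ)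
  exact h5

end Pool.Agent.H33.SMP
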