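import Pool.Agent.H33.SMP.S15T

/-!
# `s = 15`, the bad classes
-/

set_option autoImplicit false

namespace Pool.Agent.H33.SMP

theorem s15_x1 : fin9 W15 (3 ^ (5 + 1)) 3 4 1 [0] 2 Bx15_1 = true := by
  decide +kernel

theorem s15_x2 : fin9 W15 (3 ^ (5 + 2)) 4 6 2 Bx15_1 6 Bx15_2 = true := by
  decide +kernel

theorem s15_x3 : fin9 W15 (3 ^ (5 + 3)) 5 18 6 Bx15_2 18 Bx15_3 = true := by
  decide +kernel

theorem s15_x4 : fin9 W15 (3 ^ (5 + 4)) 6 54 18 Bx15_3 54 Bx15_4 = true := by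
  decide +kernel

theorem s15_x5 : fin9 W15 (3 ^ (5 + 5)) 7 162 54 Bx15_4 162 Bx15_5 = true := by
  decide +kernel

theorem s15_Bx (K : ℕ) (hK : 18 ≤ K) (hQ : 3 ^ (5 + 5) ∣ LL 15 K) : K % 162 ∈ Bx15_5 := by
  have h1 := fin_nine 15 (3 ^ (5 + 1)) 3 4 1 2 W15 _ _ s15_W s15_x1 K (by omega) (by simp
        [Nat.mod_one])
    ((pow_dvd_pow 3 (by norm_num)).trans hQ)
  have h2 := fin_nine 15 (3 ^ (5 + 2)) 4 6 2 6 W15 _ _ s15_W s15_x2 K (by omega) h1
    ((pow_dvd_pow 3 (by norm_num)).trans hQ)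
  have h3 := fin_nine 15 (3 ^ (5 + 3)) 5 18 6 18 W15 _ _ s15_W s15_x3 K (by omega) h2
    ((pow_dvd_pow 3 (by norm_num)).trans hQ)
  have h4 := fin_nine 15 (3 ^ (5 + 4)) 6 54 18 54 W15 _ _ s15_W s15_x4 K (by omega) h3
    ((pow_dvd_pow 3 (by norm_num)).trans hQ)
  have h5 := fin_nine 15 (3 ^ (5 + 5)) 7 162 54 162 W15 _ _ s15_W s15_x5 K (by omega) h4
    ((pow_dvd_pow 3 (by norm_num)).trans hQ)
  exact h5

theorem s15_y1 : fin9 W15 (5 ^ (2 + 1)) 2 4 1 [0] 4 By15_1 = true := by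
  decide +kernel

theorem s15_y2 : fin9 W15 (5 ^ (2 + 2)) 3 20 4 By15_1 20 By15_2 = true := by
  decide +kernel

theorem s15_y3 : fin9 W15 (5 ^ (2 + 3)) 4 100 20 By15_2 100 By15_3 = true := by
  decide +kernel

theorem s15_y4 : fin9 W15 (5 ^ (2 + 4)) 5 500 100 By15_3 500 By15_4 = true := by
  decide +kernel

theorem s15_y5 : fin9 W15 (5 ^ (2 + 5)) 6 2500 500 By15_4 2500 By15_5 = true := by
  decide +kernel

theorem s15_By (K : ℕ) (hK : 18 ≤ K) (hQ : 5 ^ (2 + 5) ∣ LL 15 K) : K % 2500 ∈ By15_5 := by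
  have h1 := fin_nine 15 (5 ^ (2 + 1)) 2 4 1 4 W15 _ _ s15_W s15_y1 K (by omega) (by simp
        [Nat.mod_one])
    ((pow_dvd_pow 5 (by norm_num)).trans hQ)
  have h2 := fin_nine 15 (5 ^ (2 + 2)) 3 20 4 20 W15 _ _ s15_W s15_y2 K (by omega) h1
    ((pow_dvd_pow 5 (by norm_num)).trans hQ)
  have h3 := fin_nine 15 (5 ^ (2 + 3)) 4 100 20 100 W15 _ _ s15_W s15_y3 K (by omega) h2
    ((pow_dvd_pow 5 (by norm_num)).trans hQ)
  have h4 := fin_nine 15 (5 ^ (2 + 4)) 5 500 100 500 W15 _ _ s15_W s15_y4 K (by omega) h3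
    ((pow_dvd_pow 5 (by norm_num)).trans hQ)
  have h5 := fin_nine 15 (5 ^ (2 + 5)) 6 2500 500 2500 W15 _ _ s15_W s15_y5 K (by omega) h4
    ((pow_dvd_pow 5 (by norm_num)).trans hQ)
  exact h5

theorem s15_BB (K : ℕ) (h3 : K % 162 ∈ Bx15_5) (h5 : K % 2500 ∈ By15_5) : K % 202500 ∈ BB15 := by
  simp only [Bx15_5, List.mem_cons, List.not_mem_nil, or_false] at h3
  simp only [By15_5, List.mem_cons, List.not_mem_nil, or_false] at h5
  rcases h5 with h | h | h | h | h | h | h | h | h | h | h | h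
  · have h6 : K % 202500 = 10124 := by omega
    rw [h6]
    decide
  · have h6 : K % 202500 = 80432 := by omega
    rw [h6]
    decide
  · omega
  · have h6 : K % 202500 = 50624 := by omega
    rw [h6]
    decide
  · have h6 : K % 202500 = 120932 := by omega
    rw [h6]
    decide
  · have h6 : K % 202500 = 91124 := by omega
    rw [h6]
    decide
  · have h6 : K % 202500 = 161432 := by omega
    rw [h6]
    decide
  · have h6 : K % 202500 = 131624 := by omega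
    rw [h6]
    decide
  · have h6 : K % 202500 = 151874 := by omega
    rw [h6]
    decide
  · have h6 : K % 202500 = 201932 := by omega
    rw [h6]
    decide
  · have h6 : K % 202500 = 172124 := by omega
    rw [h6]
    decide
  · have h6 : K % 202500 = 39932 := by omega
    rw [h6]
    decide

end Pool.Agent.H33.SMP
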