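import Pool.Agent.H33.SMP.FB

/-!
# `s = 16`, tables
-/

set_option autoImplicit false

namespace Pool.Agent.H33.SMP

def T16 : List (ℕ × ℕ × List (ℕ × ℕ × ℕ × ℕ)) := [
  (13, 1, [(13, 1, 1, 2), (169, 2, 3, 15)]),
  (11, 1, [(11, 1, 1, 4), (121, 2, 5, 15)]),
  (7, 1, [(7, 1, 1, 1), (49, 2, 2, 8), (343, 3, 9, 15)]),
  (5, 1, [(25, 2, 1, 5), (125, 3, 6, 10), (625, 4, 11, 15)]),
  (3, 1, [(9, 2, 1, 3), (27, 3, 4, 6), (243, 5, 7, 9), (729, 6, 10, 12), (2187, 7, 13, 15)]),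
  (3, 2, [(27, 3, 1, 3), (81, 4, 4, 6), (729, 6, 7, 9), (2187, 7, 10, 12), (6561, 8, 13, 15)])]

def E16a : List ℕ := [48, 56, 64, 80, 128, 192, 256, 384, 448, 480, 512, 640, 768, 858, 1280,
  3584, 7680, 9984, 53760]

def E16 : List ℕ := E16a

def R16 : List (ℕ × ℕ) := [(3, 2), (5, 1), (7, 1), (11, 1), (13, 1)]

def P16 : List (ℕ × ℕ) := (2, 9) :: R16

theorem s16_T : (T16.all fun x => krok 16 x.1 x.2.1 x.2.2) = true := by decide +kernel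

theorem s16_P : (P16.all fun x => isP x.1) = true := by decide +kernel

theorem s16_L : 2 ^ (3 * 4 - 3) * oddLcm (2 ^ 4) = (P16.map fun x => x.1 ^ x.2).prod := by
  decide +kernel

end Pool.Agent.H33.SMP
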