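import Pool.Agent.H33.SMP.S17T

/-!
# `s = 17`, the bad classes
-/

set_option autoImplicit false

namespace Pool.Agent.H33.SMP

theorem s17_l1 : fin9 W17 (17 ^ (0 + 1)) 0 16 1 [0] 16 B17_1 = true := by
  decide +kernel

theorem s17_l2 : fin9 W17 (17 ^ (0 + 2)) 0 272 16 B17_1 272 B17_2 = true := by
  decide +kernel

def Q17_3_1 : List ℕ := [0, 4, 6, 8, 10, 12, 14, 16, 20, 22, 24, 26, 28, 30, 32, 35, 36, 38, 40,
  42, 44, 46, 48, 50, 52, 54, 56, 58, 60, 62, 64, 68, 69, 70, 72, 74, 76, 78, 80, 84, 86, 88,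
  90]

theorem s17_l3_1 : fin9 W17 (17 ^ (0 + 3)) 0 4624 272 Q17_3_1 4624 B17_3 = true := by
  decide +kernel

def Q17_3_2 : List ℕ := [92, 94, 96, 100, 102, 103, 104, 106, 108, 110, 112, 116, 118, 120, 122,
  124, 126, 128, 132, 134, 136, 137, 138, 140, 142, 144, 148, 150, 152, 154, 156, 158, 160, 164,
  166, 168, 170, 171, 172, 174, 176, 180, 182]

theorem s17_l3_2 : fin9 W17 (17 ^ (0 + 3)) 0 4624 272 Q17_3_2 4624 B17_3 = true := by
  decide +kernel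

def Q17_3_3 : List ℕ := [184, 186, 188, 190, 192, 196, 198, 200, 202, 204, 205, 206, 208, 212,
  214, 216, 218, 220, 222, 224, 228, 230, 232, 234, 236, 238, 239, 240, 244, 246, 248, 250, 252,
  254, 256, 260, 262, 264, 266, 268, 270]

theorem s17_l3_3 : fin9 W17 (17 ^ (0 + 3)) 0 4624 272 Q17_3_3 4624 B17_3 = true := by
  decide +kernel

theorem s17_l3 : fin9 W17 (17 ^ (0 + 3)) 0 4624 272 B17_2 4624 B17_3 = true := by
  have h : B17_2 = Q17_3_1 ++ Q17_3_2 ++ Q17_3_3 := rfl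
  rw [h]
  exact (fin9_append _ _ _ _ _ _ _ _ _ (fin9_append _ _ _ _ _ _ _ _ _ s17_l3_1 s17_l3_2) s17_l3_3)

def Q17_4_1 : List ℕ := [16, 36, 70, 84, 104, 118, 138, 152, 172, 186, 206, 220, 240, 254, 288,
  308, 342, 356, 376, 390, 410, 424, 444, 458, 478, 492, 512, 526, 560, 580, 614, 628, 648, 662,
  682, 696, 716, 730, 750, 764, 784, 798, 832, 852, 866, 886, 900, 920, 934, 954]

theorem s17_l4_1 : fin9 W17 (17 ^ (0 + 4)) 0 78608 4624 Q17_4_1 78608 B17_4 = true := by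
  decide +kernel

def Q17_4_2 : List ℕ := [968, 988, 1002, 1022, 1036, 1056, 1070, 1104, 1124, 1157, 1158, 1172,
  1192, 1206, 1226, 1240, 1260, 1274, 1294, 1308, 1328, 1342, 1376, 1396, 1430, 1444, 1464,
  1478, 1498, 1512, 1532, 1546, 1566, 1580, 1600, 1614, 1648, 1668, 1702, 1716, 1735, 1736,
  1750, 1770, 1784, 1804, 1818, 1838, 1852, 1872]

theorem s17_l4_2 : fin9 W17 (17 ^ (0 + 4)) 0 78608 4624 Q17_4_2 78608 B17_4 = true := by
  decide +kernel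

def Q17_4_3 : List ℕ := [1886, 1920, 1940, 1974, 1988, 2008, 2022, 2042, 2056, 2076, 2090, 2110,
  2124, 2144, 2158, 2192, 2212, 2246, 2260, 2280, 2294, 2313, 2314, 2328, 2348, 2362, 2382,
  2396, 2416, 2430, 2464, 2484, 2518, 2532, 2552, 2566, 2586, 2600, 2620, 2634, 2654, 2668,
  2688, 2702, 2736, 2756, 2790, 2804, 2824, 2838]

theorem s17_l4_3 : fin9 W17 (17 ^ (0 + 4)) 0 78608 4624 Q17_4_3 78608 B17_4 = true := by
  decide +kernel

def Q17_4_4 : List ℕ := [2858, 2872, 2891, 2892, 2906, 2926, 2940, 2960, 2974, 3008, 3028, 3062,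
  3076, 3096, 3110, 3130, 3144, 3164, 3178, 3198, 3212, 3232, 3246, 3280, 3300, 3334, 3348,
  3368, 3382, 3402, 3416, 3436, 3450, 3469, 3470, 3484, 3504, 3518, 3552, 3571, 3572, 3606,
  3620, 3640, 3654, 3674, 3688, 3708, 3722, 3742]

theorem s17_l4_4 : fin9 W17 (17 ^ (0 + 4)) 0 78608 4624 Q17_4_4 78608 B17_4 = true := by
  decide +kernel

def Q17_4_5 : List ℕ := [3756, 3776, 3790, 3824, 3844, 3878, 3892, 3912, 3926, 3946, 3960, 3980,
  3994, 4014, 4028, 4047, 4048, 4062, 4096, 4116, 4150, 4164, 4184, 4198, 4218, 4232, 4252,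
  4266, 4286, 4300, 4320, 4334, 4368, 4388, 4422, 4436, 4456, 4470, 4490, 4504, 4524, 4538,
  4558, 4572, 4592, 4606]

theorem s17_l4_5 : fin9 W17 (17 ^ (0 + 4)) 0 78608 4624 Q17_4_5 78608 B17_4 = true := by
  decide +kernel

theorem s17_l4 : fin9 W17 (17 ^ (0 + 4)) 0 78608 4624 B17_3 78608 B17_4 = true := by
  have h : B17_3 = Q17_4_1 ++ Q17_4_2 ++ Q17_4_3 ++ Q17_4_4 ++ Q17_4_5 := rfl
  rw [h]
  exact (fin9_append _ _ _ _ _ _ _ _ _ (fin9_append _ _ _ _ _ _ _ _ _ (fin9_append _ _ _ _ _ _ _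
        _ _ (fin9_append _ _ _ _ _ _ _ _ _ s17_l4_1 s17_l4_2) s17_l4_3) s17_l4_4) s17_l4_5)

theorem s17_B (K : ℕ) (hK : 6 ≤ K) (hQ : 17 ^ (0 + 4) ∣ LL 17 K) : K % 78608 ∈ B17_4 := by
  have h1 := fin_nine 17 (17 ^ (0 + 1)) 0 16 1 16 W17 _ _ s17_W s17_l1 K (by omega) (by simp
        [Nat.mod_one])
    ((pow_dvd_pow 17 (by norm_num)).trans hQ)
  have h2 := fin_nine 17 (17 ^ (0 + 2)) 0 272 16 272 W17 _ _ s17_W s17_l2 K (by omega) h1
    ((pow_dvd_pow 17 (by norm_num)).trans hQ)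
  have h3 := fin_nine 17 (17 ^ (0 + 3)) 0 4624 272 4624 W17 _ _ s17_W s17_l3 K (by omega) h2
    ((pow_dvd_pow 17 (by norm_num)).trans hQ)
  have h4 := fin_nine 17 (17 ^ (0 + 4)) 0 78608 4624 78608 W17 _ _ s17_W s17_l4 K (by omega) h3
    ((pow_dvd_pow 17 (by norm_num)).trans hQ)
  exact h4

end Pool.Agent.H33.SMP
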