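import Pool.Agent.H33.SMP.S18T

/-!
# `s = 18`, the bad classes
-/

set_option autoImplicit false

namespace Pool.Agent.H33.SMP

theorem s18_l1 : fin9 W18 (3 ^ (6 + 1)) 2 2 1 [0] 2 B18_1 = true := by
  decide +kernel

theorem s18_l2 : fin9 W18 (3 ^ (6 + 2)) 3 6 2 B18_1 6 B18_2 = true := by
  decide +kernel

theorem s18_l3 : fin9 W18 (3 ^ (6 + 3)) 4 18 6 B18_2 18 B18_3 = true := by
  decide +kernel

theorem s18_l4 : fin9 W18 (3 ^ (6 + 4)) 5 54 18 B18_3 54 B18_4 = true := by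
  decide +kernel

theorem s18_l5 : fin9 W18 (3 ^ (6 + 5)) 6 162 54 B18_4 162 B18_5 = true := by
  decide +kernel

theorem s18_l6 : fin9 W18 (3 ^ (6 + 6)) 7 486 162 B18_5 486 B18_6 = true := by
  decide +kernel

theorem s18_l7 : fin9 W18 (3 ^ (6 + 7)) 8 1458 486 B18_6 1458 B18_7 = true := by
  decide +kernel

theorem s18_B (K : ℕ) (hK : 12 ≤ K) (hQ : 3 ^ (6 + 7) ∣ LL 18 K) : K % 1458 ∈ B18_7 := by
  have h1 := fin_nine 18 (3 ^ (6 + 1)) 2 2 1 2 W18 _ _ s18_W s18_l1 K (by omega) (by simp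
        [Nat.mod_one])
    ((pow_dvd_pow 3 (by norm_num)).trans hQ)
  have h2 := fin_nine 18 (3 ^ (6 + 2)) 3 6 2 6 W18 _ _ s18_W s18_l2 K (by omega) h1
    ((pow_dvd_pow 3 (by norm_num)).trans hQ)
  have h3 := fin_nine 18 (3 ^ (6 + 3)) 4 18 6 18 W18 _ _ s18_W s18_l3 K (by omega) h2
    ((pow_dvd_pow 3 (by norm_num)).trans hQ)
  have h4 := fin_nine 18 (3 ^ (6 + 4)) 5 54 18 54 W18 _ _ s18_W s18_l4 K (by omega) h3
    ((pow_dvd_pow 3 (by norm_num)).trans hQ)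
  have h5 := fin_nine 18 (3 ^ (6 + 5)) 6 162 54 162 W18 _ _ s18_W s18_l5 K (by omega) h4
    ((pow_dvd_pow 3 (by norm_num)).trans hQ)
  have h6 := fin_nine 18 (3 ^ (6 + 6)) 7 486 162 486 W18 _ _ s18_W s18_l6 K (by omega) h5
    ((pow_dvd_pow 3 (by norm_num)).trans hQ)
  have h7 := fin_nine 18 (3 ^ (6 + 7)) 8 1458 486 1458 W18 _ _ s18_W s18_l7 K (by omega) h6
    ((pow_dvd_pow 3 (by norm_num)).trans hQ)
  exact h7

end Pool.Agent.H33.SMP
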