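import Pool.Agent.H33.SMP.MM

/-!
# `s = 18`, tables
-/

set_option autoImplicit false

namespace Pool.Agent.H33.SMP

def T18 : List (ℕ × ℕ × List (ℕ × ℕ × ℕ × ℕ)) := [
  (17, 1, [(289, 2, 1, 17)]),
  (13, 1, [(13, 1, 1, 4), (169, 2, 5, 17)]),
  (11, 1, [(11, 1, 1, 6), (121, 2, 7, 17)]),
  (7, 1, [(7, 1, 1, 3), (49, 2, 4, 10), (343, 3, 11, 17)]),
  (5, 1, [(5, 1, 1, 2), (25, 2, 3, 7), (125, 3, 8, 12), (625, 4, 13, 17)])]

def D18a1 : List ℕ := [1, 2, 4, 8, 16, 17, 34, 68, 136, 272, 13, 26, 52, 104, 208, 221, 442,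
  884, 1768, 3536, 11, 22, 44, 88, 176, 187, 374, 748, 1496, 2992, 143, 286, 572, 1144, 2288,
  2431, 4862, 9724, 19448, 38896, 7, 14, 28, 56, 112, 119, 238, 476, 952, 1904, 91, 182, 364,
  728, 1456, 1547, 3094, 6188, 12376, 24752, 77, 154, 308, 616, 1232, 1309, 2618, 5236, 10472,
  20944, 1001, 2002, 4004, 8008, 16016, 17017, 34034, 68068, 136136, 272272, 5, 10, 20, 40, 80,
  85, 170, 340, 680, 1360, 65, 130, 260, 520, 1040, 1105, 2210, 4420, 8840, 17680, 55, 110, 220,
  440]

def D18a2 : List ℕ := [880, 935, 1870, 3740, 7480, 14960, 715, 1430, 2860, 5720, 11440, 12155,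
  24310, 48620, 97240, 194480, 35, 70, 140, 280, 560, 595, 1190, 2380, 4760, 9520, 455, 910,
  1820, 3640, 7280, 7735, 15470, 30940, 61880, 123760, 385, 770, 1540, 3080, 6160, 6545, 13090,
  26180, 52360, 104720, 5005, 10010, 20020, 40040, 80080, 85085, 170170, 340340, 680680,
  1361360]

def D18a : List ℕ := D18a1 ++ D18a2

def D18 : List ℕ := D18a

def M18 : List (ℕ × ℕ) := [(5, 1), (7, 1), (11, 1), (13, 1), (17, 1), (2, 4)]

def N18 : List (ℕ × ℕ) := [(2, 15), (3, 9), (5, 1), (7, 1), (11, 1), (13, 1), (17, 1)]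

def B18_1 : List ℕ := [0, 1]

def B18_2 : List ℕ := [0, 2, 4]

def B18_3 : List ℕ := [0, 2, 4, 6, 8, 10, 12, 14, 16]

def B18_4 : List ℕ := [2, 8, 14, 20, 26, 32, 38, 44, 50]

def B18_5 : List ℕ := [8, 26, 44, 62, 80, 98, 116, 134, 152]

def B18_6 : List ℕ := [26, 80, 134, 188, 242, 296, 350, 404, 458]

def B18_7 : List ℕ := [80, 242, 404, 566, 728, 890, 1052, 1214, 1376]

def L18 : List Sm := [Sm.C 2, Sm.C 3, Sm.P 13 1 3 1 [(13, 1, 1, 4), (169, 2, 5, 17)], Sm.P 7 1 6
  1 [(7, 1, 1, 3), (49, 2, 4, 17)], Sm.K 2, Sm.R 2 [1], Sm.K 3, Sm.R 6 [4], Sm.K 3, Sm.R 18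
  [256], Sm.C 3, Sm.T 19 18 18 1, Sm.K 2, Sm.T 37 36 18 1, Sm.K 3, Sm.R 54 [67108864], Sm.C 3,
  Sm.T 109 108 27 1, Sm.K 3, Sm.R 162 [1208925819614629174706176], Sm.C 3, Sm.T 163 162 162 1]

def U18 : List (ℕ × ℕ × Bool) := [(18, 355687428096000, false), (17, 355687428096000, true),
  (16, 177843714048000, false), (15, 59281238016000, true), (14, 14820309504000, false), (13,
  2964061900800, true), (12, 494010316800, false), (11, 70572902400, true), (10, 8821612800,
  false), (9, 980179200, true), (8, 98017920, false), (7, 8910720, true), (6, 742560, false),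
  (5, 57120, true), (4, 4080, false), (3, 272, true), (2, 17, false), (1, 1, true)]

def W18 : List (ℕ × ℕ) := [(355687428096000, 17), (177843714048000, 16), (118562476032000, 15),
  (88921857024000, 14), (71137485619200, 13), (59281238016000, 12), (50812489728000, 11),
  (44460928512000, 10), (39520825344000, 9), (35568742809600, 8), (32335220736000, 7),
  (29640619008000, 6), (27360571392000, 5), (25406244864000, 4), (23712495206400, 3),
  (22230464256000, 2), (20922789888000, 1)]

theorem s18_U : tbl 18 = U18 := by decide +kernel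

theorem s18_W : wts 18 = W18 := by decide +kernel

def E18a1 : List ℕ := [48, 54, 56, 72, 80, 81, 105, 108, 132, 135, 144, 162, 180, 216, 243, 252,
  306, 324, 351, 405, 432, 486, 648, 729]

def E18a2 : List ℕ := [858, 972, 1080, 1134, 1296, 1458, 1584, 1872, 1944, 2187, 2430, 2673,
  2916, 3780, 3888, 4374, 5103]

def E18a3 : List ℕ := [5508, 5832, 6480, 6561, 8748, 9072, 9477, 11664, 13122, 14580, 17010,
  17496, 26244, 28917]

def E18a4 : List ℕ := [32076, 32805, 34992, 36855, 40824, 50544, 52488, 71280, 81648, 87480,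
  99144, 104976]

def E18a5 : List ℕ := [136080, 183708, 192780, 379080, 384912]

def E18a : List ℕ := E18a1 ++ E18a2 ++ E18a3 ++ E18a4 ++ E18a5

def E18b : List ℕ := [524880, 1364688, 1784592]

def E18 : List ℕ := E18a ++ E18b

theorem s18_T : (T18.all fun x => krok 18 x.1 x.2.1 x.2.2) = true := by decide +kernel

theorem s18_M : (M18.all fun x => isP x.1) = true := by decide +kernel

theorem s18_N : (N18.all fun x => isP x.1) = true := by decide +kernel

theorem s18_D : enu M18 1 (fun m => D18.contains m) = true := by decide +kernel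

theorem s18_c : copr 18 (N18.map fun x => x.1 ^ x.2).prod = true := by decide +kernel

theorem s18_q : qpw 18 34834 (N18.map fun x => x.1 ^ x.2).prod = true := by decide +kernel

theorem s18_d : copr 18 (M18.map fun x => x.1 ^ x.2).prod = true := by decide +kernel

theorem s18_ok : L18.all (okM 18 3 1 1458 B18_7) = true := by decide +kernel

end Pool.Agent.H33.SMP
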