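import Pool.Agent.H33.SMP.S19La

/-!
# `s = 19`, the bad classes
-/

set_option autoImplicit false

namespace Pool.Agent.H33.SMP

theorem s19_l1 : fin9 W19 (19 ^ (0 + 1)) 0 18 1 [0] 18 B19_1 = true := by
  decide +kernel

theorem s19_l2 : fin9 W19 (19 ^ (0 + 2)) 0 342 18 B19_1 342 B19_2 = true := by
  decide +kernel

def Q19_3_1 : List ℕ := [0, 4, 6, 8, 10, 12, 14, 16, 18, 22, 24, 26, 28, 30, 32, 34, 36, 39, 40,
  42, 44, 46, 48, 50, 52, 54, 56, 58, 60, 62, 64, 66, 68, 70, 72, 76, 77, 78, 80, 82, 84]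

theorem s19_l3_1 : fin9 W19 (19 ^ (0 + 3)) 0 6498 342 Q19_3_1 6498 B19_3 = true := by
  decide +kernel

def Q19_3_2 : List ℕ := [86, 88, 90, 94, 96, 98, 100, 102, 104, 106, 108, 112, 114, 115, 116,
  118, 120, 122, 124, 126, 130, 132, 134, 136, 138, 140, 142, 144, 148, 150, 152, 153, 154, 156,
  158, 160, 162, 166, 168, 170, 172]

theorem s19_l3_2 : fin9 W19 (19 ^ (0 + 3)) 0 6498 342 Q19_3_2 6498 B19_3 = true := by
  decide +kernel

def Q19_3_3 : List ℕ := [174, 176, 178, 180, 184, 186, 188, 190, 191, 192, 194, 196, 198, 202,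
  204, 206, 208, 210, 212, 214, 216, 220, 222, 224, 226, 228, 229, 230, 232, 234, 238, 240, 242,
  244, 246, 248, 250, 252, 256, 258, 260]

theorem s19_l3_3 : fin9 W19 (19 ^ (0 + 3)) 0 6498 342 Q19_3_3 6498 B19_3 = true := by
  decide +kernel

def Q19_3_4 : List ℕ := [262, 264, 266, 267, 268, 270, 274, 276, 278, 280, 282, 284, 286, 288,
  292, 294, 296, 298, 300, 302, 304, 305, 306, 310, 312, 314, 316, 318, 320, 322, 324, 328, 330,
  332, 334, 336, 338, 340]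

theorem s19_l3_4 : fin9 W19 (19 ^ (0 + 3)) 0 6498 342 Q19_3_4 6498 B19_3 = true := by
  decide +kernel

theorem s19_l3 : fin9 W19 (19 ^ (0 + 3)) 0 6498 342 B19_2 6498 B19_3 = true := by
  have h : B19_2 = Q19_3_1 ++ Q19_3_2 ++ Q19_3_3 ++ Q19_3_4 := rfl
  rw [h]
  exact (fin9_append _ _ _ _ _ _ _ _ _ (fin9_append _ _ _ _ _ _ _ _ _ (fin9_append _ _ _ _ _ _ _
        _ _ s19_l3_1 s19_l3_2) s19_l3_3) s19_l3_4)

def Q19_4_5 : List ℕ := [3346, 3362, 3384, 3400, 3438, 3460, 3498, 3514, 3536, 3552, 3574, 3590,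
  3611, 3612, 3628, 3650, 3666, 3688, 3704, 3726, 3742, 3780, 3802, 3840, 3856, 3878, 3894,
  3916, 3932, 3954, 3970, 3992, 4008, 4030, 4046, 4068, 4084, 4122, 4144, 4182]

theorem s19_l4_5 : fin9 W19 (19 ^ (0 + 4)) 0 123462 6498 Q19_4_5 123462 B19_4 = true := by
  decide +kernel

def Q19_4_6 : List ℕ := [4198, 4220, 4236, 4258, 4274, 4296, 4312, 4333, 4334, 4350, 4372, 4388,
  4410, 4426, 4464, 4486, 4524, 4540, 4562, 4578, 4600, 4616, 4638, 4654, 4676, 4692, 4714,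
  4730, 4752, 4768, 4806, 4828, 4866, 4882, 4904, 4920, 4942, 4958, 4980, 4996]

theorem s19_l4_6 : fin9 W19 (19 ^ (0 + 4)) 0 123462 6498 Q19_4_6 123462 B19_4 = true := by
  decide +kernel

def Q19_4_7 : List ℕ := [5018, 5034, 5055, 5056, 5072, 5094, 5110, 5148, 5169, 5170, 5208, 5224,
  5246, 5262, 5284, 5300, 5322, 5338, 5360, 5376, 5398, 5414, 5436, 5452, 5490, 5512, 5550,
  5566, 5588, 5604, 5626, 5642, 5664, 5680, 5702, 5718, 5740, 5756, 5777, 5778]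

theorem s19_l4_7 : fin9 W19 (19 ^ (0 + 4)) 0 123462 6498 Q19_4_7 123462 B19_4 = true := by
  decide +kernel

def Q19_4_8 : List ℕ := [5794, 5832, 5854, 5892, 5908, 5930, 5946, 5968, 5984, 6006, 6022, 6044,
  6060, 6082, 6098, 6120, 6136, 6174, 6196, 6234, 6250, 6272, 6288, 6310, 6326, 6348, 6364,
  6386, 6402, 6424, 6440, 6462, 6478]

theorem s19_l4_8 : fin9 W19 (19 ^ (0 + 4)) 0 123462 6498 Q19_4_8 123462 B19_4 = true := by
  decide +kernel

theorem s19_l4 : fin9 W19 (19 ^ (0 + 4)) 0 123462 6498 B19_3 123462 B19_4 = true := by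
  have h : B19_3 = Q19_4_1 ++ Q19_4_2 ++ Q19_4_3 ++ Q19_4_4 ++ Q19_4_5 ++ Q19_4_6 ++ Q19_4_7 ++
        Q19_4_8 := by decide +kernel
  rw [h]
  exact (fin9_append _ _ _ _ _ _ _ _ _ (fin9_append _ _ _ _ _ _ _ _ _ (fin9_append _ _ _ _ _ _ _
        _ _ (fin9_append _ _ _ _ _ _ _ _ _ (fin9_append _ _ _ _ _ _ _ _ _ (fin9_append _ _ _ _ _
              _ _ _ _ (fin9_append _ _ _ _ _ _ _ _ _ s19_l4_1 s19_l4_2) s19_l4_3) s19_l4_4)
                    s19_l4_5) s19_l4_6) s19_l4_7) s19_l4_8)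

theorem s19_B (K : ℕ) (hK : 6 ≤ K) (hQ : 19 ^ (0 + 4) ∣ LL 19 K) : K % 123462 ∈ B19_4 := by
  have h1 := fin_nine 19 (19 ^ (0 + 1)) 0 18 1 18 W19 _ _ s19_W s19_l1 K (by omega) (by simp
        [Nat.mod_one])
    ((pow_dvd_pow 19 (by norm_num)).trans hQ)
  have h2 := fin_nine 19 (19 ^ (0 + 2)) 0 342 18 342 W19 _ _ s19_W s19_l2 K (by omega) h1
    ((pow_dvd_pow 19 (by norm_num)).trans hQ)
  have h3 := fin_nine 19 (19 ^ (0 + 3)) 0 6498 342 6498 W19 _ _ s19_W s19_l3 K (by omega) h2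
    ((pow_dvd_pow 19 (by norm_num)).trans hQ)
  have h4 := fin_nine 19 (19 ^ (0 + 4)) 0 123462 6498 123462 W19 _ _ s19_W s19_l4 K (by omega) h3
    ((pow_dvd_pow 19 (by norm_num)).trans hQ)
  exact h4

end Pool.Agent.H33.SMP
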