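import Pool.Agent.H33.SMP.S19T

/-!
# `s = 19`, the bad classes, a part
-/

set_option autoImplicit false

namespace Pool.Agent.H33.SMP

def Q19_4_1 : List ℕ := [18, 40, 78, 94, 116, 132, 154, 170, 192, 208, 230, 246, 268, 284, 306,
  322, 360, 382, 420, 436, 458, 474, 496, 512, 534, 550, 572, 588, 610, 626, 648, 664, 702, 724,
  762, 778, 800, 816, 838, 854]

theorem s19_l4_1 : fin9 W19 (19 ^ (0 + 4)) 0 123462 6498 Q19_4_1 123462 B19_4 = true := by
  decide +kernel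

def Q19_4_2 : List ℕ := [876, 892, 914, 930, 952, 968, 990, 1006, 1044, 1066, 1082, 1104, 1120,
  1142, 1158, 1180, 1196, 1218, 1234, 1256, 1272, 1294, 1310, 1332, 1348, 1386, 1408, 1445,
  1446, 1462, 1484, 1500, 1522, 1538, 1560, 1576, 1598, 1614, 1636, 1652]

theorem s19_l4_2 : fin9 W19 (19 ^ (0 + 4)) 0 123462 6498 Q19_4_2 123462 B19_4 = true := by
  decide +kernel

def Q19_4_3 : List ℕ := [1674, 1690, 1728, 1750, 1788, 1804, 1826, 1842, 1864, 1880, 1902, 1918,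
  1940, 1956, 1978, 1994, 2016, 2032, 2070, 2092, 2130, 2146, 2167, 2168, 2184, 2206, 2222,
  2244, 2260, 2282, 2298, 2320, 2336, 2358, 2374, 2412, 2434, 2472, 2488, 2510]

theorem s19_l4_3 : fin9 W19 (19 ^ (0 + 4)) 0 123462 6498 Q19_4_3 123462 B19_4 = true := by
  decide +kernel

def Q19_4_4 : List ℕ := [2526, 2548, 2564, 2586, 2602, 2624, 2640, 2662, 2678, 2700, 2716, 2754,
  2776, 2814, 2830, 2852, 2868, 2889, 2890, 2906, 2928, 2944, 2966, 2982, 3004, 3020, 3042,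
  3058, 3096, 3118, 3156, 3172, 3194, 3210, 3232, 3248, 3270, 3286, 3308, 3324]

theorem s19_l4_4 : fin9 W19 (19 ^ (0 + 4)) 0 123462 6498 Q19_4_4 123462 B19_4 = true := by
  decide +kernel

end Pool.Agent.H33.SMP
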