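import Pool.Agent.H33.SMP.S20T

/-!
# `s = 20`, the sieve, part a
-/

set_option autoImplicit false

namespace Pool.Agent.H33.SMP

theorem s20_Ca1 : (D20a1.all fun d => cq U20 5 1 d L20 1 0 1 0 1 0) = true := by
  decide +kernel

theorem s20_Ca2 : (D20a2.all fun d => cq U20 5 1 d L20 1 0 1 0 1 0) = true := by
  decide +kernel

theorem s20_Ca3 : (D20a3.all fun d => cq U20 5 1 d L20 1 0 1 0 1 0) = true := by
  decide +kernel

theorem s20_Ca4 : (D20a4.all fun d => cq U20 5 1 d L20 1 0 1 0 1 0) = true := by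
  decide +kernel

theorem s20_Ca5 : (D20a5.all fun d => cq U20 5 1 d L20 1 0 1 0 1 0) = true := by
  decide +kernel

theorem s20_Ca : (D20a.all fun d => cq U20 5 1 d L20 1 0 1 0 1 0) = true := by
  simp only [D20a, List.all_append, Bool.and_eq_true]
  exact ⟨⟨⟨⟨s20_Ca1, s20_Ca2⟩, s20_Ca3⟩, s20_Ca4⟩, s20_Ca5⟩

end Pool.Agent.H33.SMP
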