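import Pool.Agent.H33.SMP.S20T

/-!
# `s = 20`, the sieve, part f
-/

set_option autoImplicit false

namespace Pool.Agent.H33.SMP

theorem s20_Cf1 : (D20f1.all fun d => cq U20 5 1 d L20 1 0 1 0 1 0) = true := by
  decide +kernel

theorem s20_Cf2 : (D20f2.all fun d => cq U20 5 1 d L20 1 0 1 0 1 0) = true := by
  decide +kernel

theorem s20_Cf3 : (D20f3.all fun d => cq U20 5 1 d L20 1 0 1 0 1 0) = true := by
  decide +kernel

theorem s20_Cf4 : (D20f4.all fun d => cq U20 5 1 d L20 1 0 1 0 1 0) = true := by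
  decide +kernel

theorem s20_Cf5 : (D20f5.all fun d => cq U20 5 1 d L20 1 0 1 0 1 0) = true := by
  decide +kernel

theorem s20_Cf : (D20f.all fun d => cq U20 5 1 d L20 1 0 1 0 1 0) = true := by
  simp only [D20f, List.all_append, Bool.and_eq_true]
  exact ⟨⟨⟨⟨s20_Cf1, s20_Cf2⟩, s20_Cf3⟩, s20_Cf4⟩, s20_Cf5⟩

end Pool.Agent.H33.SMP
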