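import Pool.Agent.H33.SMP.S20T

/-!
# `s = 20`, the sieve, part g
-/

set_option autoImplicit false

namespace Pool.Agent.H33.SMP

theorem s20_Cg1 : (D20g1.all fun d => cq U20 5 1 d L20 1 0 1 0 1 0) = true := by
  decide +kernel

theorem s20_Cg2 : (D20g2.all fun d => cq U20 5 1 d L20 1 0 1 0 1 0) = true := by
  decide +kernel

theorem s20_Cg3 : (D20g3.all fun d => cq U20 5 1 d L20 1 0 1 0 1 0) = true := by
  decide +kernel

theorem s20_Cg4 : (D20g4.all fun d => cq U20 5 1 d L20 1 0 1 0 1 0) = true := by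
  decide +kernel

theorem s20_Cg : (D20g.all fun d => cq U20 5 1 d L20 1 0 1 0 1 0) = true := by
  simp only [D20g, List.all_append, Bool.and_eq_true]
  exact ⟨⟨⟨s20_Cg1, s20_Cg2⟩, s20_Cg3⟩, s20_Cg4⟩

end Pool.Agent.H33.SMP
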