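import Pool.Agent.H33.SMP.S20T

/-!
# `s = 20`, small `K` and small exponents
-/

set_option autoImplicit false

namespace Pool.Agent.H33.SMP

theorem s20_K : enu N20 1 (leafK 20 19476 11 T20 (fun _ _ => false)) = true := by decide +kernel

theorem s20_l : ((List.range (1 + 5)).all fun c => D20.all fun d =>
    leaf 20 T20 E20 (d * 5 ^ c)) = true := by decide +kernel

end Pool.Agent.H33.SMP
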