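import Pool.Agent.H33.SMP.S20L
import Pool.Agent.H33.SMP.S20K
import Pool.Agent.H33.SMP.S20Ea
import Pool.Agent.H33.SMP.S20Eb
import Pool.Agent.H33.SMP.S20Ca
import Pool.Agent.H33.SMP.S20Cb
import Pool.Agent.H33.SMP.S20Cc
import Pool.Agent.H33.SMP.S20Cd
import Pool.Agent.H33.SMP.S20Ce
import Pool.Agent.H33.SMP.S20Cf
import Pool.Agent.H33.SMP.S20Cg

/-!
# `s = 20`
-/

set_option autoImplicit false

namespace Pool.Agent.H33.SMP

open Pool.Agent.H33.SMS (G)

theorem s20_E : (E20.all fun n => fin1 1000003 20 n (fun _ _ => false) 316 0) = true := by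
  simp only [E20, List.all_append, Bool.and_eq_true]
  exact ⟨s20_Ea, s20_Eb⟩

theorem s20_C : (D20.all fun d => cq U20 5 1 d L20 1 0 1 0 1 0) = true := by
  simp only [D20, List.all_append, Bool.and_eq_true]
  exact ⟨⟨⟨⟨⟨⟨s20_Ca, s20_Cb⟩, s20_Cc⟩, s20_Cd⟩, s20_Ce⟩, s20_Cf⟩, s20_Cg⟩

theorem s20_G (n K : ℕ) (hn : 2 * 20 < n) : G n 20 K ≠ 0 := by
  intro hG
  rcases Nat.lt_or_ge K 11 with hK | hK
  · exact small_K 20 11 19476 N20 T20 (fun _ _ => false) (by norm_num) (by norm_num) s20_T s20_N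
        s20_c s20_q
      (by norm_num) s20_K n K hK hn rfl hG
  · refine mm_scheme 20 5 1 3 1 5 2500 11 316 B20_5 D20 L20 T20 E20 U20 s20_U (fun _ _ => false)
        (by norm_num) (by norm_num)
      (by norm_num) (by norm_num) (by norm_num) (by norm_num [Nat.factorial]) (by norm_num)
      (by norm_num) (by norm_num) s20_T s20_E s20_l (fun K hK hQ => s20_B K hK hQ) s20_ok s20_C n
            K hK hn ?_ rfl hG
    have hpk : ∀ p k, p.Prime → p ≠ 5 → p ^ k ∣ n → p ^ k ∣ (M20.map fun x => x.1 ^ x.2).prod :=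
          by
      intro p k hp hpq hk
      by_cases hps : p ∣ 20
      · have h2 : p = 2 := by
          have h3 : p ∣ 2 ^ 2 * 5 ^ 1 := by simpa using hps
          rcases (Nat.Prime.dvd_mul hp).1 h3 with h4 | h4
          · exact (Nat.prime_dvd_prime_iff_eq hp Nat.prime_two).1 (hp.dvd_of_dvd_pow h4)
          · exact absurd ((Nat.prime_dvd_prime_iff_eq hp (by norm_num)).1
              (hp.dvd_of_dvd_pow h4)) hpq
        subst h2
        have h5 := tg_two 20 n K 4 1 5 11 (by norm_num) (by norm_num) (by norm_num) (by norm_num)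
          (by omega) (by norm_num) (by norm_num) (by norm_num) hK hG
        have h6 : k ≤ 6 := by
          by_contra h6
          exact h5 ((pow_dvd_pow 2 (by omega)).trans hk)
        exact (pow_dvd_pow 2 h6).trans (by decide +kernel)
      · exact mq_pp 20 n K _ p k (by norm_num) s20_d (by omega) hG hp hps hk
    obtain ⟨c, m, hm, hnm⟩ := mq_D 5 n _ (by omega) (by norm_num) hpk
    exact ⟨c, m, mq_mem D20 M20 m s20_M s20_D hm, hnm⟩

end Pool.Agent.H33.SMP
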