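import Pool.Agent.H33.SMP.S20T

/-!
# `s = 20`, the bad classes
-/

set_option autoImplicit false

namespace Pool.Agent.H33.SMP

theorem s20_l1 : fin9 W20 (5 ^ (3 + 1)) 2 4 1 [0] 4 B20_1 = true := by
  decide +kernel

theorem s20_l2 : fin9 W20 (5 ^ (3 + 2)) 3 20 4 B20_1 20 B20_2 = true := by
  decide +kernel

theorem s20_l3 : fin9 W20 (5 ^ (3 + 3)) 4 100 20 B20_2 100 B20_3 = true := by
  decide +kernel

theorem s20_l4 : fin9 W20 (5 ^ (3 + 4)) 5 500 100 B20_3 500 B20_4 = true := by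
  decide +kernel

theorem s20_l5 : fin9 W20 (5 ^ (3 + 5)) 6 2500 500 B20_4 2500 B20_5 = true := by
  decide +kernel

theorem s20_B (K : ℕ) (hK : 11 ≤ K) (hQ : 5 ^ (3 + 5) ∣ LL 20 K) : K % 2500 ∈ B20_5 := by
  have h1 := fin_nine 20 (5 ^ (3 + 1)) 2 4 1 4 W20 _ _ s20_W s20_l1 K (by omega) (by simp
        [Nat.mod_one])
    ((pow_dvd_pow 5 (by norm_num)).trans hQ)
  have h2 := fin_nine 20 (5 ^ (3 + 2)) 3 20 4 20 W20 _ _ s20_W s20_l2 K (by omega) h1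
    ((pow_dvd_pow 5 (by norm_num)).trans hQ)
  have h3 := fin_nine 20 (5 ^ (3 + 3)) 4 100 20 100 W20 _ _ s20_W s20_l3 K (by omega) h2
    ((pow_dvd_pow 5 (by norm_num)).trans hQ)
  have h4 := fin_nine 20 (5 ^ (3 + 4)) 5 500 100 500 W20 _ _ s20_W s20_l4 K (by omega) h3
    ((pow_dvd_pow 5 (by norm_num)).trans hQ)
  have h5 := fin_nine 20 (5 ^ (3 + 5)) 6 2500 500 2500 W20 _ _ s20_W s20_l5 K (by omega) h4
    ((pow_dvd_pow 5 (by norm_num)).trans hQ)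
  exact h5

end Pool.Agent.H33.SMP
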