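import Pool.Agent.H33.SMP.S32T

/-!
# `s = 32`, the remaining `n`, part a
-/

set_option autoImplicit false

namespace Pool.Agent.H33.SMP

theorem s32_Ea1 : (E32a1.all fun n => fin1 1000003 32 n (fun _ _ => false) 511 0) = true := by
  decide +kernel

theorem s32_Ea2 : (E32a2.all fun n => fin1 1000003 32 n (fun _ _ => false) 511 0) = true := by
  decide +kernel

theorem s32_Ea3 : (E32a3.all fun n => fin1 1000003 32 n (fun _ _ => false) 511 0) = true := by
  decide +kernel

theorem s32_Ea4 : (E32a4.all fun n => fin1 1000003 32 n (fun _ _ => false) 511 0) = true := by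
  decide +kernel

theorem s32_Ea5 : (E32a5.all fun n => fin1 1000003 32 n (fun _ _ => false) 511 0) = true := by
  decide +kernel

theorem s32_Ea : (E32a.all fun n => fin1 1000003 32 n (fun _ _ => false) 511 0) = true := by
  simp only [E32a, List.all_append, Bool.and_eq_true]
  exact ⟨⟨⟨⟨s32_Ea1, s32_Ea2⟩, s32_Ea3⟩, s32_Ea4⟩, s32_Ea5⟩

end Pool.Agent.H33.SMP
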