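import Pool.Agent.H33.SMP.FB

/-!
# `s = 32`, tables
-/

set_option autoImplicit false

namespace Pool.Agent.H33.SMP

def T32 : List (ℕ × ℕ × List (ℕ × ℕ × ℕ × ℕ)) := [
  (31, 1, [(961, 2, 1, 31)]),
  (29, 1, [(29, 1, 1, 2), (841, 2, 3, 31)]),
  (23, 1, [(23, 1, 1, 8), (529, 2, 9, 31)]),
  (19, 1, [(19, 1, 1, 12), (361, 2, 13, 31)]),
  (17, 1, [(17, 1, 1, 14), (289, 2, 15, 31)]),
  (13, 1, [(13, 1, 1, 5), (169, 2, 6, 18), (2197, 3, 19, 31)]),
  (11, 1, [(11, 1, 1, 9), (121, 2, 10, 20), (1331, 3, 21, 31)]),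
  (7, 1, [(7, 1, 1, 3), (49, 2, 4, 10), (343, 3, 11, 17), (2401, 4, 18, 24), (16807, 5, 25,
    31)]),
  (5, 1, [(5, 1, 1, 1), (25, 2, 2, 6), (625, 4, 7, 11), (3125, 5, 12, 16), (15625, 6, 17, 21),
    (78125, 7, 22, 26), (390625, 8, 27, 31)]),
  (5, 2, [(25, 2, 1, 1), (125, 3, 2, 6), (3125, 5, 7, 11), (15625, 6, 12, 16), (78125, 7, 17,
    21), (390625, 8, 22, 26), (1953125, 9, 27, 31)]),
  (3, 1, [(3, 1, 1, 1), (9, 2, 2, 4), (243, 5, 5, 7), (729, 6, 8, 10), (2187, 7, 11, 13),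
    (19683, 9, 14, 16), (59049, 10, 17, 19), (177147, 11, 20, 22), (1594323, 13, 23, 25),
    (4782969, 14, 26, 28), (14348907, 15, 29, 31)]),
  (3, 2, [(9, 2, 1, 1), (27, 3, 2, 4), (729, 6, 5, 7), (2187, 7, 8, 10), (6561, 8, 11, 13),
    (59049, 10, 14, 16), (177147, 11, 17, 19), (531441, 12, 20, 22), (4782969, 14, 23, 25),
    (14348907, 15, 26, 28), (43046721, 16, 29, 31)]),
  (3, 3, [(27, 3, 1, 1), (81, 4, 2, 4), (2187, 7, 5, 7), (6561, 8, 8, 10), (19683, 9, 11, 13),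
    (177147, 11, 14, 16), (531441, 12, 17, 19), (1594323, 13, 20, 22), (14348907, 15, 23, 25),
    (43046721, 16, 26, 28), (129140163, 17, 29, 31)])]

def E32a1 : List ℕ := [80, 128, 192, 256, 380, 448, 480]

def E32a2 : List ℕ := [512, 552, 768, 858, 992, 1024]

def E32a3 : List ℕ := [1280, 2048, 2552, 3072, 3584]

def E32a4 : List ℕ := [4096, 4352, 7680, 8680]

def E32a5 : List ℕ := [9280, 9984, 11264]

def E32a : List ℕ := E32a1 ++ E32a2 ++ E32a3 ++ E32a4 ++ E32a5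

def E32b1 : List ℕ := [12288, 20480, 28672, 31744]

def E32b2 : List ℕ := [36480, 47104, 53248]

def E32b3 : List ℕ := [53760, 226304, 1105104]

def E32b4 : List ℕ := [4952064]

def E32b : List ℕ := E32b1 ++ E32b2 ++ E32b3 ++ E32b4

def E32 : List ℕ := E32a ++ E32b

def R32 : List (ℕ × ℕ) := [(3, 3), (5, 2), (7, 1), (11, 1), (13, 1), (17, 1), (19, 1), (23, 1),
  (29, 1), (31, 1)]

def P32 : List (ℕ × ℕ) := (2, 12) :: R32

theorem s32_T : (T32.all fun x => krok 32 x.1 x.2.1 x.2.2) = true := by decide +kernel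

theorem s32_P : (P32.all fun x => isP x.1) = true := by decide +kernel

theorem s32_L : 2 ^ (3 * 5 - 3) * oddLcm (2 ^ 5) = (P32.map fun x => x.1 ^ x.2).prod := by
  decide +kernel

end Pool.Agent.H33.SMP
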