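import Pool.Agent.H33.SMP.S5T

/-!
# `s = 5`, the sieve, part a
-/

set_option autoImplicit false

namespace Pool.Agent.H33.SMP

theorem s5_Ca : (D5a.all fun d => cq U5 5 1 d L5 1 0 1 0 1 0) = true := by
  decide +kernel

end Pool.Agent.H33.SMP
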