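import Pool.Agent.H33.SMP.S5T

/-!
# `s = 5`, small `K` and small exponents
-/

set_option autoImplicit false

namespace Pool.Agent.H33.SMP

theorem s5_K : enu N5 1 (leafK 5 261 7 T5 (fun _ _ => false)) = true := by decide +kernel

theorem s5_l : ((List.range (0 + 4)).all fun c => D5.all fun d =>
    leaf 5 T5 E5 (d * 5 ^ c)) = true := by decide +kernel

end Pool.Agent.H33.SMP
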