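import Pool.Agent.H33.SMP.S5L
import Pool.Agent.H33.SMP.S5K
import Pool.Agent.H33.SMP.S5Ea
import Pool.Agent.H33.SMP.S5Ca

/-!
# `s = 5`
-/

set_option autoImplicit false

namespace Pool.Agent.H33.SMP

open Pool.Agent.H33.SMS (G)

theorem s5_E : (E5.all fun n => fin1 1000003 5 n (fun _ _ => false) 36 0) = true := by
  exact s5_Ea

theorem s5_C : (D5.all fun d => cq U5 5 1 d L5 1 0 1 0 1 0) = true := by
  exact s5_Ca

theorem s5_G (n K : ℕ) (hn : 2 * 5 < n) : G n 5 K ≠ 0 := by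
  intro hG
  rcases Nat.lt_or_ge K 7 with hK | hK
  · exact small_K 5 7 261 N5 T5 (fun _ _ => false) (by norm_num) (by norm_num) s5_T s5_N s5_c s5_q
      (by norm_num) s5_K n K hK hn rfl hG
  · refine mm_scheme 5 5 1 0 0 4 500 7 36 B5_4 D5 L5 T5 E5 U5 s5_U (fun _ _ => false) (by
        norm_num) (by norm_num)
      (by norm_num) (by norm_num) (by norm_num) (by norm_num [Nat.factorial]) (by norm_num)
      (by norm_num) (by norm_num) s5_T s5_E s5_l (fun K hK hQ => s5_B K hK hQ) s5_ok s5_C n K hK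
            hn ?_ rfl hG
    have hpk : ∀ p k, p.Prime → p ≠ 5 → p ^ k ∣ n → p ^ k ∣ (M5.map fun x => x.1 ^ x.2).prod := by
      intro p k hp hpq hk
      refine mq_pp 5 n K _ p k (by norm_num) s5_d (by omega) hG hp ?_ hk
      intro hps
      exact hpq ((Nat.prime_dvd_prime_iff_eq hp (by norm_num)).1
        (hp.dvd_of_dvd_pow (show p ∣ 5 ^ 1 by simpa using hps)))
    obtain ⟨c, m, hm, hnm⟩ := mq_D 5 n _ (by omega) (by norm_num) hpk
    exact ⟨c, m, mq_mem D5 M5 m s5_M s5_D hm, hnm⟩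

end Pool.Agent.H33.SMP
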