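import Pool.Agent.H33.SMP.S5T

/-!
# `s = 5`, the bad classes
-/

set_option autoImplicit false

namespace Pool.Agent.H33.SMP

theorem s5_l1 : fin9 W5 (5 ^ (0 + 1)) 0 4 1 [0] 4 B5_1 = true := by
  decide +kernel

theorem s5_l2 : fin9 W5 (5 ^ (0 + 2)) 0 20 4 B5_1 20 B5_2 = true := by
  decide +kernel

theorem s5_l3 : fin9 W5 (5 ^ (0 + 3)) 0 100 20 B5_2 100 B5_3 = true := by
  decide +kernel

theorem s5_l4 : fin9 W5 (5 ^ (0 + 4)) 0 500 100 B5_3 500 B5_4 = true := by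
  decide +kernel

theorem s5_B (K : ℕ) (hK : 7 ≤ K) (hQ : 5 ^ (0 + 4) ∣ LL 5 K) : K % 500 ∈ B5_4 := by
  have h1 := fin_nine 5 (5 ^ (0 + 1)) 0 4 1 4 W5 _ _ s5_W s5_l1 K (by omega) (by simp
        [Nat.mod_one])
    ((pow_dvd_pow 5 (by norm_num)).trans hQ)
  have h2 := fin_nine 5 (5 ^ (0 + 2)) 0 20 4 20 W5 _ _ s5_W s5_l2 K (by omega) h1
    ((pow_dvd_pow 5 (by norm_num)).trans hQ)
  have h3 := fin_nine 5 (5 ^ (0 + 3)) 0 100 20 100 W5 _ _ s5_W s5_l3 K (by omega) h2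
    ((pow_dvd_pow 5 (by norm_num)).trans hQ)
  have h4 := fin_nine 5 (5 ^ (0 + 4)) 0 500 100 500 W5 _ _ s5_W s5_l4 K (by omega) h3
    ((pow_dvd_pow 5 (by norm_num)).trans hQ)
  exact h4

end Pool.Agent.H33.SMP
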