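import Pool.Agent.H33.SMP.MM

/-!
# `s = 5`, tables
-/

set_option autoImplicit false

namespace Pool.Agent.H33.SMP

def T5 : List (ℕ × ℕ × List (ℕ × ℕ × ℕ × ℕ)) := [
  (3, 1, [(3, 1, 1, 1), (9, 2, 2, 4)])]

def D5a : List ℕ := [1, 3, 2, 6, 4, 12]

def D5 : List ℕ := D5a

def M5 : List (ℕ × ℕ) := [(2, 2), (3, 1)]

def N5 : List (ℕ × ℕ) := [(2, 2), (3, 1), (5, 3)]

def B5_1 : List ℕ := [0, 2, 3]

def B5_2 : List ℕ := [0, 4, 8, 11, 12, 14, 16]

def B5_3 : List ℕ := [4, 12, 24, 31, 32, 44, 52, 64, 72, 74, 84, 92]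

def B5_4 : List ℕ := [24, 31, 72, 124, 172, 224, 272, 324, 372, 374, 424, 472]

def L5 : List Sm := [Sm.P 2 2 1 1 [(16, 4, 1, 4)], Sm.P 2 1 1 1 [(8, 3, 1, 4)], Sm.C 2, Sm.P 3 1
  2 1 [(3, 1, 1, 1), (9, 2, 2, 4)], Sm.P 2 2 2 1 [(16, 4, 1, 2), (32, 5, 3, 4)], Sm.K 4, Sm.R 4
  [13], Sm.K 3, Sm.C 2, Sm.T 13 12 4 1, Sm.K 5, Sm.R 20 [22544], Sm.C 3, Sm.T 31 30 3 1, Sm.K 5,
  Sm.R 100 [23611832414350390329344], Sm.K 2, Sm.T 601 600 12 1]

def U5 : List (ℕ × ℕ × Bool) := [(5, 24, true), (4, 24, false), (3, 12, true), (2, 4, false),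
  (1, 1, true)]

def W5 : List (ℕ × ℕ) := [(24, 4), (12, 3), (8, 2), (6, 1)]

theorem s5_U : tbl 5 = U5 := by decide +kernel

theorem s5_W : wts 5 = W5 := by decide +kernel

def E5a : List ℕ := [12, 20, 25, 30, 50, 75, 100, 125, 250, 300, 500, 750]

def E5 : List ℕ := E5a

theorem s5_T : (T5.all fun x => krok 5 x.1 x.2.1 x.2.2) = true := by decide +kernel

theorem s5_M : (M5.all fun x => isP x.1) = true := by decide +kernel

theorem s5_N : (N5.all fun x => isP x.1) = true := by decide +kernel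

theorem s5_D : enu M5 1 (fun m => D5.contains m) = true := by decide +kernel

theorem s5_c : copr 5 (N5.map fun x => x.1 ^ x.2).prod = true := by decide +kernel

theorem s5_q : qpw 5 261 (N5.map fun x => x.1 ^ x.2).prod = true := by decide +kernel

theorem s5_d : copr 5 (M5.map fun x => x.1 ^ x.2).prod = true := by decide +kernel

theorem s5_ok : L5.all (okM 5 5 1 500 B5_4) = true := by decide +kernel

end Pool.Agent.H33.SMP
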