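import Pool.Agent.H33.SMP.S6T

/-!
# `s = 6`, the bad classes
-/

set_option autoImplicit false

namespace Pool.Agent.H33.SMP

theorem s6_l1 : fin9 W6 (3 ^ (1 + 1)) 2 2 1 [0] 2 B6_1 = true := by
  decide +kernel

theorem s6_l2 : fin9 W6 (3 ^ (1 + 2)) 3 6 2 B6_1 6 B6_2 = true := by
  decide +kernel

theorem s6_l3 : fin9 W6 (3 ^ (1 + 3)) 4 18 6 B6_2 18 B6_3 = true := by
  decide +kernel

theorem s6_l4 : fin9 W6 (3 ^ (1 + 4)) 5 54 18 B6_3 54 B6_4 = true := by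
  decide +kernel

theorem s6_B (K : ℕ) (hK : 13 ≤ K) (hQ : 3 ^ (1 + 4) ∣ LL 6 K) : K % 54 ∈ B6_4 := by
  have h1 := fin_nine 6 (3 ^ (1 + 1)) 2 2 1 2 W6 _ _ s6_W s6_l1 K (by omega) (by simp
        [Nat.mod_one])
    ((pow_dvd_pow 3 (by norm_num)).trans hQ)
  have h2 := fin_nine 6 (3 ^ (1 + 2)) 3 6 2 6 W6 _ _ s6_W s6_l2 K (by omega) h1
    ((pow_dvd_pow 3 (by norm_num)).trans hQ)
  have h3 := fin_nine 6 (3 ^ (1 + 3)) 4 18 6 18 W6 _ _ s6_W s6_l3 K (by omega) h2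
    ((pow_dvd_pow 3 (by norm_num)).trans hQ)
  have h4 := fin_nine 6 (3 ^ (1 + 4)) 5 54 18 54 W6 _ _ s6_W s6_l4 K (by omega) h3
    ((pow_dvd_pow 3 (by norm_num)).trans hQ)
  exact h4

end Pool.Agent.H33.SMP
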