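import Pool.Agent.H33.SMP.MM

/-!
# `s = 6`, tables
-/

set_option autoImplicit false

namespace Pool.Agent.H33.SMP

def ex6 (n K : ℕ) : Bool := (n == 27 && K == 3)

def T6 : List (ℕ × ℕ × List (ℕ × ℕ × ℕ × ℕ)) := [
  (5, 1, [(25, 2, 1, 5)])]

def D6a : List ℕ := [1, 2, 4, 5, 10, 20]

def D6 : List ℕ := D6a

def M6 : List (ℕ × ℕ) := [(5, 1), (2, 2)]

def N6 : List (ℕ × ℕ) := [(2, 14), (3, 9), (5, 1)]

def B6_1 : List ℕ := [0]

def B6_2 : List ℕ := [2]

def B6_3 : List ℕ := [8]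

def B6_4 : List ℕ := [26]

def L6 : List Sm := [Sm.C 2, Sm.K 2, Sm.R 2 [1], Sm.K 3, Sm.R 6 [4], Sm.C 3, Sm.T 7 6 6 1, Sm.K
  3, Sm.R 18 [256], Sm.K 2, Sm.T 13 12 3 1, Sm.K 3, Sm.R 54 [67108864], Sm.C 3, Sm.T 37 36 18 1,
  Sm.T 19 18 18 1, Sm.C 3, Sm.T 109 108 27 1]

def U6 : List (ℕ × ℕ × Bool) := [(6, 120, false), (5, 120, true), (4, 60, false), (3, 20, true),
  (2, 5, false), (1, 1, true)]

def W6 : List (ℕ × ℕ) := [(120, 5), (60, 4), (40, 3), (30, 2), (24, 1)]

theorem s6_U : tbl 6 = U6 := by decide +kernel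

theorem s6_W : wts 6 = W6 := by decide +kernel

def E6a : List ℕ := [18, 27, 30, 36, 54, 81, 108, 162, 180, 324, 405]

def E6 : List ℕ := E6a

theorem s6_T : (T6.all fun x => krok 6 x.1 x.2.1 x.2.2) = true := by decide +kernel

theorem s6_M : (M6.all fun x => isP x.1) = true := by decide +kernel

theorem s6_N : (N6.all fun x => isP x.1) = true := by decide +kernel

theorem s6_D : enu M6 1 (fun m => D6.contains m) = true := by decide +kernel

theorem s6_c : copr 6 (N6.map fun x => x.1 ^ x.2).prod = true := by decide +kernel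

theorem s6_q : qpw 6 20486 (N6.map fun x => x.1 ^ x.2).prod = true := by decide +kernel

theorem s6_d : copr 6 (M6.map fun x => x.1 ^ x.2).prod = true := by decide +kernel

theorem s6_ok : L6.all (okM 6 3 1 54 B6_4) = true := by decide +kernel

end Pool.Agent.H33.SMP
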