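import Pool.Agent.H33.SMP.S7T

/-!
# `s = 7`, the bad classes
-/

set_option autoImplicit false

namespace Pool.Agent.H33.SMP

theorem s7_l1 : fin9 W7 (7 ^ (0 + 1)) 0 6 1 [0] 6 B7_1 = true := by
  decide +kernel

theorem s7_l2 : fin9 W7 (7 ^ (0 + 2)) 0 42 6 B7_1 42 B7_2 = true := by
  decide +kernel

theorem s7_l3 : fin9 W7 (7 ^ (0 + 3)) 0 294 42 B7_2 294 B7_3 = true := by
  decide +kernel

theorem s7_l4 : fin9 W7 (7 ^ (0 + 4)) 0 2058 294 B7_3 2058 B7_4 = true := by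
  decide +kernel

theorem s7_B (K : ℕ) (hK : 7 ≤ K) (hQ : 7 ^ (0 + 4) ∣ LL 7 K) : K % 2058 ∈ B7_4 := by
  have h1 := fin_nine 7 (7 ^ (0 + 1)) 0 6 1 6 W7 _ _ s7_W s7_l1 K (by omega) (by simp
        [Nat.mod_one])
    ((pow_dvd_pow 7 (by norm_num)).trans hQ)
  have h2 := fin_nine 7 (7 ^ (0 + 2)) 0 42 6 42 W7 _ _ s7_W s7_l2 K (by omega) h1
    ((pow_dvd_pow 7 (by norm_num)).trans hQ)
  have h3 := fin_nine 7 (7 ^ (0 + 3)) 0 294 42 294 W7 _ _ s7_W s7_l3 K (by omega) h2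
    ((pow_dvd_pow 7 (by norm_num)).trans hQ)
  have h4 := fin_nine 7 (7 ^ (0 + 4)) 0 2058 294 2058 W7 _ _ s7_W s7_l4 K (by omega) h3
    ((pow_dvd_pow 7 (by norm_num)).trans hQ)
  exact h4

end Pool.Agent.H33.SMP
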