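import Pool.Agent.H33.SMP.MM

/-!
# `s = 7`, tables
-/

set_option autoImplicit false

namespace Pool.Agent.H33.SMP

def T7 : List (ℕ × ℕ × List (ℕ × ℕ × ℕ × ℕ)) := [
  (5, 1, [(5, 1, 1, 1), (25, 2, 2, 6)]),
  (3, 1, [(9, 2, 1, 3), (27, 3, 4, 6)])]

def D7a1 : List ℕ := [1, 5, 3, 15]

def D7a2 : List ℕ := [2, 10, 6, 30, 4, 20, 12, 60]

def D7a : List ℕ := D7a1 ++ D7a2

def D7 : List ℕ := D7a

def M7 : List (ℕ × ℕ) := [(2, 2), (3, 1), (5, 1)]

def N7 : List (ℕ × ℕ) := [(2, 2), (3, 1), (5, 1), (7, 3)]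

def B7_1 : List ℕ := [0, 2, 3, 4, 5]

def B7_2 : List ℕ := [0, 4, 6, 10, 12, 15, 16, 18, 20, 22, 24, 28, 29, 30, 34, 36, 40]

def B7_3 : List ℕ := [6, 16, 30, 34, 48, 58, 72, 76, 90, 100, 114, 118, 132, 141, 142, 146, 156,
  160, 174, 184, 197, 198, 202, 216, 226, 240, 244, 258, 268, 282, 286]

def B7_4 : List ℕ := [48, 197, 198, 226, 244, 342, 492, 520, 538, 636, 729, 786, 814, 832, 930,
  1028, 1080, 1108, 1126, 1224, 1374, 1402, 1420, 1518, 1668, 1696, 1714, 1812, 1962, 1990,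
  2008]

def L7 : List Sm := [Sm.C 2, Sm.P 2 2 2 1 [(8, 3, 1, 2), (32, 5, 3, 4), (64, 6, 5, 6)], Sm.C 3,
  Sm.P 3 1 3 1 [(9, 2, 1, 3), (27, 3, 4, 6)], Sm.K 6, Sm.R 6 [61], Sm.K 7, Sm.R 42
  [18791628864], Sm.T 43 42 6 1, Sm.K 7, Sm.R 294
  [28269660876241420477658535801392363141491003655022374156233248148625031168, 0], Sm.K 3, Sm.T
  19 18 3 1, Sm.K 7, Sm.K 2, Sm.C 3, Sm.T 37 36 9 1, Sm.C 2, Sm.T 13 12 12 1, Sm.K 5, Sm.T 181
  180 12 1, Sm.K 2, Sm.C 2, Sm.T 73 72 24 1, Sm.C 5, Sm.T 281 280 20 1, Sm.K 3, Sm.T 541 540 90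
  1, Sm.C 3, Sm.T 271 270 135 1, Sm.K 3, Sm.T 811 810 27 1, Sm.C 3, Sm.T 1621 1620 81 1, Sm.C
  343, Sm.T 1373 1372 343 1, Sm.T 8233 8232 343 1]

def U7 : List (ℕ × ℕ × Bool) := [(7, 720, true), (6, 720, false), (5, 360, true), (4, 120,
  false), (3, 30, true), (2, 6, false), (1, 1, true)]

def W7 : List (ℕ × ℕ) := [(720, 6), (360, 5), (240, 4), (180, 3), (144, 2), (120, 1)]

theorem s7_U : tbl 7 = U7 := by decide +kernel

theorem s7_W : wts 7 = W7 := by decide +kernel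

def E7a : List ℕ := [21, 28, 30, 49, 84, 98, 147, 196, 343, 588, 686, 980, 1029, 1372, 2058,
  3430, 4116, 20580]

def E7 : List ℕ := E7a

theorem s7_T : (T7.all fun x => krok 7 x.1 x.2.1 x.2.2) = true := by decide +kernel

theorem s7_M : (M7.all fun x => isP x.1) = true := by decide +kernel

theorem s7_N : (N7.all fun x => isP x.1) = true := by decide +kernel

theorem s7_D : enu M7 1 (fun m => D7.contains m) = true := by decide +kernel

theorem s7_c : copr 7 (N7.map fun x => x.1 ^ x.2).prod = true := by decide +kernel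

theorem s7_q : qpw 7 391 (N7.map fun x => x.1 ^ x.2).prod = true := by decide +kernel

theorem s7_d : copr 7 (M7.map fun x => x.1 ^ x.2).prod = true := by decide +kernel

theorem s7_ok : L7.all (okM 7 7 1 2058 B7_4) = true := by decide +kernel

end Pool.Agent.H33.SMP
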