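import Pool.Agent.H33.SMP.FB

/-!
# `s = 8`, tables
-/

set_option autoImplicit false

namespace Pool.Agent.H33.SMP

def T8 : List (ℕ × ℕ × List (ℕ × ℕ × ℕ × ℕ)) := [
  (7, 1, [(49, 2, 1, 7)]),
  (5, 1, [(5, 1, 1, 2), (25, 2, 3, 7)]),
  (3, 1, [(3, 1, 1, 1), (9, 2, 2, 4), (27, 3, 5, 7)])]

def E8a : List ℕ := [30, 32, 48, 56, 64, 80, 192, 448, 480]

def E8 : List ℕ := E8a

def R8 : List (ℕ × ℕ) := [(3, 1), (5, 1), (7, 1)]

def P8 : List (ℕ × ℕ) := (2, 6) :: R8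

theorem s8_T : (T8.all fun x => krok 8 x.1 x.2.1 x.2.2) = true := by decide +kernel

theorem s8_P : (P8.all fun x => isP x.1) = true := by decide +kernel

theorem s8_L : 2 ^ (3 * 3 - 3) * oddLcm (2 ^ 3) = (P8.map fun x => x.1 ^ x.2).prod := by
  decide +kernel

end Pool.Agent.H33.SMP
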