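import Pool.Agent.H33.SMP.S9T

/-!
# `s = 9`, the bad classes
-/

set_option autoImplicit false

namespace Pool.Agent.H33.SMP

theorem s9_l1 : fin9 W9 (3 ^ (2 + 1)) 2 2 1 [0] 2 B9_1 = true := by
  decide +kernel

theorem s9_l2 : fin9 W9 (3 ^ (2 + 2)) 3 6 2 B9_1 6 B9_2 = true := by
  decide +kernel

theorem s9_l3 : fin9 W9 (3 ^ (2 + 3)) 4 18 6 B9_2 18 B9_3 = true := by
  decide +kernel

theorem s9_l4 : fin9 W9 (3 ^ (2 + 4)) 5 54 18 B9_3 54 B9_4 = true := by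
  decide +kernel

theorem s9_l5 : fin9 W9 (3 ^ (2 + 5)) 6 162 54 B9_4 162 B9_5 = true := by
  decide +kernel

theorem s9_l6 : fin9 W9 (3 ^ (2 + 6)) 7 486 162 B9_5 486 B9_6 = true := by
  decide +kernel

theorem s9_B (K : ℕ) (hK : 7 ≤ K) (hQ : 3 ^ (2 + 6) ∣ LL 9 K) : K % 486 ∈ B9_6 := by
  have h1 := fin_nine 9 (3 ^ (2 + 1)) 2 2 1 2 W9 _ _ s9_W s9_l1 K (by omega) (by simp
        [Nat.mod_one])
    ((pow_dvd_pow 3 (by norm_num)).trans hQ)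
  have h2 := fin_nine 9 (3 ^ (2 + 2)) 3 6 2 6 W9 _ _ s9_W s9_l2 K (by omega) h1
    ((pow_dvd_pow 3 (by norm_num)).trans hQ)
  have h3 := fin_nine 9 (3 ^ (2 + 3)) 4 18 6 18 W9 _ _ s9_W s9_l3 K (by omega) h2
    ((pow_dvd_pow 3 (by norm_num)).trans hQ)
  have h4 := fin_nine 9 (3 ^ (2 + 4)) 5 54 18 54 W9 _ _ s9_W s9_l4 K (by omega) h3
    ((pow_dvd_pow 3 (by norm_num)).trans hQ)
  have h5 := fin_nine 9 (3 ^ (2 + 5)) 6 162 54 162 W9 _ _ s9_W s9_l5 K (by omega) h4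
    ((pow_dvd_pow 3 (by norm_num)).trans hQ)
  have h6 := fin_nine 9 (3 ^ (2 + 6)) 7 486 162 486 W9 _ _ s9_W s9_l6 K (by omega) h5
    ((pow_dvd_pow 3 (by norm_num)).trans hQ)
  exact h6

end Pool.Agent.H33.SMP
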