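import Pool.Agent.H33.SMP.MM

/-!
# `s = 9`, tables
-/

set_option autoImplicit false

namespace Pool.Agent.H33.SMP

def T9 : List (ℕ × ℕ × List (ℕ × ℕ × ℕ × ℕ)) := [
  (7, 1, [(7, 1, 1, 1), (49, 2, 2, 8)]),
  (5, 1, [(5, 1, 1, 3), (25, 2, 4, 8)])]

def D9a : List ℕ := [1, 7, 5, 35, 2, 14, 10, 70, 4, 28, 20, 140, 8, 56, 40, 280]

def D9 : List ℕ := D9a

def M9 : List (ℕ × ℕ) := [(2, 3), (5, 1), (7, 1)]

def N9 : List (ℕ × ℕ) := [(2, 3), (3, 5), (5, 1), (7, 1)]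

def B9_1 : List ℕ := [0, 1]

def B9_2 : List ℕ := [0, 2, 4]

def B9_3 : List ℕ := [0, 2, 4, 6, 8, 10, 12, 14, 16]

def B9_4 : List ℕ := [2, 8, 14, 20, 26, 32, 38, 44, 50]

def B9_5 : List ℕ := [8, 26, 44, 62, 80, 98, 116, 134, 152]

def B9_6 : List ℕ := [26, 80, 134, 188, 242, 296, 350, 404, 458]

def L9 : List Sm := [Sm.C 2, Sm.P 2 3 2 1 [(64, 6, 1, 8)], Sm.P 2 2 2 1 [(32, 5, 1, 8)], Sm.P 2
  1 2 1 [(16, 4, 1, 8)], Sm.C 3, Sm.P 7 1 6 1 [(7, 1, 1, 1), (49, 2, 2, 8)], Sm.K 2, Sm.R 2 [1],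
  Sm.K 3, Sm.R 6 [4], Sm.K 2, Sm.T 13 12 3 1, Sm.K 3, Sm.R 18 [256], Sm.C 3, Sm.T 37 36 18 1,
  Sm.K 3, Sm.R 54 [67108864], Sm.T 19 18 18 1, Sm.K 3, Sm.C 3, Sm.T 109 108 27 1, Sm.K 3, Sm.C
  3, Sm.T 163 162 162 1]

def U9 : List (ℕ × ℕ × Bool) := [(9, 40320, true), (8, 40320, false), (7, 20160, true), (6,
  6720, false), (5, 1680, true), (4, 336, false), (3, 56, true), (2, 8, false), (1, 1, true)]

def W9 : List (ℕ × ℕ) := [(40320, 8), (20160, 7), (13440, 6), (10080, 5), (8064, 4), (6720, 3),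
  (5760, 2), (5040, 1)]

theorem s9_U : tbl 9 = U9 := by decide +kernel

theorem s9_W : wts 9 = W9 := by decide +kernel

def E9a : List ℕ := [24, 27, 30, 36, 54, 56, 72, 81, 105, 108, 162, 180, 216, 243, 252, 324,
  405, 486, 648, 729, 972, 1080, 1134, 1458, 1944, 2430, 2916, 3780, 5103, 5832, 14580, 40824]

def E9 : List ℕ := E9a

theorem s9_T : (T9.all fun x => krok 9 x.1 x.2.1 x.2.2) = true := by decide +kernel

theorem s9_M : (M9.all fun x => isP x.1) = true := by decide +kernel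

theorem s9_N : (N9.all fun x => isP x.1) = true := by decide +kernel

theorem s9_D : enu M9 1 (fun m => D9.contains m) = true := by decide +kernel

theorem s9_c : copr 9 (N9.map fun x => x.1 ^ x.2).prod = true := by decide +kernel

theorem s9_q : qpw 9 521 (N9.map fun x => x.1 ^ x.2).prod = true := by decide +kernel

theorem s9_d : copr 9 (M9.map fun x => x.1 ^ x.2).prod = true := by decide +kernel

theorem s9_ok : L9.all (okM 9 3 1 486 B9_6) = true := by decide +kernel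

end Pool.Agent.H33.SMP
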