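import Pool.Agent.H33.SMP.DC

/-!
# The largest root for `s = 2 * odd`
-/

set_option autoImplicit false

namespace Pool.Agent.H33.SMP

open Pool.Agent.H33.SMS (G)

/-- The check for one multiplier. -/
def fin5 (s m Q κ ρ : ℕ) (B : List ℕ) (L : List Stp) : Bool :=
  ρ % 16 == 0 && (List.range (s - 1)).all (fun i => (i + 1) ^ (κ + ρ) % Q == (i + 1) ^ κ % Q) &&
    ((s / 2) ^ (κ + ρ) % Q == (s / 2) ^ κ % Q) &&
    ((List.range ρ).all fun k => (m * LL s (κ + k) % Q != (s - 1).factorial * (s / 2) ^ (κ + k) % Q)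
      || B.contains ((κ + k) % 16)) &&
    L.all (okT s 2) &&
    (List.range 96).all (fun k => (!(B.contains (k % 16))) || chk (tbl s) 2 m L 96 k 96 k)

theorem tp_five (s m φ l w κ ρ K : ℕ) (B : List ℕ) (L : List Stp) (hs : 2 ≤ s) (h2 : 2 ∣ s)
    (hφ : 2 ^ φ ∣ (s - 1).factorial) (hsl : s ≤ 2 ^ (l + 1)) (hlw : l + w ≤ K) (hm : 1 ≤ m)
    (hρ : 0 < ρ) (hκ : κ ≤ K) (h : fin5 s m (2 ^ (φ + w)) κ ρ B L = true) :
    G (m * 2 ^ K) s K ≠ 0 := by
  intro hG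
  simp only [fin5, Bool.and_eq_true, beq_iff_eq, List.all_eq_true, List.mem_range,
    Bool.or_eq_true, bne_iff_ne, ne_eq, List.contains_iff_mem, Bool.not_eq_true'] at h
  obtain ⟨⟨⟨⟨⟨h1, h3⟩, h3'⟩, h4⟩, h5⟩, h6⟩ := h
  have eK : K = κ + (K - κ) % ρ + ρ * ((K - κ) / ρ) := by
    have := Nat.div_add_mod (K - κ) ρ
    omega
  have hLL : LL s K ≡ LL s (κ + (K - κ) % ρ) [MOD 2 ^ (φ + w)] := by
    unfold LL
    apply Nat.ModEq.sum
    intro j hj
    rw [Finset.mem_Icc] at hj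
    apply Nat.ModEq.mul_left
    have h5 := h3 (s - j - 1) (by omega)
    have e5 : s - j - 1 + 1 = s - j := by omega
    rw [e5] at h5
    conv_lhs => rw [eK]
    exact fin_pow (s - j) _ κ ρ _ _ h5
  have hss : (s / 2) ^ K ≡ (s / 2) ^ (κ + (K - κ) % ρ) [MOD 2 ^ (φ + w)] := by
    conv_lhs => rw [eK]
    exact fin_pow (s / 2) _ κ ρ _ _ h3'
  have hdiv : m * LL s K ≡ (s - 1).factorial * (s / 2) ^ K [MOD 2 ^ (φ + w)] := by
    have h7 := mn_top φ l s m K hs h2 hφ hsl (by omega) hm hG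
    have h8 : (2 : ℤ) ^ (φ + w) ∣ (2 : ℤ) ^ (φ + (K - l)) := pow_dvd_pow _ (by omega)
    rw [Nat.modEq_iff_dvd]
    have h9 := (h8.trans h7).neg_right
    rw [neg_sub] at h9
    push_cast
    exact_mod_cast h9
  have h10 := h4 ((K - κ) % ρ) (Nat.mod_lt _ hρ)
  have h11 : m * LL s (κ + (K - κ) % ρ) % 2 ^ (φ + w) =
      (s - 1).factorial * (s / 2) ^ (κ + (K - κ) % ρ) % 2 ^ (φ + w) :=
    ((hLL.mul_left m).symm.trans hdiv).trans (hss.mul_left _)
  rcases h10 with h10 | h10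
  · exact h10 h11
  · have e7 : K % 16 = (κ + (K - κ) % ρ) % 16 := by
      conv_lhs => rw [eK]
      rw [Nat.add_mod, Nat.mul_mod, h1]
      simp
    rw [← e7] at h10
    have e8 : K % 96 % 16 = K % 16 := Nat.mod_mod_of_dvd K (by norm_num)
    rcases h6 (K % 96) (Nat.mod_lt _ (by norm_num)) with h12 | h12
    · rw [e8] at h12
      have := List.contains_iff_mem.2 h10
      rw [h12] at this
      exact absurd this (by simp)
    · exact pf_CHK s 2 m L 96 (K % 96) 96 (K % 96) hs (by norm_num) (by norm_num)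
        (by simpa only [List.all_eq_true] using h5) h12 K K
        (Nat.mod_modEq K 96).symm (Nat.mod_modEq K 96).symm hG

/-- The reduction to the multiples of `2 ^ K`. -/
theorem tp_red (s n φ l K κ ρ K0 : ℕ) (hs : 2 ≤ s) (h2 : 2 ∣ s)
    (hφ : 2 ^ φ ∣ (s - 1).factorial) (hsl : s ≤ 2 ^ (l + 1)) (hK0 : K0 ≤ K) (hl : l + 1 ≤ K0)
    (hκ : κ ≤ K0) (hρ : 0 < ρ) (hn : 1 ≤ n)
    (h4 : fin4 s (2 ^ (φ + 1)) κ ρ 1 [] = true) (h8 : 2 ^ (l + 1) ∣ n) (hG : G n s K = 0) :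
    ∃ m, 1 ≤ m ∧ m < s ∧ n = m * 2 ^ K := by
  have hL : ¬ 2 ^ (φ + 1) ∣ LL s K := by
    intro h
    have := fin_four s (2 ^ (φ + 1)) κ ρ 1 [] hρ h4 K (by omega) h
    simp at this
  have h5 := yc_dich 2 1 φ l 1 s n K Nat.prime_two le_rfl (by simpa using h2) hφ hsl (by omega) hn
    hs h8 hL hG
  have h6 : 2 ^ K ∣ n := by
    rw [one_mul, pow_succ, pow_one] at h5
    exact Nat.dvd_of_mul_dvd_mul_right (by norm_num) h5
  obtain ⟨m, rfl⟩ := h6
  refine ⟨m, ?_, ?_, by ring⟩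
  · rcases Nat.eq_zero_or_pos m with h | h
    · subst h
      omega
    · exact h
  · by_contra h7
    apply pf_UP s (2 ^ K * m) K hs _ hG
    have h9 : s ≤ 2 ^ K := hsl.trans (Nat.pow_le_pow_right (by norm_num) (by omega))
    have h10 : s ≤ m := by omega
    calc (s - 1) * 2 ^ K + s ≤ (s - 1) * 2 ^ K + 2 ^ K := by omega
      _ = s * 2 ^ K := by
        obtain ⟨u, rfl⟩ : ∃ u, s = u + 1 := ⟨s - 1, by omega⟩
        simp only [Nat.add_sub_cancel]
        ring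
      _ ≤ 2 ^ K * m := by
        rw [mul_comm]
        exact Nat.mul_le_mul_left _ h10

end Pool.Agent.H33.SMP
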