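import Pool.Agent.H33.SMP.FL
import Pool.Agent.H33.SMP.TP

/-!
# Small `K`, and the power of two
-/

set_option autoImplicit false

namespace Pool.Agent.H33.SMP

open Pool.Agent.H33.SMS (G Det Crit)

/-- One `n`, all `K < K0`. -/
def leafK (s Bd K0 : ℕ) (T : List (ℕ × ℕ × List (ℕ × ℕ × ℕ × ℕ))) (ex : ℕ → ℕ → Bool) (n : ℕ) :
    Bool :=
  decide (n ≤ 2 * s) || decide (Bd ≤ n) || (T.any fun x => kr x.1 x.2.1 n x.2.2) ||
    (List.range K0).all fun K => decide ((s - 1) * 2 ^ K + s ≤ n) || ex n K ||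
      (hor 1000003 (n % 1000003) K (tbl s) 0 % 1000003 != 0)

/-- The powers below `Bd` of the divisors of `s` divide `M`. -/
def qpw (s Bd M : ℕ) : Bool :=
  decide (Bd ≤ 2 ^ 64) && (List.range (s + 1)).all fun p => decide (p < 2) || s % p != 0 ||
    (List.range 64).all fun k => decide (Bd ≤ p ^ k) || M % p ^ k == 0

theorem small_K (s K0 Bd : ℕ) (PL : List (ℕ × ℕ)) (T : List (ℕ × ℕ × List (ℕ × ℕ × ℕ × ℕ)))
    (ex : ℕ → ℕ → Bool) (hs : 2 ≤ s) (hr : s < 1000003)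
    (hT : (T.all fun x => krok s x.1 x.2.1 x.2.2) = true)
    (hP : (PL.all fun x => isP x.1) = true)
    (hc : copr s (PL.map fun x => x.1 ^ x.2).prod = true)
    (hq : qpw s Bd (PL.map fun x => x.1 ^ x.2).prod = true)
    (hBd : (s - 1) * 2 ^ (K0 - 1) + s ≤ Bd)
    (h : enu PL 1 (leafK s Bd K0 T ex) = true) :
    ∀ n K, K < K0 → 2 * s < n → ex n K = false → G n s K ≠ 0 := by
  intro n K hK hn hex hG
  have h1 : n < (s - 1) * 2 ^ K + s := by
    by_contra h1
    exact pf_UP s n K hs (by omega) hG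
  have h2 : n < Bd := by
    have : 2 ^ K ≤ 2 ^ (K0 - 1) := Nat.pow_le_pow_right (by norm_num) (by omega)
    have : (s - 1) * 2 ^ K ≤ (s - 1) * 2 ^ (K0 - 1) := Nat.mul_le_mul_left _ this
    omega
  have h3 : n ∣ (PL.map fun x => x.1 ^ x.2).prod := by
    rw [Nat.dvd_iff_prime_pow_dvd_dvd]
    intro p k hp hk
    by_cases hps : p ∣ s
    · simp only [qpw, List.all_eq_true, List.mem_range, Bool.or_eq_true, beq_iff_eq, bne_iff_ne,
        ne_eq, Bool.and_eq_true, decide_eq_true_eq] at hq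
      have h4 : p ^ k < Bd := lt_of_le_of_lt (Nat.le_of_dvd (by omega) hk) h2
      have h5 : k < 64 := by
        by_contra h5
        have h6 : 2 ^ 64 ≤ p ^ k := by
          calc 2 ^ 64 ≤ 2 ^ k := Nat.pow_le_pow_right (by norm_num) (by omega)
            _ ≤ p ^ k := Nat.pow_le_pow_left hp.two_le k
        have := hq.1
        omega
      have h6 := hq.2 p (by have := Nat.le_of_dvd (by omega) hps; omega)
      rcases h6 with (h6 | h6) | h6
      · have := hp.two_le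
        omega
      · exact absurd (Nat.mod_eq_zero_of_dvd hps) h6
      · rcases h6 k h5 with h7 | h7
        · omega
        · exact Nat.dvd_of_mod_eq_zero h7
    · exact mq_pp s n K _ p k (by omega) hc (by omega) hG hp hps hk
  have h4 := enu_ok (leafK s Bd K0 T ex) PL 1 n (fun x hx => isP_prime _
    (List.all_eq_true.1 hP x hx)) h h3
  rw [one_mul] at h4
  simp only [leafK, Bool.or_eq_true, decide_eq_true_eq, List.any_eq_true, List.all_eq_true,
    List.mem_range, bne_iff_ne, ne_eq] at h4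
  rw [List.all_eq_true] at hT
  rcases h4 with ((h4 | h4) | ⟨x, hx, h4⟩) | h4
  · omega
  · omega
  · exact kr_ne s x.1 x.2.1 n x.2.2 (hT x hx) (by omega) h4 K hG
  · rcases h4 K hK with (h5 | h5) | h5
    · omega
    · rw [hex] at h5
      exact absurd h5 (by simp)
    · exact fin_ne 1000003 s n K hr h5 hG

/-- Multiples of four: the power of `2` in `n` for `K ≥ K1`. -/
theorem tg_two (s n K l a u K1 : ℕ) (ha : 1 ≤ a) (hu : ¬ 2 ∣ u) (hs : s = 2 ^ (a + 1) * u)
    (hsl : s ≤ 2 ^ (l + 1)) (hn : 1 ≤ n) (hK1 : 2 * a + 1 ≤ K1) (hK1l : l ≤ K1)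
    (h0 : 2 ^ (2 * a + 1) * ((s - 1) * 2 ^ K1 + s) ≤ 2 ^ ((a + 1) * K1 + 1)) (hK : K1 ≤ K)
    (hG : G n s K = 0) : ¬ 2 ^ (l + (2 * a + 1)) ∣ n := by
  intro h
  have hu0 : 0 < u := Nat.pos_of_ne_zero (by rintro rfl; simp at hu)
  have hs2 : 2 ≤ s := by
    rw [hs, pow_succ]
    have : 0 < 2 ^ a * u := by positivity
    nlinarith
  have h1 := tg_dich s n K l a u ha hu hs hsl hn (by omega) (by omega) hG h
  have h2 := Nat.le_of_dvd (by positivity) h1
  have h3 := mn_size 2 (a + 1) (2 * a + 1) s K1 le_rfl (by omega) h0 K hK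
  have h4 : n < (s - 1) * 2 ^ K + s := by
    by_contra h4
    exact pf_UP s n K hs2 (by omega) hG
  have h5 : n * 2 ^ (2 * a + 1) < 2 ^ (2 * a + 1) * ((s - 1) * 2 ^ K + s) := by
    rw [mul_comm]
    exact Nat.mul_lt_mul_of_pos_left h4 (by positivity)
  omega

/-- The check for one multiplier `m`, with weights; classes modulo `v`. -/
def fin8 (s m Q κ v W : ℕ) (B : List ℕ) (L : List Stp) : Bool :=
  decide (0 < W) && decide (0 < v) && W % v == 0 &&
    (List.range (s - 1)).all (fun i => (s - 1).factorial / (i + 1) * (s - (i + 1)) ^ (κ + v) % Q ==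
      (s - 1).factorial / (i + 1) * (s - (i + 1)) ^ κ % Q) &&
    ((s - 1).factorial * (s / 2) ^ (κ + v) % Q == (s - 1).factorial * (s / 2) ^ κ % Q) &&
    ((List.range v).all fun k =>
      (m * LL s (κ + k) % Q != (s - 1).factorial * (s / 2) ^ (κ + k) % Q)
        || B.contains ((κ + k) % v)) &&
    L.all (okT s 2) &&
    (List.range W).all (fun k => (!(B.contains (k % v))) || chk (tbl s) 2 m L W k W k)

theorem tp_eight (s m φ l w κ v W K : ℕ) (B : List ℕ) (L : List Stp) (hs : 2 ≤ s) (h2 : 2 ∣ s)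
    (hφ : 2 ^ φ ∣ (s - 1).factorial) (hsl : s ≤ 2 ^ (l + 1)) (hlw : l + w ≤ K) (hm : 1 ≤ m)
    (hκ : κ ≤ K) (h : fin8 s m (2 ^ (φ + w)) κ v W B L = true) :
    G (m * 2 ^ K) s K ≠ 0 := by
  intro hG
  simp only [fin8, Bool.and_eq_true, beq_iff_eq, List.all_eq_true, List.mem_range,
    Bool.or_eq_true, bne_iff_ne, ne_eq, List.contains_iff_mem, Bool.not_eq_true',
    decide_eq_true_eq] at h
  obtain ⟨⟨⟨⟨⟨⟨⟨h0, hv⟩, h1⟩, h3⟩, h3'⟩, h4⟩, h5⟩, h6⟩ := h
  have eK : K = κ + (K - κ) % v + v * ((K - κ) / v) := by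
    have := Nat.div_add_mod (K - κ) v
    omega
  have hLL : LL s K ≡ LL s (κ + (K - κ) % v) [MOD 2 ^ (φ + w)] := by
    have := fl_LL s (2 ^ (φ + w)) κ v h3 (κ + (K - κ) % v) ((K - κ) / v) (by omega)
    rwa [← eK] at this
  have hss : (s - 1).factorial * (s / 2) ^ K ≡
      (s - 1).factorial * (s / 2) ^ (κ + (K - κ) % v) [MOD 2 ^ (φ + w)] := by
    conv_lhs => rw [eK]
    exact fl_pow _ (s / 2) _ κ v _ _ h3'
  have hdiv : m * LL s K ≡ (s - 1).factorial * (s / 2) ^ K [MOD 2 ^ (φ + w)] := by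
    have h7 := mn_top φ l s m K hs h2 hφ hsl (by omega) hm hG
    have h8 : (2 : ℤ) ^ (φ + w) ∣ (2 : ℤ) ^ (φ + (K - l)) := pow_dvd_pow _ (by omega)
    rw [Nat.modEq_iff_dvd]
    have h9 := (h8.trans h7).neg_right
    rw [neg_sub] at h9
    push_cast
    exact_mod_cast h9
  have h10 := h4 ((K - κ) % v) (Nat.mod_lt _ hv)
  have h11 : m * LL s (κ + (K - κ) % v) % 2 ^ (φ + w) =
      (s - 1).factorial * (s / 2) ^ (κ + (K - κ) % v) % 2 ^ (φ + w) :=
    ((hLL.mul_left m).symm.trans hdiv).trans hss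
  rcases h10 with h10 | h10
  · exact h10 h11
  · have e7 : K % v = (κ + (K - κ) % v) % v := by
      conv_lhs => rw [eK]
      rw [Nat.add_mul_mod_self_left]
    rw [← e7] at h10
    have e8 : K % W % v = K % v := Nat.mod_mod_of_dvd K (Nat.dvd_of_mod_eq_zero h1)
    rcases h6 (K % W) (Nat.mod_lt _ h0) with h12 | h12
    · rw [e8] at h12
      have := List.contains_iff_mem.2 h10
      rw [h12] at this
      exact absurd this (by simp)
    · exact pf_CHK s 2 m L W (K % W) W (K % W) hs h0 h0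
        (by simpa only [List.all_eq_true] using h5) h12 K K
        (Nat.mod_modEq K W).symm (Nat.mod_modEq K W).symm hG

/-- The reduction to the multiples of `2 ^ K`, with weights. -/
theorem tp_redw (s n φ l K κ ρ K0 : ℕ) (hs : 2 ≤ s) (h2 : 2 ∣ s)
    (hφ : 2 ^ φ ∣ (s - 1).factorial) (hsl : s ≤ 2 ^ (l + 1)) (hK0 : K0 ≤ K) (hl : l + 1 ≤ K0)
    (hκ : κ ≤ K0) (hn : 1 ≤ n)
    (h4 : fin7 s (2 ^ (φ + 1)) κ ρ 1 [0] 1 [] = true) (h8 : 2 ^ (l + 1) ∣ n) (hG : G n s K = 0) :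
    ∃ m, 1 ≤ m ∧ m < s ∧ n = m * 2 ^ K := by
  have hL : ¬ 2 ^ (φ + 1) ∣ LL s K := by
    intro h
    have := fin_seven s (2 ^ (φ + 1)) κ ρ 1 1 [0] [] h4 K (by omega) (by simp [Nat.mod_one]) h
    simp at this
  have h5 := yc_dich 2 1 φ l 1 s n K Nat.prime_two le_rfl (by simpa using h2) hφ hsl (by omega) hn
    hs h8 hL hG
  have h6 : 2 ^ K ∣ n := by
    rw [one_mul, pow_succ, pow_one] at h5
    exact Nat.dvd_of_mul_dvd_mul_right (by norm_num) h5
  obtain ⟨m, rfl⟩ := h6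
  refine ⟨m, ?_, ?_, by ring⟩
  · rcases Nat.eq_zero_or_pos m with h | h
    · subst h
      omega
    · exact h
  · by_contra h7
    apply pf_UP s (2 ^ K * m) K hs _ hG
    have h9 : s ≤ 2 ^ K := hsl.trans (Nat.pow_le_pow_right (by norm_num) (by omega))
    have h10 : s ≤ m := by omega
    calc (s - 1) * 2 ^ K + s ≤ (s - 1) * 2 ^ K + 2 ^ K := by omega
      _ = s * 2 ^ K := by
        obtain ⟨u, rfl⟩ : ∃ u, s = u + 1 := ⟨s - 1, by omega⟩
        simp only [Nat.add_sub_cancel]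
        ring
      _ ≤ 2 ^ K * m := by
        rw [mul_comm]
        exact Nat.mul_le_mul_left _ h10

end Pool.Agent.H33.SMP
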