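import Pool.Agent.H33.SMP.TW

/-!
# The prime powers dividing an exceptional `n`
-/

set_option autoImplicit false

namespace Pool.Agent.H33.SMP

open Pool.Agent.H33.SMS (G Det Crit)
open Finset

theorem cri : Pool.Agent.H33.SMS.T_CRI :=
  Pool.Agent.H56.SMS.pf_CRI Pool.Agent.H32.SMS.pf_REC Pool.Agent.H56.SMS.pf_GZ

/-- A prime `p` with `p ^ c ∣ n`, `p ^ c ≥ s`, does not occur. -/
theorem tg_prime (p c n s : ℕ) (hp : p.Prime) (hps : ¬ p ∣ s) (hsn : s < n) (hc : p ^ c ∣ n)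
    (hs : 1 ≤ s) (h : s ≤ p ^ c) (K : ℕ) : G n s K ≠ 0 := by
  rcases Nat.eq_or_lt_of_le hs with h1 | h1
  · subst h1
    simp [G]
  have hc1 : c ≠ 0 := by
    rintro rfl
    simp at h
    omega
  refine cri p n s ⟨hp, (dvd_pow_self p hc1).trans hc, hps, fun i hi1 his => ?_⟩ hsn K
  have := Fact.mk hp
  by_contra hlt
  push Not at hlt
  have h2 : padicValNat p n ≤ padicValNat p (n - i) := by omega
  have h3 : p ^ c ∣ n - i := by
    have h4 : p ^ padicValNat p (n - i) ∣ n - i := pow_padicValNat_dvd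
    have h5 : c ≤ padicValNat p n := (padicValNat_dvd_iff_le (by omega)).1 hc
    exact (pow_dvd_pow p (h5.trans h2)).trans h4
  have h6 : p ^ c ∣ i := by
    have h7 := Nat.dvd_sub hc h3
    rwa [show n - (n - i) = i by omega] at h7
  have := Nat.le_of_dvd (by omega) h6
  omega

theorem tg_dich (s n K l a u : ℕ) (ha : 1 ≤ a) (hu : ¬ 2 ∣ u) (hs : s = 2 ^ (a + 1) * u)
    (hsl : s ≤ 2 ^ (l + 1)) (hn : 1 ≤ n) (hK : 2 * a + 1 ≤ K) (hKl : l ≤ K) (hG : G n s K = 0)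
    (h : 2 ^ (l + (2 * a + 1)) ∣ n) : 2 ^ ((a + 1) * K + 1) ∣ n * 2 ^ (2 * a + 1) := by
  have hu0 : 0 < u := Nat.pos_of_ne_zero (by rintro rfl; simp at hu)
  have hs2 : 2 ≤ s := by
    rw [hs, pow_succ]
    have : 0 < 2 ^ a * u := by positivity
    nlinarith
  obtain ⟨φ, A, hA2, hA⟩ := Nat.exists_eq_pow_mul_and_not_dvd (Nat.factorial_ne_zero (s - 1)) 2
    (by norm_num)
  exact yc_dich 2 (a + 1) φ l (2 * a + 1) s n K Nat.prime_two (by omega) ⟨u, hs⟩ ⟨A, hA⟩ hsl hKl hn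
    hs2 h (tw_LL s φ K l a u A ha hu hs hsl (by omega) hK hA hA2) hG

/-- Powers of two: the power of `2` in an exceptional `n`. -/
theorem tg_pow (e n K : ℕ) (he : 3 ≤ e) (hn : 1 ≤ n) (hG : G n (2 ^ e) K = 0) :
    ¬ 2 ^ (3 * e - 2) ∣ n := by
  intro h
  obtain ⟨a, rfl⟩ : ∃ a, e = a + 1 := ⟨e - 1, by omega⟩
  have hle := Nat.le_of_dvd (by omega) h
  have h2s : 2 ≤ 2 ^ (a + 1) := by
    rw [pow_succ]
    have : 0 < 2 ^ a := by positivity
    omega
  have hlt : n < (2 ^ (a + 1) - 1) * 2 ^ K + 2 ^ (a + 1) := by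
    by_contra h1
    exact pf_UP (2 ^ (a + 1)) n K h2s (by omega) hG
  rcases Nat.lt_or_ge K (2 * a + 1) with hK | hK
  · have h1 : (2 ^ (a + 1) - 1) * 2 ^ K + 2 ^ (a + 1) ≤ 2 ^ (3 * (a + 1) - 2) := by
      have h2 : 2 ^ K ≤ 2 ^ (2 * a) := Nat.pow_le_pow_right (by norm_num) (by omega)
      have h3 : 2 ^ (a + 1) ≤ 2 ^ (2 * a) := Nat.pow_le_pow_right (by norm_num) (by omega)
      have h4 : 2 ^ (3 * (a + 1) - 2) = 2 ^ (a + 1) * 2 ^ (2 * a) := by
        rw [← pow_add]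
        congr 1
        omega
      rw [h4]
      obtain ⟨w, hw⟩ : ∃ w, 2 ^ (a + 1) = w + 1 := ⟨2 ^ (a + 1) - 1, by omega⟩
      rw [hw] at h3 ⊢
      simp only [Nat.add_sub_cancel]
      nlinarith
    omega
  · have h1 := tg_dich (2 ^ (a + 1)) n K a a 1 (by omega) (by norm_num) (by ring) le_rfl hn hK
      (by omega) hG (by
        refine (pow_dvd_pow 2 ?_).trans h
        omega)
    have h2 := Nat.le_of_dvd (by positivity) h1
    have h3 : (2 ^ (a + 1) - 1) * 2 ^ K + 2 ^ (a + 1) ≤ 2 ^ (K + (a + 1)) := by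
      have h4 : 2 ^ (a + 1) ≤ 2 ^ K := Nat.pow_le_pow_right (by norm_num) (by omega)
      rw [pow_add 2 K, mul_comm (2 ^ K)]
      obtain ⟨w, hw⟩ : ∃ w, 2 ^ (a + 1) = w + 1 := ⟨2 ^ (a + 1) - 1, by omega⟩
      rw [hw] at h4 ⊢
      simp only [Nat.add_sub_cancel]
      nlinarith
    have h5 : 2 ^ ((a + 1) * K + 1) < 2 ^ (K + (a + 1) + (2 * a + 1)) := by
      rw [pow_add _ (K + (a + 1))]
      calc 2 ^ ((a + 1) * K + 1) ≤ n * 2 ^ (2 * a + 1) := h2
        _ < 2 ^ (K + (a + 1)) * 2 ^ (2 * a + 1) :=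
          Nat.mul_lt_mul_of_pos_right (by omega) (by positivity)
    have h6 := (Nat.pow_lt_pow_iff_right (by norm_num : 1 < 2)).1 h5
    have h7 : (a + 1) * K = a * K + K := by ring
    have h8 : 2 * K ≤ a * K := Nat.mul_le_mul_right K (by omega)
    have h9 : a * (2 * a + 1) ≤ a * K := Nat.mul_le_mul_left a hK
    have h10 : 2 * a ≤ a * a := Nat.mul_le_mul_right a (by omega)
    have h11 : a * (2 * a + 1) = 2 * (a * a) + a := by ring
    omega

/-- Multiples of four: the power of `2` in an exceptional `n`. -/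
theorem tg_four (s n K c : ℕ) (h4 : 4 ∣ s) (h8 : 8 ≤ s) (hn : 1 ≤ n) (hG : G n s K = 0)
    (hc : 2 ^ c ∣ n) : 2 ^ c ≤ s ^ 3 := by
  obtain ⟨e, u, hu, hs⟩ := Nat.exists_eq_pow_mul_and_not_dvd (by omega : s ≠ 0) 2 (by norm_num)
  have he : 2 ≤ e := by
    by_contra h
    have h1 : e = 0 ∨ e = 1 := by omega
    rcases h1 with rfl | rfl
    · apply hu
      rw [hs] at h4
      simpa using (show 2 ∣ 4 by norm_num).trans h4
    · apply hu
      rw [hs] at h4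
      omega
  obtain ⟨a, rfl⟩ : ∃ a, e = a + 1 := ⟨e - 1, by omega⟩
  have hu0 : 0 < u := Nat.pos_of_ne_zero (by rintro rfl; simp at hu)
  obtain ⟨l, hl1, hl2⟩ : ∃ l, 2 ^ l < s ∧ s ≤ 2 ^ (l + 1) := by
    refine ⟨Nat.log 2 (s - 1), ?_, ?_⟩
    · have := Nat.pow_log_le_self 2 (x := s - 1) (by omega)
      omega
    · have := Nat.lt_pow_succ_log_self (b := 2) (by norm_num) (s - 1)
      omega
  have has : 2 * 2 ^ a ≤ s := by
    rw [hs, pow_succ]
    have : 0 < 2 ^ a := by positivity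
    nlinarith
  have hle := Nat.le_of_dvd (by omega) hc
  have hlt : n < (s - 1) * 2 ^ K + s := by
    by_contra h1
    exact pf_UP s n K (by omega) (by omega) hG
  obtain ⟨w, rfl⟩ : ∃ w, s = w + 1 := ⟨s - 1, by omega⟩
  simp only [Nat.add_sub_cancel] at hlt
  have e2a : 2 ^ (2 * a) = 2 ^ a * 2 ^ a := by ring
  rcases Nat.lt_or_ge K (2 * a + 1) with hK | hK
  · have h2 : 2 ^ K ≤ 2 ^ (2 * a) := Nat.pow_le_pow_right (by norm_num) (by omega)
    rw [e2a] at h2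
    have h3 : 2 ^ K ≤ (w + 1) * (w + 1) := h2.trans (Nat.mul_le_mul (by omega) (by omega))
    nlinarith
  rcases Nat.lt_or_ge K l with hKl | hKl
  · have h2 : 2 ^ K ≤ 2 ^ l := Nat.pow_le_pow_right (by norm_num) (by omega)
    have h3 : w * 2 ^ K ≤ w * w := Nat.mul_le_mul_left w (by omega)
    have h5 : (w + 1) ^ 3 = w * w + (w + 1) + (w ^ 3 + 2 * (w * w) + 2 * w) := by ring
    omega
  rcases Nat.lt_or_ge c (l + (2 * a + 1)) with hcl | hcl
  · have h2 : 2 ^ c ≤ 2 ^ (l + 2 * a) := Nat.pow_le_pow_right (by norm_num) (by omega)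
    rw [pow_add, e2a] at h2
    calc 2 ^ c ≤ 2 ^ l * (2 ^ a * 2 ^ a) := h2
      _ ≤ (w + 1) * ((w + 1) * (w + 1)) :=
        Nat.mul_le_mul (by omega) (Nat.mul_le_mul (by omega) (by omega))
      _ = (w + 1) ^ 3 := by ring
  · have h1 := tg_dich (w + 1) n K l a u (by omega) hu hs hl2 hn hK hKl hG
      ((pow_dvd_pow 2 hcl).trans hc)
    have h2 := Nat.le_of_dvd (by positivity) h1
    have h3 : w + 1 ≤ 2 * 2 ^ K := by
      calc w + 1 ≤ 2 ^ (l + 1) := hl2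
        _ ≤ 2 ^ (K + 1) := Nat.pow_le_pow_right (by norm_num) (by omega)
        _ = 2 * 2 ^ K := by ring
    have h5 : n < (w + 2) * 2 ^ K := by nlinarith
    have h6 : 2 ^ ((a + 1) * K + 1) < (w + 2) * 2 ^ K * 2 ^ (2 * a + 1) :=
      lt_of_le_of_lt h2 (Nat.mul_lt_mul_of_pos_right h5 (by positivity))
    obtain ⟨K', rfl⟩ : ∃ K', K = K' + 2 := ⟨K - 2, by omega⟩
    have e1 : 2 ^ ((a + 1) * (K' + 2) + 1) = 2 ^ (a * K') * (2 ^ (K' + 2) * 2 ^ (2 * a + 1)) := by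
      rw [← pow_add, ← pow_add]
      congr 1
      ring
    rw [e1, mul_assoc] at h6
    have h7 : 2 ^ (a * K') < w + 2 := lt_of_mul_lt_mul_right h6 (Nat.zero_le _)
    have h8' : 2 ^ K' ≤ 2 ^ (a * K') :=
      Nat.pow_le_pow_right (by norm_num) (Nat.le_mul_of_pos_left _ (by omega))
    have h9 : 2 ^ K' ≤ w + 1 := by omega
    have h10 : n < (w + 2) * (4 * (w + 1)) := by
      have e3 : 2 ^ (K' + 2) = 4 * 2 ^ K' := by ring
      rw [e3] at h5
      nlinarith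
    have h11 : (w + 2) * (4 * (w + 1)) ≤ (w + 1) ^ 3 := by
      obtain ⟨v, rfl⟩ : ∃ v, w = v + 7 := ⟨w - 7, by omega⟩
      nlinarith [Nat.zero_le v]
    omega

end Pool.Agent.H33.SMP
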