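import Pool.Agent.H33.SMP.DC

/-!
# The limit sum at the prime `2`
-/

set_option autoImplicit false

namespace Pool.Agent.H33.SMP

open Pool.Agent.H33.SMS (G)
open Finset

/-- The power sum over the first `h` odd numbers. -/
def oP (h r : ℕ) : ℕ := ∑ i ∈ range h, (2 * i + 1) ^ (2 * r)

theorem oP_two (h r N : ℕ) (hN : N ∣ 4 * h) : oP (2 * h) r ≡ 2 * oP h r [MOD N] := by
  have e : oP (2 * h) r = oP h r + ∑ i ∈ range h, (2 * i + 1 + 2 * h) ^ (2 * r) := by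
    unfold oP
    rw [two_mul, sum_range_add]
    congr 1
    apply sum_congr rfl
    intro i _
    congr 1
    ring
  rw [e, show 2 * oP h r = oP h r + oP h r by ring]
  apply Nat.ModEq.add_left
  unfold oP
  apply Nat.ModEq.sum
  intro i _
  rw [pow_mul, pow_mul]
  apply Nat.ModEq.pow
  obtain ⟨w, hw⟩ := hN
  rw [Nat.modEq_iff_dvd]
  refine ⟨-((w : ℤ) * (2 * i + 1 + h)), ?_⟩
  have hw' : (4 : ℤ) * h = N * w := by exact_mod_cast hw
  push_cast
  linear_combination (-(2 * (i : ℤ) + 1 + h)) * hw'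

theorem oP_mod (a u r : ℕ) : oP (2 ^ a * u) r ≡ 2 ^ a * u [MOD 2 ^ (a + 1)] := by
  induction a with
  | zero =>
    have h1 : oP (2 ^ 0 * u) r ≡ ∑ i ∈ range (2 ^ 0 * u), 1 [MOD 2 ^ (0 + 1)] := by
      unfold oP
      apply Nat.ModEq.sum
      intro i _
      have : (2 * i + 1) ^ (2 * r) ≡ 1 ^ (2 * r) [MOD 2 ^ (0 + 1)] := by
        apply Nat.ModEq.pow
        simp [Nat.ModEq, Nat.add_mod]
      simpa using this
    simpa using h1
  | succ a ih =>
    have h1 := oP_two (2 ^ a * u) r (2 ^ (a + 1 + 1)) ⟨u, by ring⟩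
    have h2 : 2 * oP (2 ^ a * u) r ≡ 2 * (2 ^ a * u) [MOD 2 * 2 ^ (a + 1)] := ih.mul_left' 2
    have e1 : 2 * 2 ^ (a + 1) = 2 ^ (a + 1 + 1) := by ring
    rw [e1] at h2
    have e2 : 2 ^ (a + 1) * u = 2 * (2 ^ a * u) := by ring
    rw [e2]
    exact h1.trans h2

theorem oP_not (a u r : ℕ) (hu : ¬ 2 ∣ u) : ¬ 2 ^ (a + 1) ∣ oP (2 ^ a * u) r := by
  intro h
  have h1 := (oP_mod a u r).dvd_iff (dvd_refl _) |>.1 h
  rw [pow_succ] at h1
  exact hu (Nat.dvd_of_mul_dvd_mul_left (by positivity) h1)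

theorem tw_split (f : ℕ → ℕ) (h : ℕ) : ∑ j ∈ range (2 * h), f j =
    ∑ i ∈ range h, f (2 * i) + ∑ i ∈ range h, f (2 * i + 1) := by
  induction h with
  | zero => simp
  | succ h ih =>
    rw [show 2 * (h + 1) = 2 * h + 1 + 1 by ring, sum_range_succ, sum_range_succ, ih,
      sum_range_succ, sum_range_succ]
    ring

theorem tw_pow {R : Type*} [CommRing R] (x s : R) (hs : s ^ 2 = 0) (k : ℕ) :
    (x - s) ^ (k + 1) = x ^ (k + 1) - (k + 1) * s * x ^ k := by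
  induction k with
  | zero => simp
  | succ k ih =>
    rw [pow_succ, ih]
    push_cast
    linear_combination ((k : R) + 1) * x ^ k * hs

theorem tw_pair {R : Type*} [CommRing R] (x s a a' A : R) (hs : s ^ 2 = 0) (ha : a * x = A)
    (ha' : a' * (s - x) = A) (r : ℕ) :
    a * (s - x) ^ (2 * r + 2) + a' * x ^ (2 * r + 2) =
      -((2 * r + 2 : ℕ) + 1) * s * A * x ^ (2 * r) := by
  have e1 : (s - x) ^ (2 * r + 2) = (x - s) ^ (2 * r + 1 + 1) := by
    rw [show 2 * r + 1 + 1 = 2 * (r + 1) by ring, pow_mul, pow_mul]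
    congr 1
    ring
  rw [e1, tw_pow x s hs]
  have e2 : s * a' * x = -(s * A) := by
    linear_combination a' * hs - s * ha'
  push_cast
  linear_combination (x ^ (2 * r + 1) - (2 * r + 2) * s * x ^ (2 * r)) * ha -
    x ^ (2 * r + 1) * ha' + x ^ (2 * r) * e2

/-- The odd part of the limit sum. -/
def oT (A h K : ℕ) : ℕ := ∑ i ∈ range h, A / (2 * i + 1) * (2 * (h - 1 - i) + 1) ^ K

theorem oT_odd (A h r : ℕ) (hA : ∀ i < h, 2 * i + 1 ∣ A) :
    2 * h ∣ oT A h (2 * r + 1) + A * oP h r := by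
  unfold oT oP
  rw [mul_sum, ← sum_add_distrib]
  apply dvd_sum
  intro i hi
  rw [mem_range] at hi
  have h1 := Odd.nat_add_dvd_pow_add_pow (2 * (h - 1 - i) + 1) (2 * i + 1) (n := 2 * r + 1)
    ⟨r, rfl⟩
  have e1 : 2 * (h - 1 - i) + 1 + (2 * i + 1) = 2 * h := by omega
  rw [e1] at h1
  obtain ⟨c, hc⟩ := hA i hi
  have h2 : A / (2 * i + 1) = c := by
    rw [hc]
    exact Nat.mul_div_cancel_left c (by omega)
  rw [h2]
  have e2 : c * (2 * (h - 1 - i) + 1) ^ (2 * r + 1) + A * (2 * i + 1) ^ (2 * r) =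
      c * ((2 * (h - 1 - i) + 1) ^ (2 * r + 1) + (2 * i + 1) ^ (2 * r + 1)) := by
    rw [hc]
    ring
  rw [e2]
  exact h1.mul_left c

theorem oT_even (A h r N : ℕ) (hN : N ∣ (2 * h) ^ 2) (hA : ∀ i < h, 2 * i + 1 ∣ A) :
    N ∣ 2 * oT A h (2 * r + 2) + (2 * r + 3) * (2 * h) * A * oP h r := by
  have hr : oT A h (2 * r + 2) =
      ∑ i ∈ range h, A / (2 * (h - 1 - i) + 1) * (2 * i + 1) ^ (2 * r + 2) := by
    unfold oT
    rw [← sum_range_reflect]
    apply sum_congr rfl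
    intro i hi
    rw [mem_range] at hi
    rw [show h - 1 - (h - 1 - i) = i by omega]
  have hs : (((2 * h : ℕ) : ZMod N)) ^ 2 = 0 := by
    rw [← Nat.cast_pow]
    exact (ZMod.natCast_eq_zero_iff _ _).2 hN
  rw [← ZMod.natCast_eq_zero_iff]
  have h1 : ((oT A h (2 * r + 2) : ℕ) : ZMod N) + ((oT A h (2 * r + 2) : ℕ) : ZMod N) =
      -((2 * r + 3 : ℕ) * (2 * h : ℕ) * A * oP h r : ZMod N) := by
    conv_lhs => arg 2; rw [hr]
    unfold oT oP
    push_cast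
    rw [← sum_add_distrib, mul_sum, ← sum_neg_distrib]
    apply sum_congr rfl
    intro i hi
    rw [mem_range] at hi
    have ha : ((A / (2 * i + 1) : ℕ) : ZMod N) * (2 * i + 1) = A := by
      have := Nat.div_mul_cancel (hA i hi)
      exact_mod_cast congrArg (Nat.cast : ℕ → ZMod N) this
    have ea : ((h - 1 - i : ℕ) : ZMod N) = h - 1 - i := by
      rw [Nat.cast_sub (by omega), Nat.cast_sub (by omega)]
      simp
    have hb : ((A / (2 * (h - 1 - i) + 1) : ℕ) : ZMod N) * ((2 * h : ℕ) - (2 * i + 1)) = A := by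
      have := Nat.div_mul_cancel (hA (h - 1 - i) (by omega))
      have h3 := congrArg (Nat.cast : ℕ → ZMod N) this
      push_cast at h3 ⊢
      rw [ea] at h3
      linear_combination h3
    have h4 := tw_pair (2 * (i : ZMod N) + 1) ((2 * h : ℕ) : ZMod N) _ _ A hs ha hb r
    rw [ea]
    push_cast at h4 ⊢
    linear_combination h4
  push_cast at h1 ⊢
  linear_combination h1

theorem oT_not_odd (A a u r : ℕ) (hu : ¬ 2 ∣ u) (hA2 : ¬ 2 ∣ A)
    (hA : ∀ i < 2 ^ a * u, 2 * i + 1 ∣ A) : ¬ 2 ^ (a + 1) ∣ oT A (2 ^ a * u) (2 * r + 1) := by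
  intro h
  have h1 := oT_odd A (2 ^ a * u) r hA
  have h2 : 2 ^ (a + 1) ∣ 2 * (2 ^ a * u) := ⟨u, by ring⟩
  have h3 := (Nat.dvd_add_right h).1 (h2.trans h1)
  exact oP_not a u r hu ((Nat.Coprime.pow_left _
    ((Nat.Prime.coprime_iff_not_dvd Nat.prime_two).2 hA2)).dvd_of_dvd_mul_left h3)

theorem oT_not_even (A a u r : ℕ) (hu : ¬ 2 ∣ u) (hA2 : ¬ 2 ∣ A)
    (hA : ∀ i < 2 ^ a * u, 2 * i + 1 ∣ A) :
    ¬ 2 ^ (2 * a + 1) ∣ oT A (2 ^ a * u) (2 * r + 2) := by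
  intro h
  have h1 := oT_even A (2 ^ a * u) r (2 ^ (2 * a + 2)) ⟨u ^ 2, by ring⟩ hA
  have h2 : 2 ^ (2 * a + 2) ∣ 2 * oT A (2 ^ a * u) (2 * r + 2) := by
    rw [show 2 ^ (2 * a + 2) = 2 * 2 ^ (2 * a + 1) by ring]
    exact Nat.mul_dvd_mul_left 2 h
  have h3 := (Nat.dvd_add_right h2).1 h1
  have e : (2 * r + 3) * (2 * (2 ^ a * u)) * A * oP (2 ^ a * u) r =
      2 ^ (a + 1) * ((2 * r + 3) * u * A * oP (2 ^ a * u) r) := by ring
  rw [e, show 2 ^ (2 * a + 2) = 2 ^ (a + 1) * 2 ^ (a + 1) by ring] at h3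
  have h4 := Nat.dvd_of_mul_dvd_mul_left (by positivity) h3
  have c1 : Nat.Coprime 2 ((2 * r + 3) * u * A) := by
    rw [Nat.Prime.coprime_iff_not_dvd Nat.prime_two]
    intro h5
    rcases (Nat.Prime.dvd_mul Nat.prime_two).1 h5 with h6 | h6
    · rcases (Nat.Prime.dvd_mul Nat.prime_two).1 h6 with h7 | h7
      · omega
      · exact hu h7
    · exact hA2 h6
  exact oP_not a u r hu ((c1.pow_left _).dvd_of_dvd_mul_left h4)

theorem tw_term (s φ K j l A e u : ℕ) (hA : 2 ^ φ ∣ A) (hj : 0 < j) (hjA : j ∣ A) (hjs : j < s)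
    (h2j : 2 ∣ j) (hs : s = 2 ^ e * u) (he : 2 ≤ e) (hsl : s ≤ 2 ^ (l + 1)) (hK : l ≤ K + 1)
    (hK1 : 1 ≤ K) : 2 ^ (φ + (K - 1)) ∣ A / j * (s - j) ^ K := by
  obtain ⟨a, j', hj', rfl⟩ := Nat.exists_eq_pow_mul_and_not_dvd (by omega : j ≠ 0) 2 (by norm_num)
  have ha1 : 1 ≤ a := by
    by_contra h
    have : a = 0 := by omega
    subst this
    exact hj' (by simpa using h2j)
  have hj0 : 0 < j' := Nat.pos_of_ne_zero (by rintro rfl; simp at hj)
  have hal : a ≤ l := by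
    by_contra h
    have h1 : 2 ^ (l + 1) ≤ 2 ^ a := Nat.pow_le_pow_right (by norm_num) (by omega)
    have h2 : 2 ^ a ≤ 2 ^ a * j' := Nat.le_mul_of_pos_right _ hj0
    omega
  have h1 : 2 ^ φ ∣ A / (2 ^ a * j') * 2 ^ a := by
    have h2 : 2 ^ φ ∣ A / (2 ^ a * j') * 2 ^ a * j' := by
      rw [mul_assoc, Nat.div_mul_cancel hjA]
      exact hA
    exact (Nat.Coprime.pow_left _
      ((Nat.Prime.coprime_iff_not_dvd Nat.prime_two).2 hj')).dvd_of_dvd_mul_right h2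
  have h3 : 2 ^ (a + (K - 1)) ∣ (s - 2 ^ a * j') ^ K := by
    rcases Nat.lt_or_ge e a with hae | hae
    · have h4 : 2 ^ e ∣ s - 2 ^ a * j' := by
        apply Nat.dvd_sub
        · rw [hs]; exact dvd_mul_right _ _
        · exact (pow_dvd_pow 2 hae.le).trans (dvd_mul_right _ _)
      have h5 := pow_dvd_pow_of_dvd h4 K
      rw [← pow_mul] at h5
      refine (pow_dvd_pow 2 ?_).trans h5
      have : 2 * K ≤ e * K := Nat.mul_le_mul_right K he
      omega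
    · have h4 : 2 ^ a ∣ s - 2 ^ a * j' := by
        apply Nat.dvd_sub
        · rw [hs]; exact (pow_dvd_pow 2 hae).trans (dvd_mul_right _ _)
        · exact dvd_mul_right _ _
      have h5 := pow_dvd_pow_of_dvd h4 K
      rw [← pow_mul] at h5
      refine (pow_dvd_pow 2 ?_).trans h5
      obtain ⟨a', rfl⟩ : ∃ a', a = a' + 1 := ⟨a - 1, by omega⟩
      obtain ⟨K', rfl⟩ : ∃ K', K = K' + 1 := ⟨K - 1, by omega⟩
      have : (a' + 1) * (K' + 1) = a' * K' + a' + K' + 1 := by ring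
      have h6 : 0 ≤ a' * K' := Nat.zero_le _
      omega
  rw [pow_add] at h3
  obtain ⟨w, hw⟩ := h3
  rw [hw]
  have e1 : A / (2 ^ a * j') * (2 ^ a * 2 ^ (K - 1) * w) =
      A / (2 ^ a * j') * 2 ^ a * 2 ^ (K - 1) * w := by ring
  rw [e1, pow_add]
  exact (Nat.mul_dvd_mul h1 (dvd_refl _)).mul_right w

/-- The limit sum is not divisible by a high power of `2`. -/
theorem tw_LL (s φ K l a u A : ℕ) (ha : 1 ≤ a) (hu : ¬ 2 ∣ u) (hs : s = 2 ^ (a + 1) * u)
    (hsl : s ≤ 2 ^ (l + 1)) (hKl : l ≤ K + 1) (hK : 2 * a + 1 ≤ K)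
    (hA : (s - 1).factorial = 2 ^ φ * A) (hA2 : ¬ 2 ∣ A) :
    ¬ 2 ^ (φ + (2 * a + 1)) ∣ LL s K := by
  have hu0 : 0 < u := Nat.pos_of_ne_zero (by rintro rfl; simp at hu)
  have hsh : s = 2 * (2 ^ a * u) := by rw [hs]; ring
  set h := 2 ^ a * u with hh
  have hh0 : 0 < h := by positivity
  have hdA : ∀ j, 0 < j → j < s → j ∣ (s - 1).factorial :=
    fun j h1 h2 => Nat.dvd_factorial h1 (by omega)
  have hAo : ∀ i < h, 2 * i + 1 ∣ A := by
    intro i hi
    have h1 := hdA (2 * i + 1) (by omega) (by omega)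
    rw [hA] at h1
    exact (Nat.Coprime.pow_right φ
      ((Nat.Prime.coprime_iff_not_dvd Nat.prime_two).2 (by omega)).symm).dvd_of_dvd_mul_left h1
  have e1 : LL s K = ∑ j ∈ range s, (s - 1).factorial / j * (s - j) ^ K := by
    unfold LL
    rw [range_eq_Ico, sum_eq_sum_Ico_succ_bot (by omega)]
    simp only [Nat.div_zero, zero_mul, zero_add]
    apply sum_congr _ (fun _ _ => rfl)
    ext j
    simp only [mem_Icc, mem_Ico]
    omega
  have e2 : LL s K = (∑ i ∈ range h, (s - 1).factorial / (2 * i) * (s - 2 * i) ^ K) +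
      2 ^ φ * oT A h K := by
    rw [e1]
    conv_lhs => rw [hsh]
    rw [tw_split]
    rw [← hsh]
    congr 1
    unfold oT
    rw [mul_sum]
    apply sum_congr rfl
    intro i hi
    rw [mem_range] at hi
    rw [show s - (2 * i + 1) = 2 * (h - 1 - i) + 1 by omega, ← mul_assoc]
    congr 1
    rw [hA]
    exact Nat.mul_div_assoc _ (hAo i hi)
  have h3 : 2 ^ (φ + (K - 1)) ∣ ∑ i ∈ range h, (s - 1).factorial / (2 * i) * (s - 2 * i) ^ K := by
    apply dvd_sum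
    intro i hi
    rw [mem_range] at hi
    rcases Nat.eq_zero_or_pos i with h0 | h0
    · subst h0
      simp
    · exact tw_term s φ K (2 * i) l _ (a + 1) u ⟨A, hA⟩ (by omega)
        (hdA _ (by omega) (by omega)) (by omega) ⟨i, rfl⟩ hs (by omega) hsl hKl (by omega)
  intro hL
  rw [e2] at hL
  rcases Nat.even_or_odd K with hev | hod
  · obtain ⟨r, hr⟩ := hev
    obtain ⟨r', rfl⟩ : ∃ r', K = 2 * r' + 2 := ⟨r - 1, by omega⟩
    have h4 : 2 ^ (φ + (2 * a + 1)) ∣ 2 ^ (φ + (2 * r' + 2 - 1)) := pow_dvd_pow 2 (by omega)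
    have h5 := (Nat.dvd_add_right (h4.trans h3)).1 hL
    rw [pow_add] at h5
    exact oT_not_even A a u r' hu hA2 hAo (Nat.dvd_of_mul_dvd_mul_left (by positivity) h5)
  · obtain ⟨r, rfl⟩ := hod
    have h4 : 2 ^ (φ + (a + 1)) ∣ 2 ^ (φ + (2 * r + 1 - 1)) := pow_dvd_pow 2 (by omega)
    have h4' : 2 ^ (φ + (a + 1)) ∣ 2 ^ (φ + (2 * a + 1)) := pow_dvd_pow 2 (by omega)
    have h5 := (Nat.dvd_add_right (h4.trans h3)).1 (h4'.trans hL)
    rw [pow_add] at h5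
    exact oT_not_odd A a u r hu hA2 hAo (Nat.dvd_of_mul_dvd_mul_left (by positivity) h5)

end Pool.Agent.H33.SMP
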